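import Pool.Agent.Gauss4d.Law
import Pool.Agent.Lib.MaximalErgodic

set_option autoImplicit false

/-!
# Gauss4d: from the product space to the diagonal

PROOF of `core`.  Let `W = {y : (ℕ → ℝ) × Ω' | the averages of ex (y.1 n) * Z n y.2 converge}`, a
measurable set (`measurableSet_exists_tendsto`).  By `hconv`, `Wᶜ` is a null set for
`(Measure.map (seqA X v) (Measure.pi fun _ => P)).prod P'` (`Measure.map_prod_map`,
`ae_map_iff`), so by `law_eq` for `(Measure.map (seqB X v) (P.prod (Measure.pi fun _ => P))).prod P'`: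
for a.e. `((x0, x), z)` the averages of `ex (seqB X v (x0, x) n) * Z n z` converge; multiply by the fixed
number `E z`.  By Fubini (`Measure.ae_ae_of_ae_prod`, after reordering) for a.e. `x0` this holds for a.e.
`(x, z)`; the averages are bounded by `1`, so by dominated convergence their integrals over `(x, z)`
converge.  For every `x0` the integral of the `n`-th term is (`integral_prod_mul`, `GField.int_ex_pi`)
`ex (X (∑_j v j n) x0) * exp (-m ∑_l ‖v_{l n} - m⁻¹ ∑_j v_{j n}‖² / 2) * κ * exp (-‖∑_j v_{j n}‖² / 2)`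
(use `√m * X u (x l) = X (√m • u) (x l)` for a.e. `x`), and by `sum_norm_sub_mean`
`m ∑_l ‖v_l - mean‖² = m ∑_l ‖v_l‖² - ‖∑_j v_j‖²`, so the exponentials multiply to
`exp (-m ∑_l (r l)² / 2)`: the `n`-th term is `ex (X (∑_j v j n) x0)` times the constant
`κ * exp (-m ∑_l (r l)² / 2) ≠ 0`.  Divide.
-/

open MeasureTheory Filter Topology Finset
open scoped InnerProductSpace

namespace Pool.Gauss4d

/-- The exponential is never zero. -/
private lemma exp_aux (κ : ℂ) (hκ : κ ≠ 0) (t : ℝ) : κ * Complex.exp ((t : ℝ) : ℂ) ≠ 0 :=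
  mul_ne_zero hκ (Complex.exp_ne_zero _)

/-- The version with bounded weights `cw`. -/
theorem core_w {Ω : Type*} [MeasurableSpace Ω] {P : Measure Ω} [IsProbabilityMeasure P] {H : Type*}
    [NormedAddCommGroup H] [InnerProductSpace ℝ H] {X : H → Ω → ℝ} (hX : GField P X)
    {Ω' : Type*} [MeasurableSpace Ω'] (P' : Measure Ω') [IsProbabilityMeasure P'] (m : ℕ)
    (hm : 1 ≤ m) (v : Fin m → ℕ → H) (r : Fin m → ℝ) (hr : ∀ j n, ‖v j n‖ = r j)
    (Z : ℕ → Ω' → ℂ) (hZm : ∀ n, Measurable (Z n)) (hZ : ∀ n z, ‖Z n z‖ ≤ 1)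
    (E : Ω' → ℂ) (hEm : Measurable E) (hE1 : ∀ z, ‖E z‖ ≤ 1) (κ : ℂ) (hκ : κ ≠ 0)
    (hE : ∀ n, ∫ z, Z n z * E z ∂P' = κ * Complex.exp (-((‖∑ j, v j n‖ ^ 2 / 2 : ℝ) : ℂ)))
    (cw : ℕ → ℂ) (hcw : ∀ n, ‖cw n‖ ≤ 1)
    (hconv : ∀ᵐ x ∂((Measure.pi fun _ : Fin m => P).prod P'), ∃ L,
      Tendsto (Pool.Lib.Erg.avg fun n => cw n * (ex (seqA X v x.1 n) * Z n x.2)) atTop (𝓝 L)) :
    ∀ᵐ x ∂P, ∃ L, Tendsto (Pool.Lib.Erg.avg fun n => cw n * ex (X (∑ j, v j n) x)) atTop (𝓝 L) := by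
  classical
  have hmR : (0 : ℝ) < m := by exact_mod_cast hm
  -- measurability
  have hAm : Measurable (seqA X v) := by
    refine measurable_pi_iff.2 fun n => ?_
    unfold seqA
    exact (Finset.measurable_sum _ fun j _ => (hX.meas _).comp (measurable_pi_apply j)).const_mul _
  have hBm : Measurable (seqB X v) := by
    refine measurable_pi_iff.2 fun n => ?_
    unfold seqB
    exact ((hX.meas _).comp measurable_fst).add ((Finset.measurable_sum _ fun l _ =>
      (hX.meas _).comp ((measurable_pi_apply l).comp measurable_snd)).const_mul _)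
  obtain ⟨W, hW⟩ : ∃ W : Set ((ℕ → ℝ) × Ω'), W = {y | ∃ L, Tendsto (Pool.Lib.Erg.avg
      fun n => cw n * (ex (y.1 n) * Z n y.2)) atTop (𝓝 L)} := ⟨_, rfl⟩
  have hWm : MeasurableSet W := by
    rw [hW]
    refine measurableSet_exists_tendsto (f := fun N (y : (ℕ → ℝ) × Ω') =>
      Pool.Lib.Erg.avg (fun n => cw n * (ex (y.1 n) * Z n y.2)) N) fun N => ?_
    unfold Pool.Lib.Erg.avg
    refine (Finset.measurable_sum _ fun n _ => ?_).const_mul _
    exact ((measurable_ex.comp ((measurable_pi_apply n).comp measurable_fst)).mul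
      ((hZm n).comp measurable_snd)).const_mul _
  -- the law
  have h1 : ∀ᵐ y ∂((Measure.map (seqA X v) (Measure.pi fun _ : Fin m => P)).prod P'), y ∈ W := by
    have h := Measure.map_prod_map (Measure.pi fun _ : Fin m => P) P' hAm
      (measurable_id (α := Ω'))
    rw [Measure.map_id] at h
    rw [h]
    refine (ae_map_iff (p := fun y => y ∈ W) (hAm.prodMap measurable_id).aemeasurable hWm).2 ?_
    filter_upwards [hconv] with x hx
    rw [hW]
    exact hx
  rw [law_eq hX m hm v] at h1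
  have h2 : ∀ᵐ q ∂((P.prod (Measure.pi fun _ : Fin m => P)).prod P'),
      (seqB X v q.1, q.2) ∈ W := by
    have h := Measure.map_prod_map (P.prod (Measure.pi fun _ : Fin m => P)) P' hBm
      (measurable_id (α := Ω'))
    rw [Measure.map_id] at h
    rw [h] at h1
    exact (ae_map_iff (p := fun y => y ∈ W) (hBm.prodMap measurable_id).aemeasurable hWm).1 h1
  have h3 : ∀ᵐ q ∂(P.prod ((Measure.pi fun _ : Fin m => P).prod P')),
      (seqB X v (q.1, q.2.1), q.2.2) ∈ W := by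
    have hmp := (measurePreserving_prodAssoc P (Measure.pi fun _ : Fin m => P) P').symm
    exact hmp.quasiMeasurePreserving.ae h2
  have h4 := Measure.ae_ae_of_ae_prod h3
  -- the constant
  obtain ⟨c, hc⟩ : ∃ c : ℂ, c = κ * Complex.exp ((-(m * ∑ l, r l ^ 2) / 2 : ℝ) : ℂ) := ⟨_, rfl⟩
  have hc0 : c ≠ 0 := by rw [hc]; exact exp_aux κ hκ _
  have hconst : ∀ n, (∫ x : Fin m → Ω, ex (Real.sqrt m * ∑ l, X (v l n - (m : ℝ)⁻¹ • ∑ j, v j n)
      (x l)) ∂(Measure.pi fun _ => P)) * ∫ z, Z n z * E z ∂P' = c := by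
    intro n
    have e1 : ∫ x : Fin m → Ω, ex (Real.sqrt m * ∑ l, X (v l n - (m : ℝ)⁻¹ • ∑ j, v j n)
        (x l)) ∂(Measure.pi fun _ => P) = ∫ x : Fin m → Ω, ex (∑ l,
          X (Real.sqrt m • (v l n - (m : ℝ)⁻¹ • ∑ j, v j n)) (x l)) ∂(Measure.pi fun _ => P) := by
      refine integral_congr_ae ?_
      have hall : ∀ᵐ x : Fin m → Ω ∂(Measure.pi fun _ => P), ∀ l,
          X (Real.sqrt m • (v l n - (m : ℝ)⁻¹ • ∑ j, v j n)) (x l) =
            Real.sqrt m * X (v l n - (m : ℝ)⁻¹ • ∑ j, v j n) (x l) := by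
        refine ae_all_iff.2 fun l => ?_
        exact (measurePreserving_eval (fun _ : Fin m => P) l).quasiMeasurePreserving.ae
          (hX.smul (Real.sqrt m) _)
      filter_upwards [hall] with x hx
      rw [Finset.mul_sum]
      congr 1
      exact Finset.sum_congr rfl fun l _ => (hx l).symm
    rw [e1, hX.int_ex_pi, hE, hc, mul_comm, mul_assoc, ← Complex.exp_add]
    congr 2
    rw [← Complex.ofReal_neg, ← Complex.ofReal_neg, ← Complex.ofReal_add]
    congr 1
    have e2 : ∀ l, ‖Real.sqrt m • (v l n - (m : ℝ)⁻¹ • ∑ j, v j n)‖ ^ 2 =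
        m * ‖v l n - (m : ℝ)⁻¹ • ∑ j, v j n‖ ^ 2 := by
      intro l
      rw [norm_smul, mul_pow, Real.norm_of_nonneg (Real.sqrt_nonneg _), Real.sq_sqrt hmR.le]
    simp only [e2]
    have e3 := sum_norm_sub_mean m hm (fun l => v l n)
    have e4 : ∑ l, (m : ℝ) * ‖v l n - (m : ℝ)⁻¹ • ∑ j, v j n‖ ^ 2 / 2 =
        (m * ∑ l, r l ^ 2 - ‖∑ j, v j n‖ ^ 2) / 2 := by
      rw [← Finset.sum_div, ← Finset.mul_sum, e3, mul_sub, ← mul_assoc, mul_inv_cancel₀ hmR.ne',
        one_mul]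
      simp only [hr]
    rw [e4]
    ring
  -- integration for fixed `x0`
  filter_upwards [h4] with x0 hx0
  obtain ⟨t, ht⟩ : ∃ t : ℕ → (Fin m → Ω) × Ω' → ℂ, ∀ n w, t n w =
      cw n * (ex (seqB X v (x0, w.1) n) * (Z n w.2 * E w.2)) := ⟨_, fun _ _ => rfl⟩
  have htm : ∀ n, Measurable (t n) := by
    intro n
    have : t n = fun w => cw n * (ex (seqB X v (x0, w.1) n) * (Z n w.2 * E w.2)) := funext (ht n)
    rw [this]
    have hb : Measurable fun w : (Fin m → Ω) × Ω' => seqB X v (x0, w.1) n :=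
      (measurable_pi_iff.1 hBm n).comp (measurable_const.prodMk measurable_fst)
    exact ((measurable_ex.comp hb).mul
      (((hZm n).comp measurable_snd).mul (hEm.comp measurable_snd))).const_mul _
  have htb : ∀ n w, ‖t n w‖ ≤ 1 := by
    intro n w
    rw [ht, norm_mul, norm_mul, norm_mul, norm_ex, one_mul]
    exact mul_le_one₀ (hcw n) (mul_nonneg (norm_nonneg _) (norm_nonneg _))
      (mul_le_one₀ (hZ n _) (norm_nonneg _) (hE1 _))
  have hti : ∀ n, Integrable (t n) ((Measure.pi fun _ : Fin m => P).prod P') := fun n =>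
    Integrable.of_bound (htm n).aestronglyMeasurable 1 (Eventually.of_forall (htb n))
  have hex : ∀ w, ∃ L, (∃ L', Tendsto (Pool.Lib.Erg.avg fun n => t n w) atTop (𝓝 L')) →
      Tendsto (Pool.Lib.Erg.avg fun n => t n w) atTop (𝓝 L) := by
    intro w
    by_cases h : ∃ L', Tendsto (Pool.Lib.Erg.avg fun n => t n w) atTop (𝓝 L')
    · obtain ⟨L', hL'⟩ := h
      exact ⟨L', fun _ => hL'⟩
    · exact ⟨0, fun h' => absurd h' h⟩
  choose G hG using hex
  have hae : ∀ᵐ w ∂((Measure.pi fun _ : Fin m => P).prod P'),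
      Tendsto (fun N => Pool.Lib.Erg.avg (fun n => t n w) N) atTop (𝓝 (G w)) := by
    filter_upwards [hx0] with w hw
    apply hG
    rw [hW] at hw
    obtain ⟨L, hL⟩ := hw
    refine ⟨L * E w.2, (hL.mul_const (E w.2)).congr fun N => ?_⟩
    unfold Pool.Lib.Erg.avg
    rw [mul_assoc, Finset.sum_mul]
    congr 1
    refine Finset.sum_congr rfl fun n _ => ?_
    simp only [ht]
    ring
  have hlim := tendsto_integral_of_dominated_convergence
    (μ := (Measure.pi fun _ : Fin m => P).prod P')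
    (F := fun N w => Pool.Lib.Erg.avg (fun n => t n w) N) (f := G) (fun _ => (1 : ℝ))
    (fun N => by
      refine Measurable.aestronglyMeasurable ?_
      unfold Pool.Lib.Erg.avg
      exact (Finset.measurable_sum _ fun n _ => htm n).const_mul _)
    (integrable_const _)
    (fun N => Eventually.of_forall fun w => by
      refine (Pool.Lib.Erg.avg_norm_le _ N).trans ?_
      rcases Nat.eq_zero_or_pos N with h | h
      · subst h; simp
      · have hN : (0 : ℝ) < N := by exact_mod_cast h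
        rw [inv_mul_le_iff₀ hN]
        calc ∑ n ∈ range N, ‖t n w‖ ≤ ∑ _n ∈ range N, (1 : ℝ) :=
              Finset.sum_le_sum fun n _ => htb n w
          _ = N * 1 := by simp)
    hae
  have hval : ∀ N, ∫ w, Pool.Lib.Erg.avg (fun n => t n w) N
      ∂((Measure.pi fun _ : Fin m => P).prod P') =
      c * Pool.Lib.Erg.avg (fun n => cw n * ex (X (∑ j, v j n) x0)) N := by
    intro N
    unfold Pool.Lib.Erg.avg
    rw [integral_const_mul, integral_finsetSum _ fun n _ => hti n]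
    have e1 : ∀ n, ∫ w, t n w ∂((Measure.pi fun _ : Fin m => P).prod P') =
        c * (cw n * ex (X (∑ j, v j n) x0)) := by
      intro n
      have e2 : ∀ w, t n w = (cw n * ex (X (∑ j, v j n) x0)) *
          (ex (Real.sqrt m * ∑ l, X (v l n - (m : ℝ)⁻¹ • ∑ j, v j n) (w.1 l)) *
            (Z n w.2 * E w.2)) := by
        intro w
        rw [ht, seqB, ex_add]
        ring
      simp only [e2]
      rw [integral_const_mul, integral_prod_mul (fun x : Fin m → Ω =>
        ex (Real.sqrt m * ∑ l, X (v l n - (m : ℝ)⁻¹ • ∑ j, v j n) (x l)))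
        (fun z => Z n z * E z), hconst n, mul_comm]
    simp only [e1]
    rw [← Finset.mul_sum]
    ring
  refine ⟨c⁻¹ * ∫ w, G w ∂((Measure.pi fun _ : Fin m => P).prod P'),
    (hlim.const_mul c⁻¹).congr fun N => ?_⟩
  rw [hval, ← mul_assoc, inv_mul_cancel₀ hc0, one_mul]

theorem core {Ω : Type*} [MeasurableSpace Ω] {P : Measure Ω} [IsProbabilityMeasure P] {H : Type*}
    [NormedAddCommGroup H] [InnerProductSpace ℝ H] {X : H → Ω → ℝ} (hX : GField P X)
    {Ω' : Type*} [MeasurableSpace Ω'] (P' : Measure Ω') [IsProbabilityMeasure P'] (m : ℕ)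
    (hm : 1 ≤ m) (v : Fin m → ℕ → H) (r : Fin m → ℝ) (hr : ∀ j n, ‖v j n‖ = r j)
    (Z : ℕ → Ω' → ℂ) (hZm : ∀ n, Measurable (Z n)) (hZ : ∀ n z, ‖Z n z‖ ≤ 1)
    (E : Ω' → ℂ) (hEm : Measurable E) (hE1 : ∀ z, ‖E z‖ ≤ 1) (κ : ℂ) (hκ : κ ≠ 0)
    (hE : ∀ n, ∫ z, Z n z * E z ∂P' = κ * Complex.exp (-((‖∑ j, v j n‖ ^ 2 / 2 : ℝ) : ℂ)))
    (hconv : ∀ᵐ x ∂((Measure.pi fun _ : Fin m => P).prod P'), ∃ L,
      Tendsto (Pool.Lib.Erg.avg fun n => ex (seqA X v x.1 n) * Z n x.2) atTop (𝓝 L)) :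
    ∀ᵐ x ∂P, ∃ L, Tendsto (Pool.Lib.Erg.avg fun n => ex (X (∑ j, v j n) x)) atTop (𝓝 L) := by
  have h := core_w hX P' m hm v r hr Z hZm hZ E hEm hE1 κ hκ hE (fun _ => 1) (fun _ => by simp)
    (by simpa only [one_mul] using hconv)
  simpa only [one_mul] using h

end Pool.Gauss4d
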