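import Pool.Agent.Gauss4d.Field

set_option autoImplicit false

/-!
# Gauss4d: density of the exponentials

`IsExpo X φ`: `φ` is a finite linear combination of the functions `ex (X h)`.

PROOF of `expo_dense`.  The closure `K` in `L²(P)` (complex) of the classes of the functions
`ω ↦ ex (X h ω)`, `h : H`, is everything: let `g ∈ L²(P)` be orthogonal to all of them.  Since
`conj (ex (X h)) = ex (X (-h))` a.e., also the real and the imaginary part of `g` are orthogonal to all of
them; so let `g` be real, `∫ g ex (X h) = 0` for all `h` (`h = 0`: `∫ g = 0`).  Write `g = g⁺ - g⁻`; for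
`h_1, ..., h_k` let `F = (X h_1, ..., X h_k) : Ω → (Fin k → ℝ)`.  The finite measures
`Measure.map F (P.withDensity g⁺)` and `Measure.map F (P.withDensity g⁻)` have the same characteristic
function (`∑ c_i X h_i = X (∑ c_i h_i)` a.e., `GField.lin`), so they are equal
(`Measure.ext_of_charFunDual`): `∫_{F⁻¹ A} g = 0` for all measurable `A`.  Such sets `F⁻¹ A` (all `k`,
all `h_i`) form a π-system generating `⨆ h, comap (X h)`, so by `ext_of_generate_finite` the measures
`P.withDensity g⁺`, `P.withDensity g⁻` agree on this σ-algebra, and by `hgen` on all measurable sets: every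
measurable set is a.e. equal to such a set, and both measures are absolutely continuous.  So `g = 0` a.e.
(For the π-system one can use all sets `{ω | X h_i ω ∈ A_i for i ∈ s}`, `s` a finite set of indices, which
generate `⨆ h, comap (X h)`: `generatePiSystem`/`piiUnionInter` (`isPiSystem_piiUnionInter`,
`generateFrom_piiUnionInter_measurableSet`).)
Hence the span is dense (`Submodule.topologicalClosure_eq_top_iff` or
`Submodule.orthogonal_eq_bot_iff`), and a bounded `f` is in `L²`.
-/

open MeasureTheory Filter Topology Finset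
open scoped ENNReal

namespace Pool.Gauss4d

/-- Finite linear combinations of exponentials of the field. -/
def IsExpo {Ω H : Type*} (X : H → Ω → ℝ) (φ : Ω → ℂ) : Prop :=
  ∃ (k : ℕ) (c : Fin k → ℂ) (h : Fin k → H), ∀ ω, φ ω = ∑ i, c i * ex (X (h i) ω)

variable {Ω : Type*} [MeasurableSpace Ω] {P : Measure Ω} [IsProbabilityMeasure P] {H : Type*}
  [NormedAddCommGroup H] [InnerProductSpace ℝ H] {X : H → Ω → ℝ}

lemma IsExpo.measurable (hX : GField P X) {φ : Ω → ℂ} (h : IsExpo X φ) : Measurable φ := by
  obtain ⟨k, c, v, hv⟩ := h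
  have h1 : φ = fun ω => ∑ i, c i * ex (X (v i) ω) := funext hv
  rw [h1]
  exact Finset.measurable_sum _ fun i _ => (measurable_ex.comp (hX.meas _)).const_mul _

lemma IsExpo.bdd {φ : Ω → ℂ} (h : IsExpo X φ) : ∃ C : ℝ, ∀ ω, ‖φ ω‖ ≤ C := by
  obtain ⟨k, c, v, hv⟩ := h
  refine ⟨∑ i, ‖c i‖, fun ω => ?_⟩
  rw [hv]
  refine (norm_sum_le _ _).trans (Finset.sum_le_sum fun i _ => ?_)
  rw [norm_mul, norm_ex, mul_one]

omit [MeasurableSpace Ω] [NormedAddCommGroup H] [InnerProductSpace ℝ H] in
lemma dnAux_zero : IsExpo X (fun _ => (0 : ℂ)) :=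
  ⟨0, fun i => i.elim0, fun i => i.elim0, fun ω => by simp⟩

omit [MeasurableSpace Ω] [NormedAddCommGroup H] [InnerProductSpace ℝ H] in
lemma dnAux_add {φ ψ : Ω → ℂ} (h1 : IsExpo X φ) (h2 : IsExpo X ψ) :
    IsExpo X (fun ω => φ ω + ψ ω) := by
  obtain ⟨k, c, v, hv⟩ := h1
  obtain ⟨l, d, w, hw⟩ := h2
  refine ⟨k + l, Fin.append c d, Fin.append v w, fun ω => ?_⟩
  rw [Fin.sum_univ_add]
  simp only [Fin.append_left, Fin.append_right]
  rw [hv, hw]

omit [MeasurableSpace Ω] [NormedAddCommGroup H] [InnerProductSpace ℝ H] in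
lemma dnAux_smul {φ : Ω → ℂ} (a : ℂ) (h1 : IsExpo X φ) : IsExpo X (fun ω => a * φ ω) := by
  obtain ⟨k, c, v, hv⟩ := h1
  refine ⟨k, fun i => a * c i, v, fun ω => ?_⟩
  simp only
  rw [hv, Finset.mul_sum]
  exact Finset.sum_congr rfl fun i _ => by ring

omit [MeasurableSpace Ω] [NormedAddCommGroup H] [InnerProductSpace ℝ H] in
lemma dnAux_ex (h : H) : IsExpo X (fun ω => ex (X h ω)) :=
  ⟨1, fun _ => 1, fun _ => h, fun ω => by simp⟩

omit [IsProbabilityMeasure P] in
/-- The laws of finite parts of the field under the positive and the negative part. -/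
lemma dnAux_map (hX : GField P X) (u : Ω → ℝ) (hu : Integrable u P)
    (h0 : ∀ h, ∫ ω, (u ω : ℂ) * ex (X h ω) ∂P = 0) (s : Finset H) :
    Measure.map (fun ω (i : s) => X (i : H) ω) (P.withDensity fun ω => ENNReal.ofReal (u ω)) =
      Measure.map (fun ω (i : s) => X (i : H) ω)
        (P.withDensity fun ω => ENNReal.ofReal (-u ω)) := by
  classical
  have hf1 : IsFiniteMeasure (P.withDensity fun ω => ENNReal.ofReal (u ω)) :=
    isFiniteMeasure_withDensity_ofReal hu.2
  have hf2 : IsFiniteMeasure (P.withDensity fun ω => ENNReal.ofReal (-u ω)) :=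
    isFiniteMeasure_withDensity_ofReal hu.neg.2
  have hF : Measurable fun ω (i : s) => X (i : H) ω :=
    measurable_pi_iff.2 fun i => hX.meas _
  refine Measure.ext_of_charFunDual (funext fun L => ?_)
  rw [charFunDual_apply, charFunDual_apply]
  have hcont : Continuous fun v : s → ℝ => Complex.exp ((L v : ℂ) * Complex.I) := by
    fun_prop
  rw [integral_map hF.aemeasurable hcont.aestronglyMeasurable,
    integral_map hF.aemeasurable hcont.aestronglyMeasurable,
    integral_withDensity_eq_integral_toReal_smul₀ hu.1.aemeasurable.ennreal_ofReal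
      (Filter.Eventually.of_forall fun _ => ENNReal.ofReal_lt_top),
    integral_withDensity_eq_integral_toReal_smul₀ (f := fun ω => ENNReal.ofReal (-u ω))
      hu.neg.1.aemeasurable.ennreal_ofReal
      (Filter.Eventually.of_forall fun _ => ENNReal.ofReal_lt_top)]
  set E : Ω → ℂ := fun ω => Complex.exp ((L (fun i : s => X (i : H) ω) : ℂ) * Complex.I) with hE
  have hEm : Measurable E := hcont.measurable.comp hF
  have hEn : ∀ ω, ‖E ω‖ = 1 := fun ω => Complex.norm_exp_ofReal_mul_I _
  have hint : ∀ w : Ω → ℝ, Integrable w P →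
      Integrable (fun ω => (ENNReal.ofReal (w ω)).toReal • E ω) P := by
    intro w hw
    refine Integrable.mono' hw.pos_part ?_ (Filter.Eventually.of_forall fun ω => ?_)
    · have h1 : AEStronglyMeasurable (fun ω => (ENNReal.ofReal (w ω)).toReal) P := by
        simp only [ENNReal.toReal_ofReal']
        exact hw.pos_part.1
      exact h1.smul hEm.aestronglyMeasurable
    · rw [norm_smul, hEn, mul_one, ENNReal.toReal_ofReal', Real.norm_eq_abs,
        abs_of_nonneg (le_max_right _ _)]
  rw [← sub_eq_zero, ← integral_sub (hint u hu) (hint (fun ω => -u ω) hu.neg)]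
  -- the exponential of the linear form
  set cf : s → ℝ := fun i => L (fun j => if i = j then 1 else 0) with hcf
  have hlin : ∀ᵐ ω ∂P, E ω = ex (X (∑ i : s, cf i • (i : H)) ω) := by
    filter_upwards [hX.lin Finset.univ cf (fun i : s => (i : H))] with ω hω
    rw [hω, hE, ex]
    simp only
    have h1 : L (fun i : s => X (i : H) ω) = ∑ i : s, X (i : H) ω * cf i := by
      have := LinearMap.pi_apply_eq_sum_univ (L : (s → ℝ) →ₗ[ℝ] ℝ) (fun i : s => X (i : H) ω)
      simpa [hcf] using this
    rw [h1, mul_comm]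
    congr 2
    exact congrArg _ (Finset.sum_congr rfl fun i _ => mul_comm _ _)
  rw [← h0 (∑ i : s, cf i • (i : H))]
  apply integral_congr_ae
  filter_upwards [hlin] with ω hω
  rw [hω]
  simp only [ENNReal.toReal_ofReal', Complex.real_smul]
  rw [← sub_mul]
  congr 1
  rw [← Complex.ofReal_sub]
  congr 1
  rcases le_total (u ω) 0 with h | h
  · rw [max_eq_right h, max_eq_left (by linarith)]
    ring
  · rw [max_eq_left h, max_eq_right (by linarith)]
    ring

omit [IsProbabilityMeasure P] in
lemma dnAux_main (hX : GField P X)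
    (hgen : ∀ A, MeasurableSet A → ∃ B,
      MeasurableSet[⨆ h, MeasurableSpace.comap (X h) inferInstance] B ∧ A =ᵐ[P] B)
    (u : Ω → ℝ) (hu : Integrable u P)
    (h0 : ∀ h, ∫ ω, (u ω : ℂ) * ex (X h ω) ∂P = 0) : ∀ᵐ ω ∂P, u ω = 0 := by
  classical
  have hf1 : IsFiniteMeasure (P.withDensity fun ω => ENNReal.ofReal (u ω)) :=
    isFiniteMeasure_withDensity_ofReal hu.2
  have hf2 : IsFiniteMeasure (P.withDensity fun ω => ENNReal.ofReal (-u ω)) :=
    isFiniteMeasure_withDensity_ofReal hu.neg.2
  have hle : (⨆ h, MeasurableSpace.comap (X h) inferInstance : MeasurableSpace Ω) ≤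
      (inferInstance : MeasurableSpace Ω) := iSup_le fun h => (hX.meas h).comap_le
  have hset : ∀ (s : Finset H) (A : Set (s → ℝ)), MeasurableSet A →
      (P.withDensity fun ω => ENNReal.ofReal (u ω)) ((fun ω (i : s) => X (i : H) ω) ⁻¹' A) =
      (P.withDensity fun ω => ENNReal.ofReal (-u ω)) ((fun ω (i : s) => X (i : H) ω) ⁻¹' A) := by
    intro s A hA
    have hF : Measurable fun ω (i : s) => X (i : H) ω :=
      measurable_pi_iff.2 fun i => hX.meas _
    have h1 := dnAux_map hX u hu h0 s
    rw [← Measure.map_apply hF hA, ← Measure.map_apply hF hA, h1]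
  have hB : ∀ B, MeasurableSet[⨆ h, MeasurableSpace.comap (X h) inferInstance] B →
      (P.withDensity fun ω => ENNReal.ofReal (u ω)) B =
      (P.withDensity fun ω => ENNReal.ofReal (-u ω)) B := by
    have htr : (P.withDensity fun ω => ENNReal.ofReal (u ω)).trim hle =
        (P.withDensity fun ω => ENNReal.ofReal (-u ω)).trim hle := by
      have hft : IsFiniteMeasure ((P.withDensity fun ω => ENNReal.ofReal (u ω)).trim hle) :=
        isFiniteMeasure_trim hle
      refine @ext_of_generate_finite Ω (⨆ h, MeasurableSpace.comap (X h) inferInstance) _ _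
        (piiUnionInter (fun h => {s | MeasurableSet[MeasurableSpace.comap (X h) inferInstance] s})
          Set.univ) ?_ ?_ hft ?_ ?_
      · rw [generateFrom_piiUnionInter_measurableSet
          (fun h => MeasurableSpace.comap (X h) inferInstance) Set.univ]
        simp
      · exact isPiSystem_piiUnionInter _ (fun h => @MeasurableSpace.isPiSystem_measurableSet Ω
          (MeasurableSpace.comap (X h) inferInstance)) _
      · intro B hBm
        have hBm' : MeasurableSet[⨆ h, MeasurableSpace.comap (X h) inferInstance] B := by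
          have h1 := generateFrom_piiUnionInter_measurableSet
            (fun h => MeasurableSpace.comap (X h) inferInstance) Set.univ
          have h2 : (⨆ h, MeasurableSpace.comap (X h) inferInstance : MeasurableSpace Ω) =
              MeasurableSpace.generateFrom (piiUnionInter (fun h =>
                {s | MeasurableSet[MeasurableSpace.comap (X h) inferInstance] s}) Set.univ) := by
            rw [h1]
            simp
          rw [h2]
          exact MeasurableSpace.measurableSet_generateFrom hBm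
        rw [trim_measurableSet_eq hle hBm', trim_measurableSet_eq hle hBm']
        obtain ⟨t, -, f, hf, rfl⟩ := hBm
        have hch : ∀ h : H, ∃ A : Set ℝ, MeasurableSet A ∧ (h ∈ t → X h ⁻¹' A = f h) := by
          intro h
          by_cases hh : h ∈ t
          · obtain ⟨A, hA1, hA2⟩ := hf h hh
            exact ⟨A, hA1, fun _ => hA2⟩
          · exact ⟨∅, MeasurableSet.empty, fun h' => absurd h' hh⟩
        choose A hA1 hA2 using hch
        have h3 : (⋂ x ∈ t, f x) =
            (fun ω (i : t) => X (i : H) ω) ⁻¹' (Set.pi Set.univ fun i : t => A i) := by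
          ext ω
          simp only [Set.mem_iInter, Set.mem_preimage, Set.mem_pi, Set.mem_univ, true_implies,
            Subtype.forall]
          refine forall_congr' fun h => forall_congr' fun hh => ?_
          rw [← hA2 h hh]
          rfl
        rw [h3]
        exact hset t _ (MeasurableSet.univ_pi fun i => hA1 _)
      · rw [trim_measurableSet_eq hle MeasurableSet.univ, trim_measurableSet_eq hle
          MeasurableSet.univ]
        exact hset ∅ Set.univ MeasurableSet.univ
    intro B hBm
    rw [← trim_measurableSet_eq hle hBm, ← trim_measurableSet_eq hle hBm, htr]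
  have hall : (P.withDensity fun ω => ENNReal.ofReal (u ω)) =
      (P.withDensity fun ω => ENNReal.ofReal (-u ω)) := by
    refine Measure.ext fun A hA => ?_
    obtain ⟨B, hB1, hB2⟩ := hgen A hA
    rw [measure_congr ((withDensity_absolutelyContinuous P _).ae_eq hB2),
      measure_congr ((withDensity_absolutelyContinuous P _).ae_eq hB2)]
    exact hB B hB1
  have heq := (withDensity_eq_iff hu.1.aemeasurable.ennreal_ofReal
    hu.neg.1.aemeasurable.ennreal_ofReal hu.lintegral_lt_top.ne).1 hall
  filter_upwards [heq] with ω hω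
  have h1 := congrArg ENNReal.toReal hω
  simp only [ENNReal.toReal_ofReal', Pi.neg_apply] at h1
  rcases le_total (u ω) 0 with h | h
  · rw [max_eq_right h, max_eq_left (by linarith)] at h1
    linarith
  · rw [max_eq_left h, max_eq_right (by linarith)] at h1
    linarith

/-- The class of an exponential. -/
noncomputable def dnE (hX : GField P X) (h : H) : Lp ℂ 2 P :=
  MemLp.toLp (fun ω => ex (X h ω))
    (MemLp.of_bound (measurable_ex.comp (hX.meas h)).aestronglyMeasurable 1
      (Filter.Eventually.of_forall fun ω => (norm_ex _).le))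

lemma dnE_coe (hX : GField P X) (h : H) : ∀ᵐ ω ∂P, dnE hX h ω = ex (X h ω) :=
  MemLp.coeFn_toLp _

lemma dnAux_orth (hX : GField P X)
    (hgen : ∀ A, MeasurableSet A → ∃ B,
      MeasurableSet[⨆ h, MeasurableSpace.comap (X h) inferInstance] B ∧ A =ᵐ[P] B)
    (g : Lp ℂ 2 P) (hg : ∀ h, inner ℂ (dnE hX h) g = 0) : g = 0 := by
  have hgi : Integrable (fun ω => g ω) P :=
    (Lp.memLp g).integrable (by norm_num)
  have h1 : ∀ h, ∫ ω, g ω * ex (X h ω) ∂P = 0 := by
    intro h
    rw [← hg (-h), L2.inner_def]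
    apply integral_congr_ae
    filter_upwards [dnE_coe hX (-h), hX.smul (-1) h] with ω hω h2
    rw [hω]
    have h3 : X (-h) ω = -X h ω := by
      rw [← neg_one_smul ℝ h, h2]
      ring
    rw [h3]
    simp only [RCLike.inner_apply]
    congr 1
    unfold ex
    rw [← Complex.exp_conj]
    congr 1
    rw [map_mul, Complex.conj_I, Complex.conj_ofReal]
    push_cast
    ring
  have h2 : ∀ h, ∫ ω, (starRingEnd ℂ) (g ω) * ex (X h ω) ∂P = 0 := by
    intro h
    have h3 := congrArg (starRingEnd ℂ) (h1 (-h))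
    rw [← integral_conj, map_zero] at h3
    rw [← h3]
    apply integral_congr_ae
    filter_upwards [hX.smul (-1) h] with ω h2
    have h4 : X (-h) ω = -X h ω := by
      rw [← neg_one_smul ℝ h, h2]
      ring
    rw [map_mul, h4]
    congr 1
    unfold ex
    rw [← Complex.exp_conj]
    congr 1
    rw [map_mul, Complex.conj_I, Complex.conj_ofReal]
    push_cast
    ring
  have hex : ∀ h, Measurable fun ω => ex (X h ω) := fun h => measurable_ex.comp (hX.meas h)
  have hi1 : ∀ h, Integrable (fun ω => g ω * ex (X h ω)) P := by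
    intro h
    refine Integrable.mono' hgi.norm (hgi.1.mul (hex h).aestronglyMeasurable)
      (Filter.Eventually.of_forall fun ω => ?_)
    rw [norm_mul, norm_ex, mul_one]
  have hgc : Integrable (fun ω => (starRingEnd ℂ) (g ω)) P := by
    refine Integrable.mono' hgi.norm
      (Complex.continuous_conj.comp_aestronglyMeasurable hgi.1)
      (Filter.Eventually.of_forall fun ω => ?_)
    rw [RCLike.norm_conj]
  have hi2 : ∀ h, Integrable (fun ω => (starRingEnd ℂ) (g ω) * ex (X h ω)) P := by
    intro h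
    refine Integrable.mono' hgi.norm (hgc.1.mul (hex h).aestronglyMeasurable)
      (Filter.Eventually.of_forall fun ω => ?_)
    rw [norm_mul, norm_ex, mul_one, RCLike.norm_conj]
  have hre : ∀ᵐ ω ∂P, (g ω).re = 0 := by
    refine dnAux_main hX hgen (fun ω => (g ω).re) hgi.re fun h => ?_
    have h3 : ∫ ω, ((g ω * ex (X h ω)) + (starRingEnd ℂ) (g ω) * ex (X h ω)) ∂P = 0 := by
      rw [integral_add (hi1 h) (hi2 h), h1, h2, add_zero]
    have h4 : ∀ ω, ((g ω).re : ℂ) * ex (X h ω) =
        (1 / 2 : ℂ) * ((g ω * ex (X h ω)) + (starRingEnd ℂ) (g ω) * ex (X h ω)) := by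
      intro ω
      rw [← add_mul, Complex.add_conj]
      push_cast
      ring
    simp only [h4]
    rw [integral_const_mul, h3, mul_zero]
  have him : ∀ᵐ ω ∂P, (g ω).im = 0 := by
    refine dnAux_main hX hgen (fun ω => (g ω).im) hgi.im fun h => ?_
    have h3 : ∫ ω, ((g ω * ex (X h ω)) - (starRingEnd ℂ) (g ω) * ex (X h ω)) ∂P = 0 := by
      rw [integral_sub (hi1 h) (hi2 h), h1, h2, sub_zero]
    have h4 : ∀ ω, ((g ω).im : ℂ) * ex (X h ω) =
        (1 / (2 * Complex.I) : ℂ) *
          ((g ω * ex (X h ω)) - (starRingEnd ℂ) (g ω) * ex (X h ω)) := by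
      intro ω
      rw [← sub_mul, Complex.sub_conj]
      push_cast
      field_simp
    simp only [h4]
    rw [integral_const_mul, h3, mul_zero]
  rw [Lp.eq_zero_iff_ae_eq_zero]
  filter_upwards [hre, him] with ω a b
  exact Complex.ext a b

theorem expo_dense (hX : GField P X)
    (hgen : ∀ A, MeasurableSet A → ∃ B,
      MeasurableSet[⨆ h, MeasurableSpace.comap (X h) inferInstance] B ∧ A =ᵐ[P] B)
    (f : Ω → ℂ) (hf : MemLp f ∞ P) (ep : ℝ) (hep : 0 < ep) :
    ∃ φ, IsExpo X φ ∧ ∫ ω, ‖f ω - φ ω‖ ^ 2 ∂P ≤ ep := by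
  have hf2 : MemLp f 2 P := hf.mono_exponent le_top
  have hcl : (Submodule.span ℂ (Set.range (dnE hX))).topologicalClosure = ⊤ := by
    rw [Submodule.topologicalClosure_eq_top_iff, Submodule.eq_bot_iff]
    intro g hg
    refine dnAux_orth hX hgen g fun h => ?_
    exact (Submodule.mem_orthogonal _ g).1 hg _ (Submodule.subset_span ⟨h, rfl⟩)
  have hmem : hf2.toLp f ∈ closure ((Submodule.span ℂ (Set.range (dnE hX)) :
      Submodule ℂ (Lp ℂ 2 P)) : Set (Lp ℂ 2 P)) := by
    rw [← Submodule.topologicalClosure_coe, hcl]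
    trivial
  obtain ⟨x, hx, hdist⟩ := Metric.mem_closure_iff.1 hmem (Real.sqrt ep) (Real.sqrt_pos.2 hep)
  have hrep : ∀ y ∈ Submodule.span ℂ (Set.range (dnE hX)), ∃ φ, IsExpo X φ ∧ y =ᵐ[P] φ := by
    intro y hy
    induction hy using Submodule.span_induction with
    | mem y hy =>
      obtain ⟨h, rfl⟩ := hy
      exact ⟨_, dnAux_ex h, dnE_coe hX h⟩
    | zero => exact ⟨_, dnAux_zero, Lp.coeFn_zero ℂ 2 P⟩
    | add y z _ _ ihy ihz =>
      obtain ⟨φ, h1, h2⟩ := ihy
      obtain ⟨ψ, h3, h4⟩ := ihz
      refine ⟨_, dnAux_add h1 h3, ?_⟩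
      filter_upwards [Lp.coeFn_add y z, h2, h4] with ω h5 h6 h7
      rw [h5, Pi.add_apply, h6, h7]
    | smul a y _ ihy =>
      obtain ⟨φ, h1, h2⟩ := ihy
      refine ⟨_, dnAux_smul a h1, ?_⟩
      filter_upwards [Lp.coeFn_smul a y, h2] with ω h5 h6
      rw [h5, Pi.smul_apply, h6, smul_eq_mul]
  obtain ⟨φ, h1, h2⟩ := hrep x hx
  refine ⟨φ, h1, ?_⟩
  have h3 : ((‖hf2.toLp f - x‖ ^ 2 : ℝ) : ℂ) = ((∫ ω, ‖f ω - φ ω‖ ^ 2 ∂P : ℝ) : ℂ) := by
    have h4 := inner_self_eq_norm_sq_to_K (𝕜 := ℂ) (hf2.toLp f - x)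
    push_cast
    rw [← integral_complex_ofReal]
    refine (h4.symm.trans ?_)
    rw [L2.inner_def]
    apply integral_congr_ae
    filter_upwards [Lp.coeFn_sub (hf2.toLp f) x, h2, hf2.coeFn_toLp] with ω h5 h6 h7
    rw [inner_self_eq_norm_sq_to_K, h5, Pi.sub_apply, h6, h7]
    push_cast
    rfl
  have h5 : ‖hf2.toLp f - x‖ ^ 2 = ∫ ω, ‖f ω - φ ω‖ ^ 2 ∂P := by exact_mod_cast h3
  rw [← h5]
  rw [dist_eq_norm] at hdist
  calc ‖hf2.toLp f - x‖ ^ 2 ≤ Real.sqrt ep ^ 2 :=
        pow_le_pow_left₀ (norm_nonneg _) hdist.le 2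
    _ = ep := Real.sq_sqrt hep.le

end Pool.Gauss4d
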