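import Pool.Agent.Gauss4d.Field

set_option autoImplicit false

/-!
# Gauss4d: the compensating factors

`Z_n(z) = ex (∑_{p : p.1 < p.2} X (w p n) (z p))`, `E(z) = ex (∑_{p : p.1 < p.2} X (h p.2) (z p))` on
`Fin m × Fin m → Ω`.

PROOF of `pair_int`.  `X (w p n) (z p) + X (h p.2) (z p) = X (w p n + h p.2) (z p)` for a.e. `z`
(`measurePreserving_eval`), for the other pairs `p` use the vector `0` (`X 0 = 0` a.e.), so by
`GField.int_ex_pi` the integral is `exp (-∑_{p : p.1 < p.2} ‖w p n + h p.2‖² / 2)`, and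
`‖w p n + h p.2‖² = ‖h p.1‖² + ‖h p.2‖² + 2 ⟪v p.1 n, v p.2 n⟫`,
`2 ∑_{i < j} ⟪v_i, v_j⟫ = ‖∑_j v_j‖² - ∑_j ‖h j‖²`.  So `κ = exp (-(∑_{i < j} (‖h i‖² + ‖h j‖²) - ∑_j ‖h j‖²) / 2)`.
-/

open MeasureTheory Filter Topology Finset
open scoped InnerProductSpace

namespace Pool.Gauss4d

/-- the square of the norm of a sum -/
lemma norm_sum_sq_pairs {H : Type*} [NormedAddCommGroup H] [InnerProductSpace ℝ H] (m : ℕ)
    (v : Fin m → H) : ‖∑ j, v j‖ ^ 2 = ∑ j, ‖v j‖ ^ 2 +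
      2 * ∑ p ∈ univ.filter (fun p : Fin m × Fin m => p.1 < p.2), ⟪v p.1, v p.2⟫_ℝ := by
  have h1 : ‖∑ j, v j‖ ^ 2 = ∑ p : Fin m × Fin m, ⟪v p.1, v p.2⟫_ℝ := by
    rw [← real_inner_self_eq_norm_sq, sum_inner, Fintype.sum_prod_type]
    exact Finset.sum_congr rfl fun i _ => inner_sum _ _ _
  have h2 : ∑ p ∈ univ.filter (fun p : Fin m × Fin m => p.2 < p.1), ⟪v p.1, v p.2⟫_ℝ =
      ∑ p ∈ univ.filter (fun p : Fin m × Fin m => p.1 < p.2), ⟪v p.1, v p.2⟫_ℝ := by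
    apply Finset.sum_nbij' (fun p => p.swap) (fun p => p.swap)
    · intro p hp
      simpa using hp
    · intro p hp
      simpa using hp
    · intro p _
      exact Prod.swap_swap p
    · intro p _
      exact Prod.swap_swap p
    · intro p _
      exact real_inner_comm _ _
  have h3 : ∑ p ∈ univ.filter (fun p : Fin m × Fin m => p.1 = p.2), ⟪v p.1, v p.2⟫_ℝ =
      ∑ j, ‖v j‖ ^ 2 := by
    apply Finset.sum_nbij' (fun p => p.1) (fun j => (j, j))
    · intro p _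
      exact Finset.mem_univ _
    · intro j _
      simp
    · rintro ⟨i, j⟩ hp
      have : i = j := (Finset.mem_filter.1 hp).2
      subst this
      rfl
    · intro j _
      rfl
    · rintro ⟨i, j⟩ hp
      have : i = j := (Finset.mem_filter.1 hp).2
      subst this
      exact real_inner_self_eq_norm_sq _
  have h4 : ∀ p : Fin m × Fin m, ⟪v p.1, v p.2⟫_ℝ =
      (if p.1 < p.2 then ⟪v p.1, v p.2⟫_ℝ else 0) + (if p.1 = p.2 then ⟪v p.1, v p.2⟫_ℝ else 0) +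
        (if p.2 < p.1 then ⟪v p.1, v p.2⟫_ℝ else 0) := by
    intro p
    rcases lt_trichotomy p.1 p.2 with h | h | h
    · rw [if_pos h, if_neg h.ne, if_neg (not_lt.2 h.le)]
      ring
    · rw [if_neg (not_lt.2 h.ge), if_pos h, if_neg (not_lt.2 h.le)]
      ring
    · rw [if_neg (not_lt.2 h.le), if_neg h.ne', if_pos h]
      ring
  rw [h1, Finset.sum_congr rfl (fun p _ => h4 p), Finset.sum_add_distrib, Finset.sum_add_distrib,
    ← Finset.sum_filter, ← Finset.sum_filter, ← Finset.sum_filter, h2, h3]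
  ring

variable {Ω : Type*} [MeasurableSpace Ω] {P : Measure Ω} [IsProbabilityMeasure P] {H : Type*}
  [NormedAddCommGroup H] [InnerProductSpace ℝ H] {X : H → Ω → ℝ}

theorem pair_int (hX : GField P X) (m : ℕ) (h : Fin m → H) (v : Fin m → ℕ → H)
    (hv : ∀ j n, ‖v j n‖ = ‖h j‖) (w : Fin m × Fin m → ℕ → H)
    (hw : ∀ p n, ‖w p n‖ = ‖h p.1‖)
    (hin : ∀ (i j : Fin m) n, ⟪w (i, j) n, h j⟫_ℝ = ⟪v i n, v j n⟫_ℝ) :
    ∃ κ : ℂ, κ ≠ 0 ∧ ∀ n, ∫ z : Fin m × Fin m → Ω,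
      ex (∑ p ∈ univ.filter (fun p : Fin m × Fin m => p.1 < p.2), X (w p n) (z p)) *
        ex (∑ p ∈ univ.filter (fun p : Fin m × Fin m => p.1 < p.2), X (h p.2) (z p))
        ∂(Measure.pi fun _ => P) = κ * Complex.exp (-((‖∑ j, v j n‖ ^ 2 / 2 : ℝ) : ℂ)) := by
  refine ⟨Complex.exp (-(((∑ p ∈ univ.filter (fun p : Fin m × Fin m => p.1 < p.2),
    (‖h p.1‖ ^ 2 + ‖h p.2‖ ^ 2) / 2) - ∑ j, ‖h j‖ ^ 2 / 2 : ℝ) : ℂ)), Complex.exp_ne_zero _,
    fun n => ?_⟩
  let u : Fin m × Fin m → H := fun p => if p.1 < p.2 then w p n + h p.2 else 0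
  have hae : ∀ᵐ z : Fin m × Fin m → Ω ∂(Measure.pi fun _ => P), ∀ p,
      X (u p) (z p) = if p.1 < p.2 then X (w p n) (z p) + X (h p.2) (z p) else 0 := by
    rw [eventually_all]
    intro p
    have h1 : ∀ᵐ ω ∂P, X (u p) ω = if p.1 < p.2 then X (w p n) ω + X (h p.2) ω else 0 := by
      by_cases hp : p.1 < p.2
      · simp only [u, if_pos hp]
        exact hX.add _ _
      · simp only [u, if_neg hp]
        exact hX.zero
    exact (measurePreserving_eval (fun _ : Fin m × Fin m => P) p).quasiMeasurePreserving.ae h1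
  have hint : ∫ z : Fin m × Fin m → Ω,
      ex (∑ p ∈ univ.filter (fun p : Fin m × Fin m => p.1 < p.2), X (w p n) (z p)) *
        ex (∑ p ∈ univ.filter (fun p : Fin m × Fin m => p.1 < p.2), X (h p.2) (z p))
        ∂(Measure.pi fun _ => P) =
      ∫ z : Fin m × Fin m → Ω, ex (∑ p, X (u p) (z p)) ∂(Measure.pi fun _ => P) := by
    apply integral_congr_ae
    filter_upwards [hae] with z hz
    rw [← ex_add, ← Finset.sum_add_distrib]
    congr 1
    rw [Finset.sum_filter]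
    exact Finset.sum_congr rfl fun p _ => (hz p).symm
  rw [hint, hX.int_ex_pi u, ← Complex.exp_add]
  congr 1
  rw [← Complex.ofReal_neg, ← Complex.ofReal_neg, ← Complex.ofReal_neg, ← Complex.ofReal_add]
  congr 1
  have h2 : ∑ p, ‖u p‖ ^ 2 / 2 = ∑ p ∈ univ.filter (fun p : Fin m × Fin m => p.1 < p.2),
      ((‖h p.1‖ ^ 2 + ‖h p.2‖ ^ 2) / 2 + ⟪v p.1 n, v p.2 n⟫_ℝ) := by
    rw [Finset.sum_filter]
    refine Finset.sum_congr rfl fun p _ => ?_
    by_cases hp : p.1 < p.2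
    · simp only [u, if_pos hp]
      rw [norm_add_sq_real, hw p n, hin p.1 p.2 n]
      ring
    · simp only [u, if_neg hp]
      simp
  have h3 := norm_sum_sq_pairs m (fun j => v j n)
  have h4 : ∑ j, ‖v j n‖ ^ 2 = ∑ j, ‖h j‖ ^ 2 := Finset.sum_congr rfl fun j _ => by rw [hv j n]
  rw [h4] at h3
  have h5 : ∑ j, ‖h j‖ ^ 2 / 2 = (∑ j, ‖h j‖ ^ 2) / 2 := (Finset.sum_div _ _ _).symm
  rw [h2, Finset.sum_add_distrib, h3, h5]
  ring

end Pool.Gauss4d
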