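import Pool.Agent.PolyConv.Assemble
import Pool.Agent.PolyMax.Maximal

set_option autoImplicit false

/-!
# Gauss4d: single function averages on product spaces

PROOF of `prod_conv`.  Let `D` bound the degrees of all `R c i`.  On `Y = ι → Ω` with
`Measure.pi fun _ => P` put `U_l = Equiv.piCongrRight fun c => cperm T (R c) (l + 1)`, `l : Fin D`
(coordinatewise action), `V = Equiv.piCongrRight fun c => cperm T (R c) 0`.  The `U_l` commute
(`cperm_commute`), they and `V` preserve the product measure (`cperm_mem`, `measurePreserving_pi`), and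
`act U (fun l => n ^ (l + 1))` acts on the coordinate `c` as
`act (fun l => cperm T (R c) (l + 1)) (fun l => n ^ (l + 1)) = mon (..) n` (the two definitions have the
same right side), so by `gel_eq`
`(fun c => gel T (R c) n (x c)) = V (act U (fun l => n ^ (l + 1)) x)`.
`conv_all` for `f ∘ V`.

PROOF of `prod_conv_split`.  `ι = Fin m ⊕ (Fin m × Fin m)` and the measure preserving equivalence
`measurePreserving_sumPiEquivProdPi` (or its inverse) between `(ι → Ω)` and
`(Fin m → Ω) × (Fin m × Fin m → Ω)`.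
-/

open MeasureTheory Filter Topology Finset

namespace Pool.Gauss4d

open Pool.PolyMax Pool.PolyConv

universe u

/-- Coordinatewise permutations. -/
def psHom (Ω : Type u) (ι : Type) : (ι → Equiv.Perm Ω) →* Equiv.Perm (ι → Ω) where
  toFun w := Equiv.piCongrRight w
  map_one' := rfl
  map_mul' _ _ := rfl

theorem psHom_apply {Ω : Type u} {ι : Type} (w : ι → Equiv.Perm Ω) (x : ι → Ω) (c : ι) :
    psHom Ω ι w x c = w c (x c) := rfl

theorem ps_act {Ω : Type u} {ι : Type} {D : ℕ} (W : Fin D → ι → Equiv.Perm Ω) (v : Fin D → ℕ)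
    (x : ι → Ω) (c : ι) :
    act (fun l => psHom Ω ι (W l)) v x c = act (fun l => W l c) v (x c) := by
  have h1 : act (fun l => psHom Ω ι (W l)) v =
      psHom Ω ι ((List.ofFn fun j : Fin D => W j ^ v j).prod) := by
    unfold act
    rw [map_list_prod, List.map_ofFn]
    congr 2
    funext j
    rw [Function.comp_apply, map_pow]
  have h2 : ((List.ofFn fun j : Fin D => W j ^ v j).prod) c = act (fun l => W l c) v := by
    unfold act
    have h3 := map_list_prod (Pi.evalMonoidHom (fun _ : ι => Equiv.Perm Ω) c)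
      (List.ofFn fun j : Fin D => W j ^ v j)
    rw [List.map_ofFn] at h3
    exact h3
  rw [h1, psHom_apply, h2]

theorem prod_conv {Ω : Type u} [MeasurableSpace Ω] (P : Measure Ω) [IsProbabilityMeasure P]
    {ι : Type} [Fintype ι] (d : ℕ) (T : Fin d → Equiv.Perm Ω)
    (hT : ∀ i, MeasurePreserving (T i) P P) (hT' : ∀ i, MeasurePreserving (T i).symm P P)
    (hc : ∀ i j, Commute (T i) (T j)) (R : ι → Fin d → Polynomial ℤ) (f : (ι → Ω) → ℂ)
    (hf : Measurable f) (B : ℝ) (hB : ∀ x, ‖f x‖ ≤ B) :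
    ∀ᵐ x ∂(Measure.pi fun _ : ι => P), ∃ L, Tendsto (Pool.Lib.Erg.avg fun n =>
      f (fun c => gel T (R c) (n : ℤ) (x c))) atTop (𝓝 L) := by
  obtain ⟨D, hD⟩ : ∃ D : ℕ, ∀ c i, (R c i).natDegree ≤ D := by
    refine ⟨∑ c, ∑ i, (R c i).natDegree, fun c i => ?_⟩
    refine le_trans (Finset.single_le_sum (f := fun i => (R c i).natDegree)
      (fun _ _ => Nat.zero_le _) (Finset.mem_univ i)) ?_
    exact Finset.single_le_sum (f := fun c => ∑ i, (R c i).natDegree)
      (fun _ _ => Nat.zero_le _) (Finset.mem_univ c)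
  have hmem : ∀ i, T i ∈ mpS P := fun i => ⟨hT i, hT' i⟩
  obtain ⟨U, hUdef⟩ : ∃ U : Fin D → Equiv.Perm (ι → Ω), U = fun l : Fin D =>
      psHom Ω ι (fun c => cperm T (R c) ((l : ℕ) + 1)) := ⟨_, rfl⟩
  obtain ⟨V, hVdef⟩ : ∃ V : Equiv.Perm (ι → Ω), V = psHom Ω ι (fun c => cperm T (R c) 0) :=
    ⟨_, rfl⟩
  have hU : ∀ i j, Commute (U i) (U j) := by
    intro i j
    rw [hUdef]
    have h1 : Commute (fun c => cperm T (R c) ((i : ℕ) + 1))
        (fun c => cperm T (R c) ((j : ℕ) + 1)) := by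
      rw [Pi.commute_iff]
      intro c
      exact cperm_commute T hc (R c) _ _
    exact h1.map (psHom Ω ι)
  have hmp : ∀ l, MeasurePreserving (U l) (Measure.pi fun _ : ι => P)
      (Measure.pi fun _ : ι => P) := by
    intro l
    rw [hUdef]
    exact measurePreserving_pi (fun _ : ι => P) (fun _ : ι => P)
      (fun c => (cperm_mem P T hmem (R c) ((l : ℕ) + 1)).1)
  have hmpV : MeasurePreserving V (Measure.pi fun _ : ι => P) (Measure.pi fun _ : ι => P) := by
    rw [hVdef]
    exact measurePreserving_pi (fun _ : ι => P) (fun _ : ι => P)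
      (fun c => (cperm_mem P T hmem (R c) 0).1)
  have key : ∀ (n : ℕ) (x : ι → Ω), (fun c => gel T (R c) (n : ℤ) (x c)) =
      V (act U (fun l : Fin D => n ^ ((l : ℕ) + 1)) x) := by
    intro n x
    funext c
    rw [gel_eq T hc (R c) D (hD c) n, hVdef, psHom_apply, hUdef, ps_act]
    rfl
  have h := conv_all (Measure.pi fun _ : ι => P) U hU hmp (fun x => f (V x))
    (hf.comp hmpV.measurable) B (fun x => hB _)
  filter_upwards [h] with x hx
  obtain ⟨L, hL⟩ := hx
  refine ⟨L, ?_⟩
  simp only [key]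
  exact hL

theorem prod_conv_split {Ω : Type u} [MeasurableSpace Ω] (P : Measure Ω) [IsProbabilityMeasure P]
    (m d : ℕ) (T : Fin d → Equiv.Perm Ω)
    (hT : ∀ i, MeasurePreserving (T i) P P) (hT' : ∀ i, MeasurePreserving (T i).symm P P)
    (hc : ∀ i j, Commute (T i) (T j)) (R : Fin m → Fin d → Polynomial ℤ)
    (R' : Fin m × Fin m → Fin d → Polynomial ℤ)
    (f : (Fin m → Ω) × (Fin m × Fin m → Ω) → ℂ)
    (hf : Measurable f) (B : ℝ) (hB : ∀ x, ‖f x‖ ≤ B) :
    ∀ᵐ x ∂((Measure.pi fun _ : Fin m => P).prod (Measure.pi fun _ : Fin m × Fin m => P)), ∃ L,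
      Tendsto (Pool.Lib.Erg.avg fun n => f (fun c => gel T (R c) (n : ℤ) (x.1 c),
        fun c => gel T (R' c) (n : ℤ) (x.2 c))) atTop (𝓝 L) := by
  have hf2 : Measurable (fun y : (Fin m ⊕ (Fin m × Fin m)) → Ω =>
      f (fun c => y (Sum.inl c), fun c => y (Sum.inr c))) := by
    refine hf.comp (Measurable.prodMk ?_ ?_)
    · exact measurable_pi_iff.mpr fun c => measurable_pi_apply _
    · exact measurable_pi_iff.mpr fun c => measurable_pi_apply _
  have h := prod_conv P (ι := Fin m ⊕ (Fin m × Fin m)) d T hT hT' hc (Sum.elim R R')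
    (fun y => f (fun c => y (Sum.inl c), fun c => y (Sum.inr c))) hf2 B (fun y => hB _)
  have hmp := measurePreserving_sumPiEquivProdPi_symm
    (X := fun _ : Fin m ⊕ (Fin m × Fin m) => Ω) (fun _ => P)
  have h2 := hmp.quasiMeasurePreserving.ae h
  filter_upwards [h2] with x hx
  exact hx

end Pool.Gauss4d
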