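import Pool.Agent.Gauss4d.Core
import Pool.Agent.Gauss4d.Pair
import Pool.Agent.Gauss4d.ProdSys

set_option autoImplicit false

/-!
# Gauss4d: convergence for exponentials

`Imp P X g V`: the permutation `g` is implemented on the field by the isometry `V`.

PROOFS.
* `Imp.mul`: `X h (g (g' ω)) = X (V h) (g' ω) = X (V' (V h)) ω` for a.e. `ω` (`g'` preserves `P`):
  `Imp g V`, `Imp g' V'` give `Imp (g * g') (V' * V)` (product in `H ≃ₗᵢ[ℝ] H`, `(V' * V) h = V' (V h)`).
* `Imp.inv`: `X h (g⁻¹ ω) = X (V (V⁻¹ h)) (g⁻¹ ω) = X (V⁻¹ h) (g (g⁻¹ ω)) = X (V⁻¹ h) ω`, a.e. since `g⁻¹`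
  preserves `P`.
* `exists_imp_gel`: `Imp` is closed under products and inverses, so every element of the subgroup generated
  by the `T i` is implemented (e.g. by induction over the list in `gel`, and integer powers).

PROOF of `expo_conv`.  If `m = 0` the sequence is constant (`ex (X 0) = 1`, or the empty product is `1`).
Let `m ≥ 1`.  For each `j`, `n` choose `V j n` implementing `g_j(n) = gel T (R j) n`; let
`v j n = V j n (h j)`, and for `p = (i, j)` let `k_p(n) = gel T (fun l => R i l - R j l) n = g_i(n) * g_j(n)⁻¹`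
(the `T i` commute: `gel_sub`), which is implemented by `(V j n)⁻¹ * V i n`, `w p n = (V j n)⁻¹ (V i n (h i))`.
Then `‖v j n‖ = ‖h j‖`, `‖w p n‖ = ‖h p.1‖`, `⟪w (i, j) n, h j⟫ = ⟪V i n (h i), V j n (h j)⟫`.
`prod_conv_split` for `f (x, z) = ex (√m ∑_j X (h j) (x j)) * ex (∑_{p.1 < p.2} X (h p.1) (z p))`
gives the convergence of the averages of
`ex (√m ∑_j X (h j) (g_j(n) x_j)) * ex (∑_p X (h p.1) (k_p(n) z_p))`, which for a.e. `(x, z)` (countably
many `n`; coordinates are measure preserving) is `ex (seqA X v x n) * Z_n(z)`.  So `core` with `pair_int`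
gives the convergence of the averages of `ex (X (∑_j v j n) x)`, equal to
`∏_j ex (X (v j n) x) = ∏_j ex (X (h j) (g_j(n) x))` for a.e. `x` (`GField.sum`, `ex_sum`).
-/

open MeasureTheory Filter Topology Finset
open scoped InnerProductSpace

namespace Pool.Gauss4d

open Pool.PolyMax

universe u v

variable {Ω : Type u} [MeasurableSpace Ω] {P : Measure Ω} [IsProbabilityMeasure P] {H : Type v}
  [NormedAddCommGroup H] [InnerProductSpace ℝ H] {X : H → Ω → ℝ}

/-- The permutation `g` preserves `P` and acts on the field by the isometry `V`. -/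
structure Imp (P : Measure Ω) (X : H → Ω → ℝ) (g : Equiv.Perm Ω) (V : H ≃ₗᵢ[ℝ] H) : Prop where
  mp : MeasurePreserving g P P
  mp' : MeasurePreserving g.symm P P
  imp : ∀ h, ∀ᵐ ω ∂P, X h (g ω) = X (V h) ω

theorem Imp.mul {g g' : Equiv.Perm Ω} {V V' : H ≃ₗᵢ[ℝ] H} (h : Imp P X g V)
    (h' : Imp P X g' V') : Imp P X (g * g') (V' * V) := by
  refine ⟨h.mp.comp h'.mp, h'.mp'.comp h.mp', fun k => ?_⟩
  have h1 := h'.mp.quasiMeasurePreserving.ae (h.imp k)
  filter_upwards [h1, h'.imp (V k)] with ω e1 e2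
  rw [Equiv.Perm.mul_apply, e1, e2]
  rfl

theorem Imp.inv {g : Equiv.Perm Ω} {V : H ≃ₗᵢ[ℝ] H} (h : Imp P X g V) : Imp P X g⁻¹ V⁻¹ := by
  refine ⟨h.mp', h.mp, fun k => ?_⟩
  have h1 := h.mp'.quasiMeasurePreserving.ae (h.imp (V⁻¹ k))
  filter_upwards [h1] with ω e1
  have e2 : V (V⁻¹ k) = k := V.apply_symm_apply k
  rw [e2, Equiv.apply_symm_apply] at e1
  exact e1.symm

theorem exists_imp_gel {d : ℕ} {T : Fin d → Equiv.Perm Ω}
    (hT : ∀ i, ∃ V : H ≃ₗᵢ[ℝ] H, Imp P X (T i) V) (R : Fin d → Polynomial ℤ) (n : ℤ) :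
    ∃ V : H ≃ₗᵢ[ℝ] H, Imp P X (gel T R n) V := by
  let S : Subgroup (Equiv.Perm Ω) :=
    { carrier := {g | ∃ V : H ≃ₗᵢ[ℝ] H, Imp P X g V}
      mul_mem' := by
        rintro g g' ⟨V, hV⟩ ⟨V', hV'⟩
        exact ⟨V' * V, hV.mul hV'⟩
      one_mem' := ⟨1, MeasurePreserving.id P, MeasurePreserving.id P,
        fun _ => Filter.Eventually.of_forall fun _ => rfl⟩
      inv_mem' := by
        rintro g ⟨V, hV⟩
        exact ⟨V⁻¹, hV.inv⟩ }
  have hS : gel T R n ∈ S := by
    apply Subgroup.list_prod_mem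
    intro x hx
    rw [List.mem_ofFn] at hx
    obtain ⟨i, rfl⟩ := hx
    exact Subgroup.zpow_mem _ (hT i) _
  exact hS

theorem gel_sub {Y : Type u} {d : ℕ} (T : Fin d → Equiv.Perm Y) (hc : ∀ i j, Commute (T i) (T j))
    (R R' : Fin d → Polynomial ℤ) (n : ℤ) :
    gel T (fun l => R l - R' l) n = gel T R n * (gel T R' n)⁻¹ := by
  obtain ⟨K, _, t, φ, ht⟩ := exists_commGroup T hc
  have hg : ∀ Q : Fin d → Polynomial ℤ, gel T Q n = φ (∏ i, t i ^ (Q i).eval n) := by
    intro Q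
    unfold gel
    rw [← List.prod_ofFn, map_list_prod, List.map_ofFn]
    congr 2
    ext i
    simp [ht]
  rw [hg, hg, hg, ← map_inv, ← map_mul, ← Finset.prod_inv_distrib, ← Finset.prod_mul_distrib]
  congr 1
  refine Finset.prod_congr rfl fun i _ => ?_
  rw [Polynomial.eval_sub, zpow_sub]

theorem expo_conv (hX : GField P X) {d : ℕ} (T : Fin d → Equiv.Perm Ω)
    (hT : ∀ i, ∃ V : H ≃ₗᵢ[ℝ] H, Imp P X (T i) V) (hc : ∀ i j, Commute (T i) (T j)) (m : ℕ)
    (R : Fin m → Fin d → Polynomial ℤ) (h : Fin m → H) :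
    ∀ᵐ ω ∂P, ∃ L, Tendsto (Pool.Lib.Erg.avg fun n =>
      ∏ j, ex (X (h j) (gel T (R j) (n : ℤ) ω))) atTop (𝓝 L) := by
  classical
  rcases Nat.eq_zero_or_pos m with rfl | hm
  · refine Filter.Eventually.of_forall fun ω => ⟨1, ?_⟩
    refine tendsto_const_nhds.congr' ?_
    filter_upwards [eventually_ge_atTop 1] with N hN
    have hN0 : (N : ℂ) ≠ 0 := by
      have : N ≠ 0 := by omega
      exact_mod_cast this
    simp [Pool.Lib.Erg.avg, hN0]
  have hV0 : ∀ (j : Fin m) (n : ℕ), ∃ V : H ≃ₗᵢ[ℝ] H, Imp P X (gel T (R j) (n : ℤ)) V :=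
    fun j n => exists_imp_gel hT (R j) n
  choose V hV using hV0
  set v : Fin m → ℕ → H := fun j n => V j n (h j) with hv
  set w : Fin m × Fin m → ℕ → H := fun p n => (V p.2 n)⁻¹ (V p.1 n (h p.1)) with hw
  set R' : Fin m × Fin m → Fin d → Polynomial ℤ := fun p l => R p.1 l - R p.2 l with hR'
  have hk : ∀ (p : Fin m × Fin m) (n : ℕ), ∀ᵐ ω ∂P,
      X (h p.1) (gel T (R' p) (n : ℤ) ω) = X (w p n) ω := by
    intro p n
    have h1 : gel T (R' p) (n : ℤ) = gel T (R p.1) (n : ℤ) * (gel T (R p.2) (n : ℤ))⁻¹ :=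
      gel_sub T hc (R p.1) (R p.2) n
    have h2 := ((hV p.1 n).mul (hV p.2 n).inv).imp (h p.1)
    rw [← h1] at h2
    exact h2
  have hvn : ∀ j n, ‖v j n‖ = ‖h j‖ := fun j n => (V j n).norm_map (h j)
  have hwn : ∀ p n, ‖w p n‖ = ‖h p.1‖ := fun p n => by
    rw [hw]
    simp only [LinearIsometryEquiv.norm_map]
  have hin : ∀ (i j : Fin m) n, ⟪w (i, j) n, h j⟫_ℝ = ⟪v i n, v j n⟫_ℝ := by
    intro i j n
    have h1 := (V j n).inner_map_map (w (i, j) n) (h j)
    rw [← h1]
    have h2 : V j n (w (i, j) n) = v i n := (V j n).apply_symm_apply _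
    rw [h2]
  obtain ⟨κ, hκ, hint⟩ := pair_int hX m h v hvn w hwn hin
  -- the pairs
  set F : Finset (Fin m × Fin m) := univ.filter (fun p : Fin m × Fin m => p.1 < p.2) with hF
  have hsplit := prod_conv_split P m d T (fun i => (hT i).choose_spec.mp)
    (fun i => (hT i).choose_spec.mp') hc R R'
    (fun y => ex (Real.sqrt m * ∑ j, X (h j) (y.1 j)) * ex (∑ p ∈ F, X (h p.1) (y.2 p)))
    (by
      refine Measurable.mul ?_ ?_
      · refine measurable_ex.comp (Measurable.const_mul (Finset.measurable_fun_sum _ fun j _ => ?_) _)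
        exact (hX.meas _).comp ((measurable_pi_apply j).comp measurable_fst)
      · refine measurable_ex.comp (Finset.measurable_fun_sum _ fun p _ => ?_)
        exact (hX.meas _).comp ((measurable_pi_apply p).comp measurable_snd))
    1 (fun y => by rw [norm_mul, norm_ex, norm_ex, one_mul])
  have hcore := core hX (Measure.pi fun _ : Fin m × Fin m => P) m hm v (fun j => ‖h j‖) hvn
    (fun n z => ex (∑ p ∈ F, X (w p n) (z p)))
    (fun n => measurable_ex.comp (Finset.measurable_fun_sum _ fun p _ =>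
      (hX.meas _).comp (measurable_pi_apply p)))
    (fun n z => (norm_ex _).le)
    (fun z => ex (∑ p ∈ F, X (h p.2) (z p)))
    (measurable_ex.comp (Finset.measurable_fun_sum _ fun p _ =>
      (hX.meas _).comp (measurable_pi_apply p)))
    (fun z => (norm_ex _).le) κ hκ hint
    (by
      have h1 : ∀ᵐ x ∂((Measure.pi fun _ : Fin m => P).prod
          (Measure.pi fun _ : Fin m × Fin m => P)), ∀ (n : ℕ) (j : Fin m),
          X (h j) (gel T (R j) (n : ℤ) (x.1 j)) = X (v j n) (x.1 j) := by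
        rw [ae_all_iff]
        intro n
        rw [ae_all_iff]
        intro j
        have h2 := (measurePreserving_eval (fun _ : Fin m => P) j).quasiMeasurePreserving.ae
          ((hV j n).imp (h j))
        exact Measure.quasiMeasurePreserving_fst.ae h2
      have h2 : ∀ᵐ x ∂((Measure.pi fun _ : Fin m => P).prod
          (Measure.pi fun _ : Fin m × Fin m => P)), ∀ (n : ℕ) (p : Fin m × Fin m),
          X (h p.1) (gel T (R' p) (n : ℤ) (x.2 p)) = X (w p n) (x.2 p) := by
        rw [ae_all_iff]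
        intro n
        rw [ae_all_iff]
        intro p
        have h2 := (measurePreserving_eval (fun _ : Fin m × Fin m => P)
          p).quasiMeasurePreserving.ae (hk p n)
        exact Measure.quasiMeasurePreserving_snd.ae h2
      filter_upwards [hsplit, h1, h2] with x hx e1 e2
      obtain ⟨L, hL⟩ := hx
      refine ⟨L, ?_⟩
      have e3 : (fun n : ℕ => ex (seqA X v x.1 n) * ex (∑ p ∈ F, X (w p n) (x.2 p))) =
          fun n : ℕ => ex (Real.sqrt m * ∑ j, X (h j) (gel T (R j) (n : ℤ) (x.1 j))) *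
            ex (∑ p ∈ F, X (h p.1) (gel T (R' p) (n : ℤ) (x.2 p))) := by
        funext n
        unfold seqA
        simp only [e1 n, e2 n]
      rw [e3]
      exact hL)
  have h3 : ∀ᵐ ω ∂P, ∀ (n : ℕ) (j : Fin m),
      X (h j) (gel T (R j) (n : ℤ) ω) = X (v j n) ω := by
    rw [ae_all_iff]
    intro n
    rw [ae_all_iff]
    intro j
    exact (hV j n).imp (h j)
  have h4 : ∀ᵐ ω ∂P, ∀ n : ℕ, X (∑ j, v j n) ω = ∑ j, X (v j n) ω := by
    rw [ae_all_iff]
    intro n
    exact hX.sum Finset.univ fun j => v j n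
  filter_upwards [hcore, h3, h4] with ω hω e3 e4
  obtain ⟨L, hL⟩ := hω
  refine ⟨L, ?_⟩
  have e5 : (fun n : ℕ => ∏ j, ex (X (h j) (gel T (R j) (n : ℤ) ω))) =
      fun n : ℕ => ex (X (∑ j, v j n) ω) := by
    funext n
    rw [e4 n, ex_sum]
    refine Finset.prod_congr rfl fun j _ => ?_
    rw [e3 n j]
  rw [e5]
  exact hL

end Pool.Gauss4d
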