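import Mathlib

set_option autoImplicit false

/-!
# Gauss4d: Gaussian fields indexed by a real inner product space

PROOFS.
* `GField.sum`: `X (∑ i ∈ s, v i) = ∑ i ∈ s, X (v i)` a.e., induction over `s` (`X 0 = 0` a.e. from
  `smul` with `c = 0`).
* `GField.lin`: `X (∑ i ∈ s, c i • v i) = ∑ i ∈ s, c i * X (v i)` a.e.
* `GField.char_sum`: `integral_congr_ae` and `char`.
* `GField.char_pi`: on the product space `ι → Ω`, `∫ ∏_i exp (i X (v_i) (x_i)) = ∏_i exp (-‖v_i‖² / 2)`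
  (`integral_fintype_prod_eq_prod`).
* `GField.inj`: if `X h = X k` a.e. then `X (h - k) = 0` a.e. (`X (h - k) = X h - X k` a.e.), so the
  characteristic function at `h - k` is `1`, i.e. `exp (-‖h - k‖² / 2) = 1`, `h = k`.
-/

open MeasureTheory Filter Topology Finset
open scoped InnerProductSpace

namespace Pool.Gauss4d

/-- `X` is a centred Gaussian field indexed by the inner product space `H`, with covariance the inner
product, and linear up to null sets. -/
structure GField {Ω : Type*} [MeasurableSpace Ω] (P : Measure Ω) {H : Type*}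
    [NormedAddCommGroup H] [InnerProductSpace ℝ H] (X : H → Ω → ℝ) : Prop where
  meas : ∀ h, Measurable (X h)
  char : ∀ h, ∫ ω, Complex.exp (Complex.I * (X h ω : ℂ)) ∂P = Complex.exp (-((‖h‖ ^ 2 / 2 : ℝ) : ℂ))
  add : ∀ h k, ∀ᵐ ω ∂P, X (h + k) ω = X h ω + X k ω
  smul : ∀ (c : ℝ) h, ∀ᵐ ω ∂P, X (c • h) ω = c * X h ω

variable {Ω : Type*} [MeasurableSpace Ω] {P : Measure Ω} [IsProbabilityMeasure P] {H : Type*}
  [NormedAddCommGroup H] [InnerProductSpace ℝ H] {X : H → Ω → ℝ}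

/-- The exponential. -/
noncomputable def ex (t : ℝ) : ℂ := Complex.exp (Complex.I * (t : ℂ))

lemma norm_ex (t : ℝ) : ‖ex t‖ = 1 := by
  unfold ex
  rw [mul_comm]
  exact Complex.norm_exp_ofReal_mul_I t

lemma ex_add (s t : ℝ) : ex (s + t) = ex s * ex t := by
  unfold ex
  rw [← Complex.exp_add]
  push_cast
  ring_nf

lemma ex_zero : ex 0 = 1 := by
  unfold ex
  simp

lemma ex_sum {ι : Type*} (s : Finset ι) (f : ι → ℝ) : ex (∑ i ∈ s, f i) = ∏ i ∈ s, ex (f i) := by
  unfold ex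
  rw [← Complex.exp_sum]
  push_cast
  rw [Finset.mul_sum]

lemma measurable_ex : Measurable ex := by
  unfold ex
  fun_prop

omit [IsProbabilityMeasure P] in
theorem GField.zero (hX : GField P X) : ∀ᵐ ω ∂P, X 0 ω = 0 := by
  filter_upwards [hX.smul 0 0] with ω hω
  rwa [zero_smul, zero_mul] at hω

omit [IsProbabilityMeasure P] in
theorem GField.sum (hX : GField P X) {ι : Type*} (s : Finset ι) (v : ι → H) :
    ∀ᵐ ω ∂P, X (∑ i ∈ s, v i) ω = ∑ i ∈ s, X (v i) ω := by
  classical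
  induction s using Finset.induction_on with
  | empty =>
    simp only [Finset.sum_empty]
    exact hX.zero
  | insert a s ha ih =>
    filter_upwards [ih, hX.add (v a) (∑ i ∈ s, v i)] with ω h1 h2
    rw [Finset.sum_insert ha, Finset.sum_insert ha, h2, h1]

omit [IsProbabilityMeasure P] in
theorem GField.lin (hX : GField P X) {ι : Type*} (s : Finset ι) (c : ι → ℝ) (v : ι → H) :
    ∀ᵐ ω ∂P, X (∑ i ∈ s, c i • v i) ω = ∑ i ∈ s, c i * X (v i) ω := by
  have h1 : ∀ᵐ ω ∂P, ∀ i ∈ s, X (c i • v i) ω = c i * X (v i) ω :=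
    (eventually_all_finset s).2 fun i _ => hX.smul (c i) (v i)
  filter_upwards [hX.sum s fun i => c i • v i, h1] with ω h2 h3
  rw [h2]
  exact Finset.sum_congr rfl h3

omit [IsProbabilityMeasure P] in
theorem GField.int_ex (hX : GField P X) (h : H) :
    ∫ ω, ex (X h ω) ∂P = Complex.exp (-((‖h‖ ^ 2 / 2 : ℝ) : ℂ)) := hX.char h

theorem GField.int_ex_pi (hX : GField P X) {ι : Type*} [Fintype ι] (v : ι → H) :
    ∫ x : ι → Ω, ex (∑ i, X (v i) (x i)) ∂(Measure.pi fun _ => P) =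
      Complex.exp (-((∑ i, ‖v i‖ ^ 2 / 2 : ℝ) : ℂ)) := by
  simp only [ex_sum]
  rw [integral_fintype_prod_eq_prod (𝕜 := ℂ) (fun i ω => ex (X (v i) ω))]
  simp only [hX.int_ex]
  rw [← Complex.exp_sum]
  push_cast
  rw [Finset.sum_neg_distrib]

theorem GField.inj (hX : GField P X) {h k : H} (hk : ∀ᵐ ω ∂P, X h ω = X k ω) : h = k := by
  have h1 : ∀ᵐ ω ∂P, X (h - k) ω = 0 := by
    filter_upwards [hk, hX.add h ((-1 : ℝ) • k), hX.smul (-1) k] with ω h2 h3 h4
    have h5 : h - k = h + (-1 : ℝ) • k := by rw [neg_smul, one_smul, sub_eq_add_neg]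
    rw [h5, h3, h4, h2]
    ring
  have h2 : ∫ ω, ex (X (h - k) ω) ∂P = 1 := by
    have h3 : ∫ ω, ex (X (h - k) ω) ∂P = ∫ _ω, (1 : ℂ) ∂P := by
      apply integral_congr_ae
      filter_upwards [h1] with ω hω
      rw [hω, ex_zero]
    rw [h3]
    simp
  rw [hX.int_ex, ← Complex.ofReal_neg, ← Complex.ofReal_exp] at h2
  have h3 : Real.exp (-(‖h - k‖ ^ 2 / 2)) = 1 := by exact_mod_cast h2
  rw [Real.exp_eq_one_iff] at h3
  have h4 : ‖h - k‖ = 0 := by
    have : ‖h - k‖ ^ 2 = 0 := by linarith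
    exact pow_eq_zero_iff (two_ne_zero) |>.1 this
  exact sub_eq_zero.1 (norm_eq_zero.1 h4)

end Pool.Gauss4d
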