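import Pool.Agent.Gauss4d.Field

set_option autoImplicit false

/-!
# Gauss4d: equality of two laws

PROOF of `law_ext`.  Both laws are probability measures on `ℕ → ℝ`; by `IsProjectiveLimit.unique` it is
enough to compare the images under `I.restrict` for finite `I : Finset ℕ`, and these are probability
measures on the finite dimensional space `I → ℝ`, so `Measure.ext_of_charFunDual`: a continuous linear
form is `L y = ∑_{n : I} c_n y_n`, `charFunDual_apply`, `integral_map`, hypothesis `h`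
(with `c n = 0` outside `I`).

PROOF of `law_eq`.  `law_ext`.  Let `w_j = ∑_{n ∈ I} c_n v_{j n}`, `wb = m⁻¹ ∑_j w_j`.  Almost everywhere
(`GField.lin`, for the coordinate maps use that `x ↦ x j` is measure preserving from `Measure.pi` to `P`:
`measurePreserving_eval`)
`∑_{n ∈ I} c_n a_n(x) = ∑_j X (√m w_j) (x_j)` and
`∑_{n ∈ I} c_n b_n(x0, x) = X (∑_j w_j) (x0) + ∑_l X (√m (w_l - wb)) (x_l)`.
By `GField.int_ex_pi` (and `integral_prod_mul` for the second) the characteristic functions are
`exp (-m ∑_j ‖w_j‖² / 2)` and `exp (-(‖∑_j w_j‖² + m ∑_l ‖w_l - wb‖²) / 2)`, and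
`∑_l ‖w_l - wb‖² = ∑_l ‖w_l‖² - m⁻¹ ‖∑_j w_j‖²`.
-/

open MeasureTheory Filter Topology Finset
open scoped InnerProductSpace

namespace Pool.Gauss4d

theorem law_ext {A B : Type*} [MeasurableSpace A] [MeasurableSpace B] (mu : Measure A)
    (nu : Measure B) [IsProbabilityMeasure mu] [IsProbabilityMeasure nu] (a : A → ℕ → ℝ)
    (b : B → ℕ → ℝ) (ha : ∀ n, Measurable fun x => a x n) (hb : ∀ n, Measurable fun x => b x n)
    (h : ∀ (I : Finset ℕ) (c : ℕ → ℝ),
      ∫ x, ex (∑ n ∈ I, c n * a x n) ∂mu = ∫ x, ex (∑ n ∈ I, c n * b x n) ∂nu) :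
    Measure.map a mu = Measure.map b nu := by
  have hma : Measurable a := measurable_pi_lambda _ ha
  have hmb : Measurable b := measurable_pi_lambda _ hb
  have : IsProbabilityMeasure (Measure.map a mu) := Measure.isProbabilityMeasure_map hma.aemeasurable
  have : IsProbabilityMeasure (Measure.map b nu) := Measure.isProbabilityMeasure_map hmb.aemeasurable
  have key : ∀ I : Finset ℕ, (Measure.map a mu).map I.restrict = (Measure.map b nu).map I.restrict := by
    intro I
    have hr : Measurable (I.restrict : (ℕ → ℝ) → (I → ℝ)) := measurable_pi_lambda _ fun i =>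
      measurable_pi_apply _
    have : IsProbabilityMeasure ((Measure.map a mu).map (I.restrict : (ℕ → ℝ) → (I → ℝ))) :=
      Measure.isProbabilityMeasure_map hr.aemeasurable
    have : IsProbabilityMeasure ((Measure.map b nu).map (I.restrict : (ℕ → ℝ) → (I → ℝ))) :=
      Measure.isProbabilityMeasure_map hr.aemeasurable
    apply Measure.ext_of_charFunDual
    ext L
    have hL : ∀ y : I → ℝ, L y = ∑ n : I, L (Pi.single n 1) * y n := by
      intro y
      conv_lhs => rw [pi_eq_sum_univ' y]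
      rw [map_sum]
      refine Finset.sum_congr rfl fun n _ => ?_
      rw [map_smul, smul_eq_mul, mul_comm]
    set c : ℕ → ℝ := fun n => if hn : n ∈ I then L (Pi.single ⟨n, hn⟩ 1) else 0 with hc
    have hLc : ∀ y : ℕ → ℝ, L (I.restrict y) = ∑ n ∈ I, c n * y n := by
      intro y
      rw [hL, ← Finset.sum_coe_sort I]
      refine Finset.sum_congr rfl fun n _ => ?_
      simp [hc]
    have hLm : Measurable fun v : I → ℝ => Complex.exp (L v * Complex.I) := by
      have : Measurable fun v : I → ℝ => L v := L.continuous.measurable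
      fun_prop
    have hLm2 : Measurable fun y : ℕ → ℝ => Complex.exp (L (I.restrict y) * Complex.I) := hLm.comp hr
    rw [charFunDual_apply, charFunDual_apply, integral_map hr.aemeasurable hLm.aestronglyMeasurable,
      integral_map hr.aemeasurable hLm.aestronglyMeasurable,
      integral_map hma.aemeasurable hLm2.aestronglyMeasurable,
      integral_map hmb.aemeasurable hLm2.aestronglyMeasurable]
    have hh := h I c
    unfold ex at hh
    simp only [hLc]
    simpa only [mul_comm] using hh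
  exact IsProjectiveLimit.unique (P := fun I : Finset ℕ => (Measure.map b nu).map I.restrict)
    (fun I => key I) (fun I => rfl)

variable {Ω : Type*} [MeasurableSpace Ω] {P : Measure Ω} [IsProbabilityMeasure P] {H : Type*}
  [NormedAddCommGroup H] [InnerProductSpace ℝ H] {X : H → Ω → ℝ}

lemma sum_norm_sub_mean (m : ℕ) (hm : 1 ≤ m) (w : Fin m → H) :
    ∑ l, ‖w l - (m : ℝ)⁻¹ • ∑ j, w j‖ ^ 2 = ∑ l, ‖w l‖ ^ 2 - (m : ℝ)⁻¹ * ‖∑ j, w j‖ ^ 2 := by
  have hm0 : (m : ℝ) ≠ 0 := by
    have : (0 : ℝ) < m := by exact_mod_cast hm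
    exact this.ne'
  have h1 : ∀ l, ‖w l - (m : ℝ)⁻¹ • ∑ j, w j‖ ^ 2 =
      ‖w l‖ ^ 2 - 2 * ((m : ℝ)⁻¹ * ⟪w l, ∑ j, w j⟫_ℝ) + (m : ℝ)⁻¹ ^ 2 * ‖∑ j, w j‖ ^ 2 := by
    intro l
    rw [norm_sub_sq_real, inner_smul_right, norm_smul, mul_pow, Real.norm_eq_abs, sq_abs]
  simp only [h1]
  rw [Finset.sum_add_distrib, Finset.sum_sub_distrib, ← Finset.mul_sum, ← Finset.mul_sum,
    ← sum_inner, real_inner_self_eq_norm_sq, Finset.sum_const, Finset.card_univ, Fintype.card_fin,
    nsmul_eq_mul]
  field_simp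
  ring

/-- The two sequences. -/
noncomputable def seqA (X : H → Ω → ℝ) {m : ℕ} (v : Fin m → ℕ → H) (x : Fin m → Ω) (n : ℕ) : ℝ :=
  Real.sqrt m * ∑ j, X (v j n) (x j)

/-- The second sequence. -/
noncomputable def seqB (X : H → Ω → ℝ) {m : ℕ} (v : Fin m → ℕ → H) (x : Ω × (Fin m → Ω)) (n : ℕ) :
    ℝ :=
  X (∑ j, v j n) x.1 + Real.sqrt m * ∑ l, X (v l n - (m : ℝ)⁻¹ • ∑ j, v j n) (x.2 l)

private lemma lw_comb (hX : GField P X) (I : Finset ℕ) (c : ℕ → ℝ) (r : ℝ) (u : ℕ → H) :
    ∀ᵐ ω ∂P, X (r • ∑ n ∈ I, c n • u n) ω = r * ∑ n ∈ I, c n * X (u n) ω := by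
  filter_upwards [hX.smul r (∑ n ∈ I, c n • u n), hX.lin I c u] with ω h1 h2
  rw [h1, h2]

private lemma lw_norm (m : ℕ) (u : H) : ‖Real.sqrt m • u‖ ^ 2 = m * ‖u‖ ^ 2 := by
  rw [norm_smul, mul_pow, Real.norm_eq_abs, sq_abs, Real.sq_sqrt (Nat.cast_nonneg m)]

theorem law_eq (hX : GField P X) (m : ℕ) (hm : 1 ≤ m) (v : Fin m → ℕ → H) :
    Measure.map (seqA X v) (Measure.pi fun _ => P) =
      Measure.map (seqB X v) (P.prod (Measure.pi fun _ => P)) := by
  have hm0 : (m : ℝ) ≠ 0 := by
    have : (0 : ℝ) < m := by exact_mod_cast hm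
    exact this.ne'
  refine law_ext _ _ _ _ ?_ ?_ ?_
  · intro n
    unfold seqA
    exact (Finset.measurable_sum _ fun j _ => (hX.meas _).comp (measurable_pi_apply j)).const_mul _
  · intro n
    unfold seqB
    refine Measurable.add ((hX.meas _).comp measurable_fst) ?_
    exact (Finset.measurable_sum _ fun j _ =>
      (hX.meas _).comp ((measurable_pi_apply j).comp measurable_snd)).const_mul _
  · intro I c
    set w : Fin m → H := fun j => ∑ n ∈ I, c n • v j n with hw
    set S : H := ∑ j, w j with hS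
    have hSeq : ∑ n ∈ I, c n • ∑ j, v j n = S := by
      rw [hS]
      simp only [hw, Finset.smul_sum]
      rw [Finset.sum_comm]
    have hWeq : ∀ l, ∑ n ∈ I, c n • (v l n - (m : ℝ)⁻¹ • ∑ j, v j n) = w l - (m : ℝ)⁻¹ • S := by
      intro l
      simp only [smul_sub]
      rw [Finset.sum_sub_distrib, ← hSeq, Finset.smul_sum]
      congr 1
      refine Finset.sum_congr rfl fun n _ => ?_
      rw [smul_comm]
    -- the first sequence
    have hA : ∫ x, ex (∑ n ∈ I, c n * seqA X v x n) ∂(Measure.pi fun _ : Fin m => P) =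
        ∫ x, ex (∑ j, X (Real.sqrt m • w j) (x j)) ∂(Measure.pi fun _ : Fin m => P) := by
      refine integral_congr_ae ?_
      have h1 : ∀ j : Fin m, ∀ᵐ x ∂(Measure.pi fun _ : Fin m => P),
          X (Real.sqrt m • w j) (x j) = Real.sqrt m * ∑ n ∈ I, c n * X (v j n) (x j) := fun j =>
        (Measure.quasiMeasurePreserving_eval (fun _ : Fin m => P) j).ae
          (lw_comb hX I c (Real.sqrt m) (v j))
      filter_upwards [ae_all_iff.2 h1] with x hx
      simp only [hx]
      congr 1
      unfold seqA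
      simp only [Finset.mul_sum]
      rw [Finset.sum_comm]
      refine Finset.sum_congr rfl fun j _ => Finset.sum_congr rfl fun n _ => ?_
      ring
    have hB : ∫ x, ex (∑ n ∈ I, c n * seqB X v x n) ∂(P.prod (Measure.pi fun _ : Fin m => P)) =
        ∫ x : Ω × (Fin m → Ω), ex (X S x.1) *
          ex (∑ l, X (Real.sqrt m • (w l - (m : ℝ)⁻¹ • S)) (x.2 l))
            ∂(P.prod (Measure.pi fun _ : Fin m => P)) := by
      refine integral_congr_ae ?_
      have h0 : ∀ᵐ x ∂(P.prod (Measure.pi fun _ : Fin m => P)),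
          X ((1 : ℝ) • ∑ n ∈ I, c n • ∑ j, v j n) x.1 =
            1 * ∑ n ∈ I, c n * X (∑ j, v j n) x.1 :=
        Measure.quasiMeasurePreserving_fst.ae (lw_comb hX I c 1 fun n => ∑ j, v j n)
      have h1 : ∀ l : Fin m, ∀ᵐ x ∂(P.prod (Measure.pi fun _ : Fin m => P)),
          X (Real.sqrt m • ∑ n ∈ I, c n • (v l n - (m : ℝ)⁻¹ • ∑ j, v j n)) (x.2 l) =
            Real.sqrt m * ∑ n ∈ I, c n * X (v l n - (m : ℝ)⁻¹ • ∑ j, v j n) (x.2 l) := fun l =>
        Measure.quasiMeasurePreserving_snd.ae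
          ((Measure.quasiMeasurePreserving_eval (fun _ : Fin m => P) l).ae
            (lw_comb hX I c (Real.sqrt m) fun n => v l n - (m : ℝ)⁻¹ • ∑ j, v j n))
      filter_upwards [h0, ae_all_iff.2 h1] with x hx0 hx1
      simp only [hWeq] at hx1
      rw [one_smul, one_mul, hSeq] at hx0
      simp only [hx1, hx0]
      rw [← ex_add]
      congr 1
      unfold seqB
      simp only [mul_add, Finset.mul_sum, Finset.sum_add_distrib]
      congr 1
      rw [Finset.sum_comm]
      refine Finset.sum_congr rfl fun j _ => Finset.sum_congr rfl fun n _ => ?_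
      ring
    rw [hA, hB, hX.int_ex_pi fun j => Real.sqrt m • w j]
    rw [integral_prod_mul (μ := P) (ν := Measure.pi fun _ : Fin m => P) (fun y => ex (X S y))
      (fun y => ex (∑ l, X (Real.sqrt m • (w l - (m : ℝ)⁻¹ • S)) (y l)))]
    rw [hX.int_ex_pi fun l => Real.sqrt m • (w l - (m : ℝ)⁻¹ • S), hX.int_ex, ← Complex.exp_add]
    congr 1
    rw [← neg_add, ← Complex.ofReal_add]
    congr 2
    simp only [lw_norm]
    have h3 := sum_norm_sub_mean m hm w
    rw [← hS] at h3
    rw [← Finset.sum_div, ← Finset.sum_div, ← Finset.mul_sum, ← Finset.mul_sum, h3]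
    field_simp
    ring

end Pool.Gauss4d
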