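import Pool.Agent.Gauss4d.Expo
import Pool.Agent.Gauss4d.Dense
import Pool.Agent.PolyMax.Closure

set_option autoImplicit false

/-!
# Gauss4d: all bounded functions

PROOF of `gauss_expo`.  Each `φ j` is a linear combination of exponentials, `φ j = ∑_k c j k ex (X (h j k))`;
`∏_j φ_j (g_j(n) ω)` is a finite linear combination of products as in `expo_conv`
(`Finset.prod_univ_sum`), finite sums of convergent averages converge (`avg_add` in
`Pool.Agent.Lib.ErgodicAverages2`).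
PROOF of `gauss_one_sided`.  `multi_closureW` with `D = {φ | IsExpo X φ}`, `expo_dense`, `gauss_expo`; the
maximal inequalities `MaxL2` of `tau j n = gel T (R j) n` come from `PolyMax.one_sided`.
PROOF of `gauss_two_sided`.  As in `Pool.Agent.Results.MP_4d8f14_an.AffineCommutingLinear`: the one sided
result for `R` and for `R (-n)` (`Polynomial.comp (-Polynomial.X)`), and `Pool.Lib.Erg.two_sided`.
-/

open MeasureTheory Filter Topology Finset
open scoped ENNReal InnerProductSpace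

namespace Pool.Gauss4d

open Pool.PolyMax

universe u v

variable {Ω : Type u} [MeasurableSpace Ω] {P : Measure Ω} [IsProbabilityMeasure P] {H : Type v}
  [NormedAddCommGroup H] [InnerProductSpace ℝ H] {X : H → Ω → ℝ}

lemma avg_fsum {κ : Type*} (s : Finset κ) (a : κ → ℕ → ℂ) (N : ℕ) :
    Pool.Lib.Erg.avg (fun n => ∑ p ∈ s, a p n) N = ∑ p ∈ s, Pool.Lib.Erg.avg (a p) N := by
  unfold Pool.Lib.Erg.avg
  rw [Finset.sum_comm, Finset.mul_sum]

lemma avg_cmul (c : ℂ) (a : ℕ → ℂ) (N : ℕ) :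
    Pool.Lib.Erg.avg (fun n => c * a n) N = c * Pool.Lib.Erg.avg a N := by
  unfold Pool.Lib.Erg.avg
  rw [← Finset.mul_sum]
  ring

theorem gauss_expo (hX : GField P X) {d : ℕ} (T : Fin d → Equiv.Perm Ω)
    (hT : ∀ i, ∃ V : H ≃ₗᵢ[ℝ] H, Imp P X (T i) V) (hc : ∀ i j, Commute (T i) (T j)) (m : ℕ)
    (R : Fin m → Fin d → Polynomial ℤ) (φ : Fin m → Ω → ℂ) (hφ : ∀ j, IsExpo X (φ j)) :
    ∀ᵐ ω ∂P, ∃ L, Tendsto (Pool.Lib.Erg.avg fun n =>
      ∏ j, φ j (gel T (R j) (n : ℤ) ω)) atTop (𝓝 L) := by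
  classical
  choose k c h hφ using hφ
  have hall : ∀ᵐ ω ∂P, ∀ p : (∀ j, Fin (k j)), ∃ L, Tendsto (Pool.Lib.Erg.avg fun n =>
      ∏ j, ex (X (h j (p j)) (gel T (R j) (n : ℤ) ω))) atTop (𝓝 L) := by
    rw [ae_all_iff]
    intro p
    exact expo_conv hX T hT hc m R fun j => h j (p j)
  filter_upwards [hall] with ω hω
  choose L hL using hω
  refine ⟨∑ p : (∀ j, Fin (k j)), (∏ j, c j (p j)) * L p, ?_⟩
  have e : (Pool.Lib.Erg.avg fun n => ∏ j, φ j (gel T (R j) ((n : ℕ) : ℤ) ω)) =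
      fun N => ∑ p : (∀ j, Fin (k j)), (∏ j, c j (p j)) * Pool.Lib.Erg.avg (fun n =>
        ∏ j, ex (X (h j (p j)) (gel T (R j) ((n : ℕ) : ℤ) ω))) N := by
    funext N
    have e1 : (fun n : ℕ => ∏ j, φ j (gel T (R j) (n : ℤ) ω)) = fun n : ℕ =>
        ∑ p : (∀ j, Fin (k j)), (∏ j, c j (p j)) *
          ∏ j, ex (X (h j (p j)) (gel T (R j) (n : ℤ) ω)) := by
      funext n
      have e2 : ∀ j, φ j (gel T (R j) (n : ℤ) ω) =
          ∑ i : Fin (k j), c j i * ex (X (h j i) (gel T (R j) (n : ℤ) ω)) := fun j => hφ j _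
      simp_rw [e2]
      rw [Finset.prod_univ_sum, Fintype.piFinset_univ]
      apply Finset.sum_congr rfl
      intro p _
      rw [Finset.prod_mul_distrib]
    rw [e1, avg_fsum]
    apply Finset.sum_congr rfl
    intro p _
    rw [avg_cmul]
  rw [e]
  apply tendsto_finsetSum
  intro p _
  exact (hL p).const_mul _

theorem gauss_one_sided (hX : GField P X)
    (hgen : ∀ A, MeasurableSet A → ∃ B,
      MeasurableSet[⨆ h, MeasurableSpace.comap (X h) inferInstance] B ∧ A =ᵐ[P] B)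
    {d : ℕ} (T : Fin d → Equiv.Perm Ω)
    (hT : ∀ i, ∃ V : H ≃ₗᵢ[ℝ] H, Imp P X (T i) V) (hc : ∀ i j, Commute (T i) (T j)) (m : ℕ)
    (R : Fin m → Fin d → Polynomial ℤ) (f : Fin m → Ω → ℂ) (hf : ∀ j, MemLp (f j) ∞ P) :
    ∀ᵐ ω ∂P, ∃ L, Tendsto (Pool.Lib.Erg.avg fun n =>
      ∏ j, f j (gel T (R j) (n : ℤ) ω)) atTop (𝓝 L) := by
  have hmp : ∀ i, MeasurePreserving (T i) P P := fun i => by
    obtain ⟨V, hV⟩ := hT i
    exact hV.mp
  have hmp' : ∀ i, MeasurePreserving (T i).symm P P := fun i => by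
    obtain ⟨V, hV⟩ := hT i
    exact hV.mp'
  refine multi_closureW (mu := P) (fun j n => ⇑(gel T (R j) (n : ℤ))) ?_ ?_ {φ | IsExpo X φ} ?_ ?_ ?_
    f hf
  · intro j n
    obtain ⟨V, hV⟩ := exists_imp_gel hT (R j) (n : ℤ)
    exact hV.mp
  · intro j
    obtain ⟨C, hC⟩ := one_sided.{u} (Finset.univ.sup fun i => (R j i).natDegree)
    refine ⟨C, fun v hv => ?_⟩
    exact hC P d T hmp hmp' hc (R j) (fun i => Finset.le_sup (f := fun i => (R j i).natDegree)
      (Finset.mem_univ i)) v hv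
  · intro φ hφ
    obtain ⟨C, hC⟩ := IsExpo.bdd hφ
    exact memLp_top_of_bound (IsExpo.measurable hX hφ).aestronglyMeasurable C
      (Eventually.of_forall hC)
  · intro g hg ep hep
    exact expo_dense hX hgen g hg ep hep
  · intro φ hφ
    exact gauss_expo hX T hT hc m R φ hφ

theorem gauss_two_sided (hX : GField P X)
    (hgen : ∀ A, MeasurableSet A → ∃ B,
      MeasurableSet[⨆ h, MeasurableSpace.comap (X h) inferInstance] B ∧ A =ᵐ[P] B)
    {d : ℕ} (T : Fin d → Equiv.Perm Ω)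
    (hT : ∀ i, ∃ V : H ≃ₗᵢ[ℝ] H, Imp P X (T i) V) (hc : ∀ i j, Commute (T i) (T j)) (m : ℕ)
    (R : Fin m → Fin d → Polynomial ℤ) (f : Fin m → Ω → ℂ) (hf : ∀ j, MemLp (f j) ∞ P) :
    ∀ᵐ ω ∂P, ∃ L : ℂ, Tendsto
      (fun N : ℕ => ((2 * N + 1 : ℕ) : ℂ)⁻¹ *
        ∑ n ∈ Finset.Icc (-(N : ℤ)) (N : ℤ), ∏ j : Fin m, f j (gel T (R j) n ω))
      atTop (𝓝 L) := by
  have h1 := gauss_one_sided hX hgen T hT hc m R f hf
  have h2 := gauss_one_sided hX hgen T hT hc m (fun j i => (R j i).comp (-Polynomial.X)) f hf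
  filter_upwards [h1, h2] with x ⟨L1, hL1⟩ ⟨L2, hL2⟩
  refine ⟨(L1 + L2) / 2, ?_⟩
  have e : ∀ (j : Fin m) (n : ℕ), gel T (fun i => (R j i).comp (-Polynomial.X)) (n : ℤ) =
      gel T (R j) (-(n : ℤ)) := by
    intro j n
    unfold gel
    simp only [Polynomial.eval_comp, Polynomial.eval_neg, Polynomial.eval_X]
  simp_rw [e] at hL2
  exact Pool.Lib.Erg.two_sided (fun n : ℤ => ∏ j : Fin m, f j (gel T (R j) n x)) L1 L2 hL1 hL2

end Pool.Gauss4d
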