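import Pool.Agent.Gauss4d.Seq

set_option autoImplicit false

/-!
# Gauss4d: Gaussian automorphisms generating a nilpotent group of step two

If all commutators of the group generated by `T_1, ..., T_d` are central, then for integers `a_i` the map
`t ↦ T_1^{a_1 t} ⋯ T_d^{a_d t}` is quadratic (`Quad`), and so are products and inverses of such maps.  Hence
along the residue classes of `n` modulo `2` the sequences `g_j(n) = ∏_i T_i^{a_ij p(n)}` and
`g_i(n) g_j(n)⁻¹` are polynomial sequences in commuting families, and `gauss_cp` applies.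
-/

open MeasureTheory Filter Topology Finset
open scoped ENNReal InnerProductSpace commutatorElement

namespace Pool.Gauss4d

open Pool.PolyMax

universe u v

section quad

variable {K : Type*} [Group K]

/-- Quadratic maps from the integers to a group. -/
def Quad (A : ℤ → K) : Prop :=
  ∃ z : K, (∀ y, Commute z y) ∧ ∀ s t : ℤ, A (s + t) = A s * A t * z ^ (s * t)

lemma comm_mul_left (hK : ∀ x y z : K, Commute ⁅x, y⁆ z) (x x' y : K) :
    ⁅x * x', y⁆ = ⁅x, y⁆ * ⁅x', y⁆ := by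
  have h1 : ⁅x * x', y⁆ = x * ⁅x', y⁆ * x⁻¹ * ⁅x, y⁆ := by
    simp only [commutatorElement_def]
    group
  rw [h1, ← (hK x' y x).eq, mul_inv_cancel_right, ← (hK x' y ⁅x, y⁆).eq]

lemma comm_central (z y : K) (hz : ∀ y, Commute z y) : ⁅z, y⁆ = 1 := by
  rw [commutatorElement_eq_one_iff_mul_comm]
  exact (hz y).eq

lemma quad_comm (hK : ∀ x y z : K, Commute ⁅x, y⁆ z) {A : ℤ → K} (hA : Quad A) (y : K) (t : ℤ) :
    ⁅A t, y⁆ = ⁅A 1, y⁆ ^ t := by
  obtain ⟨z, hz, hA⟩ := hA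
  let F : Multiplicative ℤ →* K := MonoidHom.mk' (fun t => ⁅A t.toAdd, y⁆) (by
    intro s t
    rw [toAdd_mul, hA, comm_mul_left hK, comm_mul_left hK,
      comm_central _ y (fun x => (hz x).zpow_left _), mul_one])
  exact MonoidHom.apply_mint _ F (Multiplicative.ofAdd t)

lemma quad_comm2 (hK : ∀ x y z : K, Commute ⁅x, y⁆ z) {A B : ℤ → K} (hA : Quad A) (hB : Quad B)
    (s t : ℤ) : ⁅A t, B s⁆ = ⁅A 1, B 1⁆ ^ (s * t) := by
  rw [quad_comm hK hA, ← commutatorElement_inv (B s) (A 1), quad_comm hK hB, ← inv_zpow,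
    commutatorElement_inv, zpow_mul]

lemma quad_self_comm (hK : ∀ x y z : K, Commute ⁅x, y⁆ z) {A : ℤ → K} (hA : Quad A) (s t : ℤ) :
    Commute (A t) (A s) := by
  have h := quad_comm2 hK hA hA s t
  rw [commutatorElement_self, one_zpow, commutatorElement_eq_one_iff_mul_comm] at h
  exact h

lemma Quad.mul (hK : ∀ x y z : K, Commute ⁅x, y⁆ z) {A B : ℤ → K} (hA : Quad A) (hB : Quad B) :
    Quad fun t => A t * B t := by
  have hAB := quad_comm2 hK hA hB
  obtain ⟨z, hz, hA⟩ := hA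
  obtain ⟨w, hw, hB⟩ := hB
  refine ⟨⁅A 1, B 1⁆ * z * w, fun y => ((hK _ _ y).mul_left (hz y)).mul_left (hw y), ?_⟩
  intro s t
  have h1 : A t * B s = ⁅A 1, B 1⁆ ^ (s * t) * (B s * A t) := by
    rw [← hAB s t, commutatorElement_def]
    group
  have hc : ∀ y, Commute (⁅A 1, B 1⁆ ^ (s * t)) y := fun y => (hK _ _ y).zpow_left _
  have hz' : ∀ y, Commute (z ^ (s * t)) y := fun y => (hz y).zpow_left _
  have hw' : ∀ y, Commute (w ^ (s * t)) y := fun y => (hw y).zpow_left _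
  have h2 : (⁅A 1, B 1⁆ * z * w) ^ (s * t) =
      ⁅A 1, B 1⁆ ^ (s * t) * z ^ (s * t) * w ^ (s * t) := by
    have e1 : Commute (⁅A 1, B 1⁆ * z) w := (hw _).symm
    have e2 : Commute ⁅A 1, B 1⁆ z := hK _ _ z
    rw [e1.mul_zpow, e2.mul_zpow]
  show A (s + t) * B (s + t) = A s * B s * (A t * B t) * (⁅A 1, B 1⁆ * z * w) ^ (s * t)
  rw [hA, hB, h2]
  calc A s * A t * z ^ (s * t) * (B s * B t * w ^ (s * t))
      = A s * (A t * (z ^ (s * t) * B s)) * B t * w ^ (s * t) := by simp only [mul_assoc]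
    _ = A s * (A t * B s) * z ^ (s * t) * B t * w ^ (s * t) := by
        rw [(hz' (B s)).eq]; simp only [mul_assoc]
    _ = A s * (⁅A 1, B 1⁆ ^ (s * t) * (B s * A t)) * z ^ (s * t) * B t * w ^ (s * t) := by rw [h1]
    _ = (A s * B s) * A t * ⁅A 1, B 1⁆ ^ (s * t) * z ^ (s * t) * B t * w ^ (s * t) := by
        rw [(hc (B s * A t)).eq]; simp only [mul_assoc]
    _ = (A s * B s) * A t * (⁅A 1, B 1⁆ ^ (s * t) * z ^ (s * t) * B t) * w ^ (s * t) := by
        simp only [mul_assoc]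
    _ = (A s * B s) * A t * (B t * (⁅A 1, B 1⁆ ^ (s * t) * z ^ (s * t))) * w ^ (s * t) := by
        rw [((hc (B t)).mul_left (hz' (B t))).eq]
    _ = _ := by simp only [mul_assoc]

lemma Quad.inv (hK : ∀ x y z : K, Commute ⁅x, y⁆ z) {A : ℤ → K} (hA : Quad A) :
    Quad fun t => (A t)⁻¹ := by
  have hc := quad_self_comm hK hA
  obtain ⟨z, hz, hA⟩ := hA
  refine ⟨z⁻¹, fun y => (hz y).inv_left, fun s t => ?_⟩
  show (A (s + t))⁻¹ = (A s)⁻¹ * (A t)⁻¹ * z⁻¹ ^ (s * t)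
  have hz' : ∀ y, Commute (z ^ (s * t)) y := fun y => (hz y).zpow_left _
  rw [hA, mul_inv_rev, mul_inv_rev, inv_zpow, ((hc s t).inv_inv).eq,
    ((hz' ((A s)⁻¹ * (A t)⁻¹)).inv_left).eq]

lemma quad_one : Quad fun _ : ℤ => (1 : K) := ⟨1, fun y => Commute.one_left y, by simp⟩

lemma quad_zpow (x : K) (a : ℤ) : Quad fun t : ℤ => x ^ (a * t) :=
  ⟨1, fun y => Commute.one_left y, fun s t => by
    show x ^ (a * (s + t)) = x ^ (a * s) * x ^ (a * t) * 1 ^ (s * t)
    rw [one_zpow, mul_one, mul_add, zpow_add]⟩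

lemma quad_list (hK : ∀ x y z : K, Commute ⁅x, y⁆ z) : ∀ l : List (ℤ → K), (∀ A ∈ l, Quad A) →
    Quad fun t => (l.map fun A => A t).prod
  | [], _ => by simpa using quad_one
  | A :: l, h => by
    have h1 := quad_list hK l fun B hB => h B (List.mem_cons_of_mem _ hB)
    have h2 := Quad.mul hK (h A List.mem_cons_self) h1
    simpa using h2

lemma quad_zero {A : ℤ → K} (hA : Quad A) : A 0 = 1 := by
  obtain ⟨z, _, hA⟩ := hA
  have h := hA 0 0
  rw [add_zero, mul_zero, zpow_zero, mul_one] at h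
  exact (left_eq_mul.1 h)

/-- The values at even numbers, without division. -/
lemma quad_even {A : ℤ → K} {z : K} (hz : ∀ y, Commute z y)
    (hA : ∀ s t : ℤ, A (s + t) = A s * A t * z ^ (s * t)) (s : ℤ) :
    A (2 * s) = A 2 ^ s * z ^ (2 * s * (s - 1)) := by
  have h0 : A 0 = 1 := quad_zero ⟨z, hz, hA⟩
  have hz' : ∀ (k : ℤ) y, Commute (z ^ k) y := fun k y => (hz y).zpow_left _
  have step : ∀ s : ℤ, A (2 * (s + 1)) = A (2 * s) * A 2 * z ^ (4 * s) := by
    intro s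
    have := hA (2 * s) 2
    rw [show 2 * (s + 1) = 2 * s + 2 by ring, this]
    congr 2
    ring
  induction s using Int.induction_on with
  | zero => simp [h0]
  | succ i ih =>
    rw [step, ih, mul_assoc (A 2 ^ (i : ℤ)), (hz' _ (A 2)).eq, ← mul_assoc (A 2 ^ (i : ℤ)),
      zpow_add_one, mul_assoc, ← zpow_add]
    congr 2
    ring
  | pred i ih =>
    have h := step (-(i : ℤ) - 1)
    rw [sub_add_cancel, ih] at h
    have h2 : A (2 * (-(i : ℤ) - 1)) = A 2 ^ (-(i : ℤ)) * z ^ (2 * (-(i : ℤ)) * (-(i : ℤ) - 1)) *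
        (z ^ (4 * (-(i : ℤ) - 1)))⁻¹ * (A 2)⁻¹ := by
      rw [h]
      group
    rw [h2, mul_assoc (A 2 ^ (-(i : ℤ))), ← zpow_neg, ← zpow_add, mul_assoc,
      (hz' _ (A 2)⁻¹).eq, ← mul_assoc, ← zpow_sub_one]
    congr 2
    ring

end quad

/-- Integer polynomials along residue classes modulo `2`. -/
lemma poly_mod_two (p : Polynomial ℤ) (r : ℤ) :
    ∃ u : Polynomial ℤ, ∀ n : ℤ, p.eval (2 * n + r) = p.eval r + 2 * u.eval n := by
  induction p using Polynomial.induction_on' with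
  | add p q hp hq =>
    obtain ⟨u, hu⟩ := hp
    obtain ⟨w, hw⟩ := hq
    refine ⟨u + w, fun n => ?_⟩
    rw [Polynomial.eval_add, Polynomial.eval_add, Polynomial.eval_add, hu, hw]
    ring
  | monomial k a =>
    have h : ∀ k : ℕ, ∃ u : Polynomial ℤ, ∀ n : ℤ, (2 * n + r) ^ k = r ^ k + 2 * u.eval n := by
      intro k
      induction k with
      | zero => exact ⟨0, fun n => by simp⟩
      | succ k ih =>
        obtain ⟨u, hu⟩ := ih
        refine ⟨Polynomial.C (r ^ k) * Polynomial.X + u * (2 * Polynomial.X + Polynomial.C r),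
          fun n => ?_⟩
        rw [pow_succ, hu]
        simp only [Polynomial.eval_add, Polynomial.eval_mul, Polynomial.eval_C, Polynomial.eval_X,
          Polynomial.eval_ofNat]
        ring
    obtain ⟨u, hu⟩ := h k
    refine ⟨Polynomial.C a * u, fun n => ?_⟩
    rw [Polynomial.eval_monomial, Polynomial.eval_monomial, hu, Polynomial.eval_mul,
      Polynomial.eval_C]
    ring

variable {Ω : Type u} [MeasurableSpace Ω] {P : Measure Ω}

/-- Quadratic maps composed with a polynomial along a residue class are polynomial sequences in a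
commuting family. -/
theorem cp_of_quad {G : Subgroup (Equiv.Perm Ω)} (hG : ∀ x y z : G, Commute ⁅x, y⁆ z)
    (hmp : ∀ x ∈ G, x ∈ mpS P) {A : ℤ → G} (hA : Quad A) (p : Polynomial ℤ) (r : ℤ) :
    CP P fun n : ℕ => (A (p.eval (2 * (n : ℤ) + r)) : Equiv.Perm Ω) := by
  have hself := quad_self_comm hG hA
  obtain ⟨z, hz, hA⟩ := hA
  obtain ⟨w, hw⟩ := poly_mod_two p r
  set e : ℤ := p.eval r with he
  have key : ∀ n : ℤ, A (p.eval (2 * n + r)) =
      A e * (A 2 ^ (w.eval n) * z ^ (2 * w.eval n * (w.eval n - 1) + e * (2 * w.eval n))) := by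
    intro n
    rw [hw, hA, quad_even hz hA, zpow_add]
    simp only [mul_assoc]
  have hcoe : ∀ x y : G, Commute x y → Commute (x : Equiv.Perm Ω) (y : Equiv.Perm Ω) := by
    intro x y h
    exact h.map G.subtype
  refine ⟨3, ![(A e : Equiv.Perm Ω), (A 2 : Equiv.Perm Ω), (z : Equiv.Perm Ω)],
    ![1, w, 2 * w * (w - 1) + Polynomial.C e * (2 * w)], ?_, ?_, ?_, ?_⟩
  · intro i
    fin_cases i
    · exact (hmp _ (A e).2).1
    · exact (hmp _ (A 2).2).1
    · exact (hmp _ z.2).1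
  · intro i
    fin_cases i
    · exact (hmp _ (A e).2).2
    · exact (hmp _ (A 2).2).2
    · exact (hmp _ z.2).2
  · intro i j
    fin_cases i <;> fin_cases j
    · exact Commute.refl _
    · exact hcoe _ _ (hself 2 e)
    · exact hcoe _ _ (hz _).symm
    · exact hcoe _ _ (hself e 2)
    · exact Commute.refl _
    · exact hcoe _ _ (hz _).symm
    · exact hcoe _ _ (hz _)
    · exact hcoe _ _ (hz _)
    · exact Commute.refl _
  · intro n
    show ((A (p.eval (2 * (n : ℤ) + r)) : G) : Equiv.Perm Ω) = _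
    rw [key]
    unfold gel
    simp [List.ofFn_succ, Polynomial.eval_add, Polynomial.eval_mul, Polynomial.eval_sub,
      Polynomial.eval_one]

variable [IsProbabilityMeasure P] {H : Type v}
  [NormedAddCommGroup H] [InnerProductSpace ℝ H] {X : H → Ω → ℝ}

/-- The implemented permutations form a group. -/
def impS (P : Measure Ω) [IsProbabilityMeasure P] (X : H → Ω → ℝ) : Subgroup (Equiv.Perm Ω) where
  carrier := {g | ∃ V : H ≃ₗᵢ[ℝ] H, Imp P X g V}
  mul_mem' := by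
    rintro g g' ⟨V, hV⟩ ⟨V', hV'⟩
    exact ⟨V' * V, hV.mul hV'⟩
  one_mem' := ⟨1, MeasurePreserving.id P, MeasurePreserving.id P,
    fun _ => Filter.Eventually.of_forall fun _ => rfl⟩
  inv_mem' := by
    rintro g ⟨V, hV⟩
    exact ⟨V⁻¹, hV.inv⟩

omit [IsProbabilityMeasure P] in
lemma ae_bdd {g : ℕ → Equiv.Perm Ω} (hg : ∀ n, MeasurePreserving (g n) P P) {f : Ω → ℂ}
    (hf : MemLp f ∞ P) : ∃ C : ℝ, 0 ≤ C ∧ ∀ᵐ ω ∂P, ∀ n, ‖f (g n ω)‖ ≤ C := by
  refine ⟨(eLpNorm f ∞ P).toReal, ENNReal.toReal_nonneg, ?_⟩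
  rw [ae_all_iff]
  intro n
  have h1 : ∀ᵐ x ∂P, ‖f x‖ ≤ (eLpNorm f ∞ P).toReal := by
    have h2 := ae_le_eLpNormEssSup (f := f) (μ := P)
    filter_upwards [h2] with x hx
    rw [← eLpNorm_exponent_top] at hx
    have := ENNReal.toReal_mono hf.eLpNorm_ne_top hx
    simpa using this
  exact (hg n).quasiMeasurePreserving.ae h1

theorem gauss_nil_one_sided (hX : GField P X)
    (hgen : ∀ A, MeasurableSet A → ∃ B,
      MeasurableSet[⨆ h, MeasurableSpace.comap (X h) inferInstance] B ∧ A =ᵐ[P] B)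
    {d : ℕ} (T : Fin d → Equiv.Perm Ω) (hT : ∀ i, ∃ V : H ≃ₗᵢ[ℝ] H, Imp P X (T i) V)
    (hnil : ∀ x ∈ Subgroup.closure (Set.range T), ∀ y ∈ Subgroup.closure (Set.range T),
      ∀ z ∈ Subgroup.closure (Set.range T), Commute ⁅x, y⁆ z)
    (m : ℕ) (a : Fin d → Fin m → ℤ) (p : Polynomial ℤ) (f : Fin m → Ω → ℂ)
    (hf : ∀ j, MemLp (f j) ∞ P) :
    ∀ᵐ ω ∂P, ∃ L, Tendsto (Pool.Lib.Erg.avg fun n : ℕ => ∏ j,
      f j ((List.ofFn fun i => T i ^ (a i j * p.eval (n : ℤ))).prod ω)) atTop (𝓝 L) := by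
  set G := Subgroup.closure (Set.range T) with hG
  have hGi : G ≤ impS P X := by
    rw [hG, Subgroup.closure_le]
    rintro _ ⟨i, rfl⟩
    exact hT i
  have hGm : ∀ x ∈ G, x ∈ mpS P := by
    intro x hx
    obtain ⟨V, hV⟩ := hGi hx
    exact ⟨hV.mp, hV.mp'⟩
  have hK : ∀ x y z : G, Commute ⁅x, y⁆ z := by
    intro x y z
    apply Subtype.ext
    exact (hnil x x.2 y y.2 z z.2).eq
  set T' : Fin d → G := fun i => ⟨T i, Subgroup.subset_closure ⟨i, rfl⟩⟩ with hT'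
  set A : Fin m → ℤ → G := fun j t => (List.ofFn fun i => T' i ^ (a i j * t)).prod with hA
  have hAQ : ∀ j, Quad (A j) := by
    intro j
    have h := quad_list hK (List.ofFn fun i : Fin d => fun t : ℤ => T' i ^ (a i j * t)) (by
      intro B hB
      rw [List.mem_ofFn] at hB
      obtain ⟨i, rfl⟩ := hB
      exact quad_zpow _ _)
    have e : (fun t => ((List.ofFn fun i : Fin d => fun t : ℤ => T' i ^ (a i j * t)).map
        fun B => B t).prod) = A j := by
      funext t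
      rw [List.map_ofFn]
      rfl
    rw [e] at h
    exact h
  have hAc : ∀ j t, (A j t : Equiv.Perm Ω) = (List.ofFn fun i => T i ^ (a i j * t)).prod := by
    intro j t
    rw [hA]
    have h := map_list_prod G.subtype (List.ofFn fun i => T' i ^ (a i j * t))
    rw [List.map_ofFn] at h
    exact h
  have hAm : ∀ j t, MeasurePreserving (A j t : Equiv.Perm Ω) P P := fun j t =>
    (hGm _ (A j t).2).1
  have hr : ∀ r : ℕ, r < 2 → ∀ᵐ ω ∂P, ∃ L, Tendsto (Pool.Lib.Erg.avg fun n : ℕ => ∏ j,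
      f j ((A j (p.eval (2 * (n : ℤ) + r)) : Equiv.Perm Ω) ω)) atTop (𝓝 L) := by
    intro r _
    refine gauss_cp hX hgen m (fun j n => (A j (p.eval (2 * (n : ℤ) + r)) : Equiv.Perm Ω)) ?_ ?_ ?_
      f hf
    · intro j
      exact cp_of_quad hK hGm (hAQ j) p r
    · intro j n
      exact hGi (A j _).2
    · intro i j
      exact cp_of_quad hK hGm (Quad.mul hK (hAQ i) (Quad.inv hK (hAQ j))) p r
  have hb : ∀ j, ∃ C : ℝ, 0 ≤ C ∧ ∀ᵐ ω ∂P, ∀ n : ℕ,
      ‖f j ((A j (p.eval (n : ℤ)) : Equiv.Perm Ω) ω)‖ ≤ C := fun j =>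
    ae_bdd (fun n => hAm j _) (hf j)
  choose C hC0 hC using hb
  have hCall : ∀ᵐ ω ∂P, ∀ j, ∀ n : ℕ, ‖f j ((A j (p.eval (n : ℤ)) : Equiv.Perm Ω) ω)‖ ≤ C j :=
    ae_all_iff.2 hC
  filter_upwards [hr 0 (by norm_num), hr 1 (by norm_num), hCall] with ω h0 h1 hω
  simp_rw [← hAc]
  refine Pool.Lib.Erg.avg_residue _ (∏ j, C j) (fun n => ?_) 2 (by norm_num) ?_
  · rw [norm_prod]
    exact Finset.prod_le_prod (fun j _ => norm_nonneg _) fun j _ => hω j n
  · intro r hr2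
    interval_cases r
    · obtain ⟨L, hL⟩ := h0
      refine ⟨L, ?_⟩
      have e : ∀ n : ℕ, (((2 * n + 0 : ℕ) : ℕ) : ℤ) = 2 * (n : ℤ) + ((0 : ℕ) : ℤ) := by
        intro n; push_cast; ring
      simp only [e]
      exact hL
    · obtain ⟨L, hL⟩ := h1
      refine ⟨L, ?_⟩
      have e : ∀ n : ℕ, (((2 * n + 1 : ℕ) : ℕ) : ℤ) = 2 * (n : ℤ) + ((1 : ℕ) : ℤ) := by
        intro n; push_cast; ring
      simp only [e]
      exact hL

theorem gauss_nil_two_sided (hX : GField P X)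
    (hgen : ∀ A, MeasurableSet A → ∃ B,
      MeasurableSet[⨆ h, MeasurableSpace.comap (X h) inferInstance] B ∧ A =ᵐ[P] B)
    {d : ℕ} (T : Fin d → Equiv.Perm Ω) (hT : ∀ i, ∃ V : H ≃ₗᵢ[ℝ] H, Imp P X (T i) V)
    (hnil : ∀ x ∈ Subgroup.closure (Set.range T), ∀ y ∈ Subgroup.closure (Set.range T),
      ∀ z ∈ Subgroup.closure (Set.range T), Commute ⁅x, y⁆ z)
    (m : ℕ) (a : Fin d → Fin m → ℤ) (p : Polynomial ℤ) (f : Fin m → Ω → ℂ)
    (hf : ∀ j, MemLp (f j) ∞ P) :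
    ∀ᵐ ω ∂P, ∃ L : ℂ, Tendsto
      (fun N : ℕ => ((2 * N + 1 : ℕ) : ℂ)⁻¹ *
        ∑ n ∈ Finset.Icc (-(N : ℤ)) (N : ℤ), ∏ j : Fin m,
          f j ((List.ofFn fun i => T i ^ (a i j * p.eval n)).prod ω)) atTop (𝓝 L) := by
  have h1 := gauss_nil_one_sided hX hgen T hT hnil m a p f hf
  have h2 := gauss_nil_one_sided hX hgen T hT hnil m a (p.comp (-Polynomial.X)) f hf
  filter_upwards [h1, h2] with x ⟨L1, hL1⟩ ⟨L2, hL2⟩
  refine ⟨(L1 + L2) / 2, ?_⟩
  simp only [Polynomial.eval_comp, Polynomial.eval_neg, Polynomial.eval_X] at hL2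
  exact Pool.Lib.Erg.two_sided (fun n : ℤ => ∏ j : Fin m,
    f j ((List.ofFn fun i => T i ^ (a i j * p.eval n)).prod x)) L1 L2 hL1 hL2

end Pool.Gauss4d
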