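import Pool.Agent.Gauss4d.Abs
import Pool.Agent.Gauss4d.NilTwo
import Pool.Agent.PolyMax.Factor

set_option autoImplicit false

/-!
# Gauss4d: all nilpotent groups of Gaussian automorphisms, reduction to the case of one function

`OneConv`, `OneMax`: almost everywhere convergence and the maximal inequality for the averages of one
function along polynomial sequences of nilpotent groups.  `gauss_all_two_sided`: they imply the almost
everywhere convergence of all multiple averages for Gaussian actions of nilpotent groups.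
-/

open MeasureTheory Filter Topology Finset
open scoped ENNReal InnerProductSpace

namespace Pool.Gauss4d

open Pool.PolyMax Pool.PolyConv

universe u v

section words

variable {K : Type*} [Group K]

/-- Words: products of powers of fixed elements with polynomial exponents. -/
def Wd (k : ℤ → K) : Prop :=
  ∃ (l : ℕ) (S : Fin l → K) (Q : Fin l → Polynomial ℤ),
    ∀ n : ℤ, k n = (List.ofFn fun i => S i ^ (Q i).eval n).prod

lemma Wd.one : Wd fun _ : ℤ => (1 : K) := ⟨0, Fin.elim0, Fin.elim0, by simp⟩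

lemma Wd.mul {k k' : ℤ → K} (h : Wd k) (h' : Wd k') : Wd fun n => k n * k' n := by
  obtain ⟨l, S, Q, h⟩ := h
  obtain ⟨l', S', Q', h'⟩ := h'
  refine ⟨l + l', Fin.append S S', Fin.append Q Q', fun n => ?_⟩
  have e : (fun i : Fin (l + l') => Fin.append S S' i ^ ((Fin.append Q Q' i).eval n)) =
      Fin.append (fun i => S i ^ (Q i).eval n) (fun i => S' i ^ (Q' i).eval n) := by
    funext i
    refine Fin.addCases (fun i => ?_) (fun i => ?_) i
    · simp only [Fin.append_left]
    · simp only [Fin.append_right]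
  show k n * k' n = _
  rw [e, List.ofFn_fin_append, List.prod_append, h, h']

lemma Wd.zpow (x : K) (q : Polynomial ℤ) : Wd fun n => x ^ q.eval n :=
  ⟨1, fun _ => x, fun _ => q, by simp⟩

lemma Wd.list : ∀ l : List (ℤ → K), (∀ k ∈ l, Wd k) → Wd fun n => (l.map fun k => k n).prod
  | [], _ => by simpa using Wd.one
  | k :: l, h => by
    have h1 := Wd.list l fun k hk => h k (List.mem_cons_of_mem _ hk)
    simpa using Wd.mul (h k List.mem_cons_self) h1

lemma Wd.inv {k : ℤ → K} (h : Wd k) : Wd fun n => (k n)⁻¹ := by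
  obtain ⟨l, S, Q, h⟩ := h
  have h1 := Wd.list ((List.ofFn fun (i : Fin l) (n : ℤ) => (S i ^ (Q i).eval n)⁻¹).reverse) (by
    intro k hk
    rw [List.mem_reverse, List.mem_ofFn] at hk
    obtain ⟨i, rfl⟩ := hk
    have := Wd.zpow (S i) (-Q i)
    refine ⟨1, fun _ => S i, fun _ => -Q i, fun n => ?_⟩
    simp)
  have e : (fun n => (((List.ofFn fun (i : Fin l) (n : ℤ) =>
      (S i ^ (Q i).eval n)⁻¹).reverse).map fun k => k n).prod) = fun n => (k n)⁻¹ := by
    funext n
    rw [h n, List.prod_inv_reverse, List.map_reverse, List.map_ofFn, List.map_ofFn]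
    rfl
  rw [e] at h1
  exact h1

lemma Wd.map {K' : Type*} [Group K'] (F : K →* K') {k : ℤ → K} (h : Wd k) :
    Wd fun n => F (k n) := by
  obtain ⟨l, S, Q, h⟩ := h
  refine ⟨l, fun i => F (S i), Q, fun n => ?_⟩
  show F (k n) = _
  rw [h n, map_list_prod, List.map_ofFn]
  congr 2
  funext i
  rw [Function.comp_apply, map_zpow]

lemma Wd.comp {k : ℤ → K} (h : Wd k) (p : Polynomial ℤ) : Wd fun n => k (p.eval n) := by
  obtain ⟨l, S, Q, h⟩ := h
  refine ⟨l, S, fun i => (Q i).comp p, fun n => ?_⟩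
  show k (p.eval n) = _
  rw [h]
  simp only [Polynomial.eval_comp]

lemma Wd.pi {ι : Type} [Fintype ι] {k : ι → ℤ → K} (h : ∀ c, Wd (k c)) :
    Wd fun n => (fun c => k c n : ι → K) := by
  classical
  have key : ∀ l : List ι, l.Nodup → Wd fun n => (fun c => if c ∈ l then k c n else 1 : ι → K) := by
    intro l
    induction l with
    | nil =>
      intro _
      have e : (fun _ : ℤ => (1 : ι → K)) = fun n => fun c => if c ∈ ([] : List ι) then k c n else 1 := by
        funext n c
        simp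
      rw [← e]
      exact Wd.one
    | cons a l ih =>
      intro hl
      have h1 := ih (List.nodup_cons.1 hl).2
      have h2 := Wd.mul (Wd.map (MonoidHom.mulSingle (fun _ : ι => K) a) (h a)) h1
      have e : (fun n => (MonoidHom.mulSingle (fun _ : ι => K) a) (k a n) *
          (fun c => if c ∈ l then k c n else 1 : ι → K)) =
          fun n => fun c => if c ∈ a :: l then k c n else 1 := by
        funext n c
        rw [Pi.mul_apply, MonoidHom.mulSingle_apply]
        by_cases hc : c = a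
        · subst hc
          rw [Pi.mulSingle_eq_same, if_neg (List.nodup_cons.1 hl).1, mul_one,
            if_pos List.mem_cons_self]
        · rw [Pi.mulSingle_eq_of_ne hc, one_mul]
          by_cases hcl : c ∈ l
          · rw [if_pos hcl, if_pos (List.mem_cons_of_mem _ hcl)]
          · rw [if_neg hcl, if_neg]
            simp [hc, hcl]
      rw [e] at h2
      exact h2
  have h1 := key (Finset.univ : Finset ι).toList (Finset.nodup_toList _)
  have e : (fun n => (fun c => if c ∈ (Finset.univ : Finset ι).toList then k c n else 1 : ι → K)) =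
      fun n => fun c => k c n := by
    funext n c
    rw [if_pos]
    simp
  rw [e] at h1
  exact h1

end words

/-- Convergence of the averages of one bounded function, nilpotent groups. -/
def OneConv : Prop :=
  ∀ (Y : Type u) [MeasurableSpace Y] (ν : Measure Y) [IsProbabilityMeasure ν] (l : ℕ)
    (S : Fin l → Equiv.Perm Y), (∀ i, MeasurePreserving (S i) ν ν) →
    (∀ i, MeasurePreserving (S i).symm ν ν) →
    Group.IsNilpotent (Subgroup.closure (Set.range S)) →
    ∀ (Q : Fin l → Polynomial ℤ) (f : Y → ℂ), Measurable f → ∀ B : ℝ, (∀ y, ‖f y‖ ≤ B) →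
    ∀ᵐ y ∂ν, ∃ L, Tendsto (Pool.Lib.Erg.avg fun n : ℕ => f (gel S Q (n : ℤ) y)) atTop (𝓝 L)

/-- The maximal inequality for the averages of one function, nilpotent groups. -/
def OneMax : Prop :=
  ∀ (Y : Type u) [MeasurableSpace Y] (ν : Measure Y) [IsProbabilityMeasure ν] (l : ℕ)
    (S : Fin l → Equiv.Perm Y), (∀ i, MeasurePreserving (S i) ν ν) →
    (∀ i, MeasurePreserving (S i).symm ν ν) →
    Group.IsNilpotent (Subgroup.closure (Set.range S)) →
    ∀ (Q : Fin l → Polynomial ℤ), MaxL2 (fun n : ℕ => ⇑(gel S Q (n : ℤ))) ν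

lemma nilpotent_closure {G K : Type*} [Group G] [Group K] [Group.IsNilpotent K] (F : K →* G)
    {l : ℕ} (S : Fin l → K) : Group.IsNilpotent (Subgroup.closure (Set.range fun i => F (S i))) := by
  have h1 : Group.IsNilpotent F.range := Group.nilpotent_of_surjective F.rangeRestrict
    F.rangeRestrict_surjective
  have h2 : Subgroup.closure (Set.range fun i => F (S i)) ≤ F.range := by
    rw [Subgroup.closure_le]
    rintro _ ⟨i, rfl⟩
    exact ⟨S i, rfl⟩
  have h3 : Group.IsNilpotent ((Subgroup.closure (Set.range fun i => F (S i))).subgroupOf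
    F.range) := inferInstance
  exact Group.nilpotent_of_surjective (Subgroup.subgroupOfEquivOfLe h2).toMonoidHom
    (Subgroup.subgroupOfEquivOfLe h2).surjective

section main

variable {Ω : Type u} [MeasurableSpace Ω] {P : Measure Ω} [IsProbabilityMeasure P]

theorem split_nil (h1 : OneConv.{u}) {G : Subgroup (Equiv.Perm Ω)} (hG : Group.IsNilpotent G)
    (hmp : ∀ x ∈ G, x ∈ mpS P) (m : ℕ) (g : Fin m → ℕ → Equiv.Perm Ω) (k : Fin m → ℤ → G)
    (hk : ∀ j, Wd (k j)) (hgk : ∀ j n, g j n = (k j (n : ℤ) : Equiv.Perm Ω)) :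
    SplitConv P m g fun p n => g p.1 n * (g p.2 n)⁻¹ := by
  intro f hf B hB
  -- the product group
  set C := Fin m ⊕ (Fin m × Fin m) with hC
  set kk : C → ℤ → G := Sum.elim k fun p n => k p.1 n * (k p.2 n)⁻¹ with hkk
  have hW : Wd fun n => (fun c => kk c n : C → G) := by
    refine Wd.pi ?_
    rintro (j | p)
    · exact hk j
    · exact Wd.mul (hk p.1) (Wd.inv (hk p.2))
  set F : (C → G) →* Equiv.Perm (C → Ω) :=
    (psHom Ω C).comp (MonoidHom.mk' (fun (w : C → G) c => (w c : Equiv.Perm Ω)) (by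
      intro a b; funext c; rfl)) with hF
  have hFa : ∀ (w : C → G) (x : C → Ω) (c : C), F w x c = (w c : Equiv.Perm Ω) (x c) := by
    intro w x c
    rfl
  obtain ⟨l, S, Q, hS⟩ := hW
  have hmpF : ∀ w : C → G, MeasurePreserving (F w) (Measure.pi fun _ : C => P)
      (Measure.pi fun _ : C => P) := by
    intro w
    exact measurePreserving_pi (fun _ : C => P) (fun _ : C => P)
      (fun c => (hmp _ (w c).2).1)
  have hf2 : Measurable (fun y : C → Ω =>
      f (fun c => y (Sum.inl c), fun c => y (Sum.inr c))) := by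
    refine hf.comp (Measurable.prodMk ?_ ?_)
    · exact measurable_pi_iff.mpr fun c => measurable_pi_apply _
    · exact measurable_pi_iff.mpr fun c => measurable_pi_apply _
  have h := h1 (C → Ω) (Measure.pi fun _ : C => P) l (fun i => F (S i)) (fun i => hmpF _)
    (fun i => by
      have e : (F (S i)).symm = F (S i)⁻¹ := by
        rw [map_inv]; rfl
      rw [e]
      exact hmpF _)
    (nilpotent_closure F S) Q
    (fun y => f (fun c => y (Sum.inl c), fun c => y (Sum.inr c))) hf2 B (fun y => hB _)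
  have e1 : ∀ n : ℕ, gel (fun i => F (S i)) Q (n : ℤ) = F (fun c => kk c (n : ℤ)) := by
    intro n
    have h3 := hS (n : ℤ)
    simp only at h3
    rw [h3, map_list_prod, List.map_ofFn]
    unfold gel
    congr 2
    funext i
    rw [Function.comp_apply, map_zpow]
  simp only [e1] at h
  have hmp2 := measurePreserving_sumPiEquivProdPi_symm
    (X := fun _ : Fin m ⊕ (Fin m × Fin m) => Ω) (fun _ => P)
  have h2 := hmp2.quasiMeasurePreserving.ae h
  filter_upwards [h2] with x hx
  obtain ⟨L, hL⟩ := hx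
  refine ⟨L, ?_⟩
  have e2 : (fun n : ℕ => f (fun c => g c n (x.1 c),
      fun p : Fin m × Fin m => (g p.1 n * (g p.2 n)⁻¹) (x.2 p))) = fun n : ℕ =>
      f (fun c => (F (fun c => kk c (n : ℤ))) ((MeasurableEquiv.sumPiEquivProdPi
          (fun _ : Fin m ⊕ (Fin m × Fin m) => Ω)).symm x) (Sum.inl c),
        fun c => (F (fun c => kk c (n : ℤ))) ((MeasurableEquiv.sumPiEquivProdPi
          (fun _ : Fin m ⊕ (Fin m × Fin m) => Ω)).symm x) (Sum.inr c)) := by
    funext n
    congr 2
    · funext c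
      rw [hFa, hgk]
      rfl
    · funext p
      rw [hFa, hgk, hgk]
      rfl
  rw [e2]
  exact hL

variable {H : Type v} [NormedAddCommGroup H] [InnerProductSpace ℝ H] {X : H → Ω → ℝ}

theorem gauss_all_one_sided (h1 : OneConv.{u}) (h2 : OneMax.{u}) (hX : GField P X)
    (hgen : ∀ A, MeasurableSet A → ∃ B,
      MeasurableSet[⨆ h, MeasurableSpace.comap (X h) inferInstance] B ∧ A =ᵐ[P] B)
    {d : ℕ} (T : Fin d → Equiv.Perm Ω) (hT : ∀ i, ∃ V : H ≃ₗᵢ[ℝ] H, Imp P X (T i) V)
    (hnil : Group.IsNilpotent (Subgroup.closure (Set.range T)))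
    (m : ℕ) (R : Fin d → Fin m → Polynomial ℤ) (f : Fin m → Ω → ℂ) (hf : ∀ j, MemLp (f j) ∞ P) :
    ∀ᵐ ω ∂P, ∃ L, Tendsto (Pool.Lib.Erg.avg fun n : ℕ => ∏ j,
      f j ((List.ofFn fun i => T i ^ (R i j).eval (n : ℤ)).prod ω)) atTop (𝓝 L) := by
  set G := Subgroup.closure (Set.range T) with hG
  have hGi : G ≤ impS P X := by
    rw [hG, Subgroup.closure_le]
    rintro _ ⟨i, rfl⟩
    exact hT i
  have hGm : ∀ x ∈ G, x ∈ mpS P := by
    intro x hx
    obtain ⟨V, hV⟩ := hGi hx
    exact ⟨hV.mp, hV.mp'⟩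
  have hTG : ∀ i, T i ∈ G := fun i => Subgroup.subset_closure ⟨i, rfl⟩
  set k : Fin m → ℤ → G := fun j n =>
    (List.ofFn fun i => (⟨T i, hTG i⟩ : G) ^ (R i j).eval n).prod with hk
  have hkc : ∀ j n, (k j n : Equiv.Perm Ω) = (List.ofFn fun i => T i ^ (R i j).eval n).prod := by
    intro j n
    have h := map_list_prod G.subtype (List.ofFn fun i => (⟨T i, hTG i⟩ : G) ^ (R i j).eval n)
    rw [List.map_ofFn] at h
    exact h
  refine gauss_abs hX hgen m
    (fun j (n : ℕ) => (List.ofFn fun i => T i ^ (R i j).eval (n : ℤ)).prod) ?_ ?_ ?_ f hf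
  · intro j n
    rw [← hkc]
    exact hGi (k j n).2
  · exact split_nil h1 hnil hGm m _ k (fun j => ⟨d, _, _, fun n => rfl⟩)
      fun j n => (hkc j n).symm
  · intro j
    exact h2 Ω P d T (fun i => (hGm _ (hTG i)).1) (fun i => (hGm _ (hTG i)).2) hnil
      (fun i => R i j)

theorem gauss_all_two_sided (h1 : OneConv.{u}) (h2 : OneMax.{u}) (hX : GField P X)
    (hgen : ∀ A, MeasurableSet A → ∃ B,
      MeasurableSet[⨆ h, MeasurableSpace.comap (X h) inferInstance] B ∧ A =ᵐ[P] B)
    {d : ℕ} (T : Fin d → Equiv.Perm Ω) (hT : ∀ i, ∃ V : H ≃ₗᵢ[ℝ] H, Imp P X (T i) V)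
    (hnil : Group.IsNilpotent (Subgroup.closure (Set.range T)))
    (m : ℕ) (R : Fin d → Fin m → Polynomial ℤ) (f : Fin m → Ω → ℂ) (hf : ∀ j, MemLp (f j) ∞ P) :
    ∀ᵐ ω ∂P, ∃ L : ℂ, Tendsto
      (fun N : ℕ => ((2 * N + 1 : ℕ) : ℂ)⁻¹ *
        ∑ n ∈ Finset.Icc (-(N : ℤ)) (N : ℤ), ∏ j : Fin m,
          f j ((List.ofFn fun i => T i ^ (R i j).eval n).prod ω)) atTop (𝓝 L) := by
  have h1' := gauss_all_one_sided h1 h2 hX hgen T hT hnil m R f hf
  have h2' := gauss_all_one_sided h1 h2 hX hgen T hT hnil m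
    (fun i j => (R i j).comp (-Polynomial.X)) f hf
  filter_upwards [h1', h2'] with x ⟨L1, hL1⟩ ⟨L2, hL2⟩
  refine ⟨(L1 + L2) / 2, ?_⟩
  simp only [Polynomial.eval_comp, Polynomial.eval_neg, Polynomial.eval_X] at hL2
  exact Pool.Lib.Erg.two_sided (fun n : ℤ => ∏ j : Fin m,
    f j ((List.ofFn fun i => T i ^ (R i j).eval n).prod x)) L1 L2 hL1 hL2

end main

end Pool.Gauss4d
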