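import Pool.Agent.Nil.Final
import Pool.Agent.Gauss4d.NilAll

set_option autoImplicit false

/-!
# Gauss4d: all nilpotent groups of Gaussian automorphisms

`oneConv`, `oneMax`: the case of one function (`Pool/Agent/Nil`), in the form used by
`Pool.Gauss4d.gauss_all_two_sided`.
-/

open MeasureTheory Filter Topology Finset
open scoped ENNReal InnerProductSpace

namespace Pool.Gauss4d

open Pool.PolyMax Pool.PolyConv

universe u v

lemma gel_eq_orb {X : Type u} {d : ℕ} (T : Fin d → Equiv.Perm X) (P : Fin d → Polynomial ℤ)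
    (n : ℤ) : gel T P n = Pool.Nil.orb T P n := rfl

theorem oneConv : OneConv.{u} := by
  intro Y _ ν _ l S hS hS' hnil Q f hf B hB
  have hf2 : MemLp f 2 ν := MemLp.of_bound hf.aestronglyMeasurable B (Eventually.of_forall hB)
  exact Pool.Nil.orb_conv_one S hS hS' hnil Q f hf2

theorem oneMax : OneMax.{u} := by
  intro Y _ ν _ l S hS hS' hnil Q
  exact Pool.Nil.orb_max S hS hS' hnil Q

/-- **Gaussian actions of nilpotent groups**: almost everywhere convergence of all multiple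
averages. -/
theorem gauss_nil {Ω : Type u} [MeasurableSpace Ω] {P : Measure Ω} [IsProbabilityMeasure P]
    {H : Type v} [NormedAddCommGroup H] [InnerProductSpace ℝ H] {X : H → Ω → ℝ}
    (hX : GField P X)
    (hgen : ∀ A, MeasurableSet A → ∃ B,
      MeasurableSet[⨆ h, MeasurableSpace.comap (X h) inferInstance] B ∧ A =ᵐ[P] B)
    {d : ℕ} (T : Fin d → Equiv.Perm Ω) (hT : ∀ i, ∃ V : H ≃ₗᵢ[ℝ] H, Imp P X (T i) V)
    (hnil : Group.IsNilpotent (Subgroup.closure (Set.range T)))
    (m : ℕ) (R : Fin d → Fin m → Polynomial ℤ) (f : Fin m → Ω → ℂ) (hf : ∀ j, MemLp (f j) ∞ P) :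
    ∀ᵐ ω ∂P, ∃ L : ℂ, Tendsto
      (fun N : ℕ => ((2 * N + 1 : ℕ) : ℂ)⁻¹ *
        ∑ n ∈ Finset.Icc (-(N : ℤ)) (N : ℤ), ∏ j : Fin m,
          f j ((List.ofFn fun i => T i ^ (R i j).eval n).prod ω)) atTop (𝓝 L) :=
  gauss_all_two_sided oneConv oneMax hX hgen T hT hnil m R f hf

end Pool.Gauss4d
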