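import Pool.Agent.Gauss4d.NilTwo

set_option autoImplicit false

/-!
# Gauss4d: step two groups, central directions with arbitrary polynomials

The general form: the commutators of the group generated by the Gaussian automorphisms
`T_1, ..., T_d` are central, and for every `i` either `T_i` is central, or all the polynomials `R_ij` are
integer multiples of one polynomial `q`.
-/

open MeasureTheory Filter Topology Finset
open scoped ENNReal InnerProductSpace commutatorElement

namespace Pool.Gauss4d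

open Pool.PolyMax

universe u v

variable {Ω : Type u} [MeasurableSpace Ω] {P : Measure Ω}

omit [MeasurableSpace Ω] in
/-- The product of two polynomial sequences in commuting families which commute with each other. -/
theorem gel_append {d d' : ℕ} (T : Fin d → Equiv.Perm Ω) (T' : Fin d' → Equiv.Perm Ω)
    (R : Fin d → Polynomial ℤ) (R' : Fin d' → Polynomial ℤ) (n : ℤ) :
    gel (Fin.append T T') (Fin.append R R') n = gel T R n * gel T' R' n := by
  unfold gel
  have e : (fun i : Fin (d + d') => Fin.append T T' i ^ ((Fin.append R R' i).eval n)) =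
      Fin.append (fun i => T i ^ (R i).eval n) (fun i => T' i ^ (R' i).eval n) := by
    funext i
    refine Fin.addCases (fun i => ?_) (fun i => ?_) i
    · simp only [Fin.append_left]
    · simp only [Fin.append_right]
  rw [e, List.ofFn_fin_append, List.prod_append]

/-- Quadratic maps composed with a polynomial, times a polynomial sequence in central directions. -/
theorem cp_of_quad_mul {G : Subgroup (Equiv.Perm Ω)} (hG : ∀ x y z : G, Commute ⁅x, y⁆ z)
    (hmp : ∀ x ∈ G, x ∈ mpS P) {A : ℤ → G} (hA : Quad A) (p : Polynomial ℤ) (r : ℤ)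
    {d : ℕ} (T : Fin d → Equiv.Perm Ω) (hTG : ∀ i, T i ∈ G) (hT : ∀ i, ∀ x ∈ G, Commute (T i) x)
    (R : Fin d → Polynomial ℤ) :
    CP P fun n : ℕ => (A (p.eval (2 * (n : ℤ) + r)) : Equiv.Perm Ω) *
      gel T R (2 * (n : ℤ) + r) := by
  have hself := quad_self_comm hG hA
  obtain ⟨z, hz, hA⟩ := hA
  obtain ⟨w, hw⟩ := poly_mod_two p r
  set e : ℤ := p.eval r with he
  have key : ∀ n : ℤ, A (p.eval (2 * n + r)) =
      A e * (A 2 ^ (w.eval n) * z ^ (2 * w.eval n * (w.eval n - 1) + e * (2 * w.eval n))) := by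
    intro n
    rw [hw, hA, quad_even hz hA, zpow_add]
    simp only [mul_assoc]
  have hcoe : ∀ x y : G, Commute x y → Commute (x : Equiv.Perm Ω) (y : Equiv.Perm Ω) := by
    intro x y h
    exact h.map G.subtype
  set T0 : Fin 3 → Equiv.Perm Ω :=
    ![(A e : Equiv.Perm Ω), (A 2 : Equiv.Perm Ω), (z : Equiv.Perm Ω)] with hT0
  set R0 : Fin 3 → Polynomial ℤ := ![1, w, 2 * w * (w - 1) + Polynomial.C e * (2 * w)] with hR0
  have hT0G : ∀ i, T0 i ∈ G := by
    intro i
    fin_cases i
    · exact (A e).2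
    · exact (A 2).2
    · exact z.2
  have hT0c : ∀ i j, Commute (T0 i) (T0 j) := by
    intro i j
    fin_cases i <;> fin_cases j
    · exact Commute.refl _
    · exact hcoe _ _ (hself 2 e)
    · exact hcoe _ _ (hz _).symm
    · exact hcoe _ _ (hself e 2)
    · exact Commute.refl _
    · exact hcoe _ _ (hz _).symm
    · exact hcoe _ _ (hz _)
    · exact hcoe _ _ (hz _)
    · exact Commute.refl _
  have happ : ∀ i, Fin.append T0 T i ∈ G := by
    intro i
    refine Fin.addCases (fun i => ?_) (fun i => ?_) i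
    · rw [Fin.append_left]; exact hT0G i
    · rw [Fin.append_right]; exact hTG i
  refine ⟨3 + d, Fin.append T0 T, Fin.append R0 fun i =>
    (R i).comp (2 * Polynomial.X + Polynomial.C r), fun i => (hmp _ (happ i)).1,
    fun i => (hmp _ (happ i)).2, ?_, ?_⟩
  · intro i j
    refine Fin.addCases (fun i => ?_) (fun i => ?_) i
    · refine Fin.addCases (fun j => ?_) (fun j => ?_) j
      · rw [Fin.append_left, Fin.append_left]; exact hT0c i j
      · rw [Fin.append_left, Fin.append_right]; exact (hT j _ (hT0G i)).symm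
    · rw [Fin.append_right]
      exact hT i _ (happ j)
  · intro n
    show (A (p.eval (2 * (n : ℤ) + r)) : Equiv.Perm Ω) * gel T R (2 * (n : ℤ) + r) = _
    rw [gel_append]
    congr 1
    · rw [key]
      unfold gel
      simp [hT0, hR0, List.ofFn_succ, Polynomial.eval_add, Polynomial.eval_mul,
        Polynomial.eval_sub, Polynomial.eval_one]
    · unfold gel
      simp only [Polynomial.eval_comp, Polynomial.eval_add, Polynomial.eval_mul,
        Polynomial.eval_X, Polynomial.eval_C, Polynomial.eval_ofNat]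

variable [IsProbabilityMeasure P] {H : Type v}
  [NormedAddCommGroup H] [InnerProductSpace ℝ H] {X : H → Ω → ℝ}

theorem gauss_mix_one_sided (hX : GField P X)
    (hgen : ∀ A, MeasurableSet A → ∃ B,
      MeasurableSet[⨆ h, MeasurableSpace.comap (X h) inferInstance] B ∧ A =ᵐ[P] B)
    {d : ℕ} (T : Fin d → Equiv.Perm Ω) (hT : ∀ i, ∃ V : H ≃ₗᵢ[ℝ] H, Imp P X (T i) V)
    (hnil : ∀ x ∈ Subgroup.closure (Set.range T), ∀ y ∈ Subgroup.closure (Set.range T),
      ∀ z ∈ Subgroup.closure (Set.range T), Commute ⁅x, y⁆ z)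
    (m : ℕ) (R : Fin d → Fin m → Polynomial ℤ) (q : Polynomial ℤ)
    (hR : ∀ i, (∀ x ∈ Subgroup.closure (Set.range T), Commute (T i) x) ∨
      ∃ a : Fin m → ℤ, ∀ j, R i j = Polynomial.C (a j) * q)
    (f : Fin m → Ω → ℂ) (hf : ∀ j, MemLp (f j) ∞ P) :
    ∀ᵐ ω ∂P, ∃ L, Tendsto (Pool.Lib.Erg.avg fun n : ℕ => ∏ j,
      f j ((List.ofFn fun i => T i ^ (R i j).eval (n : ℤ)).prod ω)) atTop (𝓝 L) := by
  classical
  set G := Subgroup.closure (Set.range T) with hG
  have hGi : G ≤ impS P X := by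
    rw [hG, Subgroup.closure_le]
    rintro _ ⟨i, rfl⟩
    exact hT i
  have hGm : ∀ x ∈ G, x ∈ mpS P := by
    intro x hx
    obtain ⟨V, hV⟩ := hGi hx
    exact ⟨hV.mp, hV.mp'⟩
  have hK : ∀ x y z : G, Commute ⁅x, y⁆ z := by
    intro x y z
    apply Subtype.ext
    exact (hnil x x.2 y y.2 z z.2).eq
  have hTG : ∀ i, T i ∈ G := fun i => Subgroup.subset_closure ⟨i, rfl⟩
  set Ce : Fin d → Prop := fun i => ∀ x ∈ G, Commute (T i) x with hCe
  -- the coefficients
  have hRa : ∀ i, ∃ a : Fin m → ℤ, ¬ Ce i → ∀ j, R i j = Polynomial.C (a j) * q := by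
    intro i
    rcases hR i with h | ⟨a, ha⟩
    · exact ⟨0, fun h' => absurd h h'⟩
    · exact ⟨a, fun _ => ha⟩
  choose a ha using hRa
  -- the non central part
  set T' : Fin d → G := fun i => if Ce i then 1 else ⟨T i, hTG i⟩ with hT'
  set A : Fin m → ℤ → G := fun j t => (List.ofFn fun i => T' i ^ (a i j * t)).prod with hA
  have hAQ : ∀ j, Quad (A j) := by
    intro j
    have h := quad_list hK (List.ofFn fun i : Fin d => fun t : ℤ => T' i ^ (a i j * t)) (by
      intro B hB
      rw [List.mem_ofFn] at hB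
      obtain ⟨i, rfl⟩ := hB
      exact quad_zpow _ _)
    have e : (fun t => ((List.ofFn fun i : Fin d => fun t : ℤ => T' i ^ (a i j * t)).map
        fun B => B t).prod) = A j := by
      funext t
      rw [List.map_ofFn]
      rfl
    rw [e] at h
    exact h
  have hAc : ∀ j t, (A j t : Equiv.Perm Ω) =
      (List.ofFn fun i => (T' i : Equiv.Perm Ω) ^ (a i j * t)).prod := by
    intro j t
    rw [hA]
    have h := map_list_prod G.subtype (List.ofFn fun i => T' i ^ (a i j * t))
    rw [List.map_ofFn] at h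
    exact h
  -- the central part
  set T'' : Fin d → Equiv.Perm Ω := fun i => if Ce i then T i else 1 with hT''
  have hT''G : ∀ i, T'' i ∈ G := by
    intro i
    simp only [hT'']
    split_ifs
    · exact hTG i
    · exact G.one_mem
  have hT''c : ∀ i, ∀ x ∈ G, Commute (T'' i) x := by
    intro i x hx
    simp only [hT'']
    split_ifs with h
    · exact h x hx
    · exact Commute.one_left x
  have hsplit : ∀ (j : Fin m) (n : ℤ), (List.ofFn fun i => T i ^ (R i j).eval n).prod =
      (A j (q.eval n) : Equiv.Perm Ω) * gel T'' (fun i => R i j) n := by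
    intro j n
    rw [hAc]
    unfold gel
    rw [← Pool.PolyConv.ofFn_prod_mul _ _ fun i k =>
      ((hT''c i _ (G.zpow_mem (T' k).2 _)).zpow_left _)]
    congr 1
    congr 1
    funext i
    by_cases h : Ce i
    · simp only [hT', hT'', if_pos h, OneMemClass.coe_one, one_zpow, one_mul]
    · simp only [hT', hT'', if_neg h, one_zpow, mul_one]
      rw [ha i h j, Polynomial.eval_mul, Polynomial.eval_C]
  have hgm : ∀ (j : Fin m) (n : ℤ), (List.ofFn fun i => T i ^ (R i j).eval n).prod ∈ G := by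
    intro j n
    apply Subgroup.list_prod_mem
    intro x hx
    rw [List.mem_ofFn] at hx
    obtain ⟨i, rfl⟩ := hx
    exact Subgroup.zpow_mem _ (hTG i) _
  have hr : ∀ r : ℕ, r < 2 → ∀ᵐ ω ∂P, ∃ L, Tendsto (Pool.Lib.Erg.avg fun n : ℕ => ∏ j,
      f j ((List.ofFn fun i => T i ^ (R i j).eval (2 * (n : ℤ) + r)).prod ω)) atTop (𝓝 L) := by
    intro r _
    refine gauss_cp hX hgen m
      (fun j n => (List.ofFn fun i => T i ^ (R i j).eval (2 * (n : ℤ) + r)).prod) ?_ ?_ ?_ f hf
    · intro j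
      have h := cp_of_quad_mul hK hGm (hAQ j) q r T'' hT''G hT''c (fun i => R i j)
      simp only [hsplit]
      exact h
    · intro j n
      exact hGi (hgm j _)
    · intro i j
      have h := cp_of_quad_mul hK hGm (Quad.mul hK (hAQ i) (Quad.inv hK (hAQ j))) q r T'' hT''G
        hT''c (fun l => R l i - R l j)
      have e : ∀ n : ℤ, (A i (q.eval n) : Equiv.Perm Ω) * gel T'' (fun l => R l i) n *
          ((A j (q.eval n) : Equiv.Perm Ω) * gel T'' (fun l => R l j) n)⁻¹ =
          ((A i (q.eval n) * (A j (q.eval n))⁻¹ : G) : Equiv.Perm Ω) *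
            gel T'' (fun l => R l i - R l j) n := by
        intro n
        have hc'' : ∀ k l, Commute (T'' k) (T'' l) := fun k l => hT''c k _ (hT''G l)
        rw [gel_sub T'' hc'' (fun l => R l i) (fun l => R l j) n, mul_inv_rev]
        have hcen : ∀ (R0 : Fin d → Polynomial ℤ), ∀ x ∈ G, Commute (gel T'' R0 n) x := by
          intro R0 x hx
          unfold gel
          apply Commute.list_prod_left
          intro y hy
          rw [List.mem_ofFn] at hy
          obtain ⟨k, rfl⟩ := hy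
          exact (hT''c k x hx).zpow_left _
        have h1 := hcen (fun l => R l i) ((A j (q.eval n))⁻¹ : G) ((A j (q.eval n))⁻¹ : G).2
        have h2 := hcen (fun l => R l j) ((A j (q.eval n))⁻¹ : G) ((A j (q.eval n))⁻¹ : G).2
        push_cast at h1 h2 ⊢
        calc (A i (q.eval n) : Equiv.Perm Ω) * gel T'' (fun l => R l i) n *
              ((gel T'' (fun l => R l j) n)⁻¹ * (A j (q.eval n) : Equiv.Perm Ω)⁻¹)
            = (A i (q.eval n) : Equiv.Perm Ω) * (gel T'' (fun l => R l i) n *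
              ((gel T'' (fun l => R l j) n)⁻¹ * (A j (q.eval n) : Equiv.Perm Ω)⁻¹)) := by
              rw [mul_assoc]
          _ = (A i (q.eval n) : Equiv.Perm Ω) * ((A j (q.eval n) : Equiv.Perm Ω)⁻¹ *
              (gel T'' (fun l => R l i) n * (gel T'' (fun l => R l j) n)⁻¹)) := by
              rw [← mul_assoc (gel T'' (fun l => R l i) n), (h1.mul_left h2.inv_left).eq]
          _ = _ := by rw [mul_assoc]
      simp only [hsplit, e]
      exact h
  have hb : ∀ j, ∃ C : ℝ, 0 ≤ C ∧ ∀ᵐ ω ∂P, ∀ n : ℕ,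
      ‖f j ((List.ofFn fun i => T i ^ (R i j).eval (n : ℤ)).prod ω)‖ ≤ C := fun j =>
    ae_bdd (g := fun n : ℕ => (List.ofFn fun i => T i ^ (R i j).eval (n : ℤ)).prod)
      (fun n => (hGm _ (hgm j n)).1) (hf j)
  choose C hC0 hC using hb
  have hCall : ∀ᵐ ω ∂P, ∀ j, ∀ n : ℕ,
      ‖f j ((List.ofFn fun i => T i ^ (R i j).eval (n : ℤ)).prod ω)‖ ≤ C j := ae_all_iff.2 hC
  filter_upwards [hr 0 (by norm_num), hr 1 (by norm_num), hCall] with ω h0 h1 hω
  refine Pool.Lib.Erg.avg_residue _ (∏ j, C j) (fun n => ?_) 2 (by norm_num) ?_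
  · rw [norm_prod]
    exact Finset.prod_le_prod (fun j _ => norm_nonneg _) fun j _ => hω j n
  · intro r hr2
    interval_cases r
    · obtain ⟨L, hL⟩ := h0
      refine ⟨L, ?_⟩
      have e : ∀ n : ℕ, (((2 * n + 0 : ℕ) : ℕ) : ℤ) = 2 * (n : ℤ) + ((0 : ℕ) : ℤ) := by
        intro n; push_cast; ring
      simp only [e]
      exact hL
    · obtain ⟨L, hL⟩ := h1
      refine ⟨L, ?_⟩
      have e : ∀ n : ℕ, (((2 * n + 1 : ℕ) : ℕ) : ℤ) = 2 * (n : ℤ) + ((1 : ℕ) : ℤ) := by
        intro n; push_cast; ring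
      simp only [e]
      exact hL

theorem gauss_mix_two_sided (hX : GField P X)
    (hgen : ∀ A, MeasurableSet A → ∃ B,
      MeasurableSet[⨆ h, MeasurableSpace.comap (X h) inferInstance] B ∧ A =ᵐ[P] B)
    {d : ℕ} (T : Fin d → Equiv.Perm Ω) (hT : ∀ i, ∃ V : H ≃ₗᵢ[ℝ] H, Imp P X (T i) V)
    (hnil : ∀ x ∈ Subgroup.closure (Set.range T), ∀ y ∈ Subgroup.closure (Set.range T),
      ∀ z ∈ Subgroup.closure (Set.range T), Commute ⁅x, y⁆ z)
    (m : ℕ) (R : Fin d → Fin m → Polynomial ℤ) (q : Polynomial ℤ)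
    (hR : ∀ i, (∀ x ∈ Subgroup.closure (Set.range T), Commute (T i) x) ∨
      ∃ a : Fin m → ℤ, ∀ j, R i j = Polynomial.C (a j) * q)
    (f : Fin m → Ω → ℂ) (hf : ∀ j, MemLp (f j) ∞ P) :
    ∀ᵐ ω ∂P, ∃ L : ℂ, Tendsto
      (fun N : ℕ => ((2 * N + 1 : ℕ) : ℂ)⁻¹ *
        ∑ n ∈ Finset.Icc (-(N : ℤ)) (N : ℤ), ∏ j : Fin m,
          f j ((List.ofFn fun i => T i ^ (R i j).eval n).prod ω)) atTop (𝓝 L) := by
  have h1 := gauss_mix_one_sided hX hgen T hT hnil m R q hR f hf
  have h2 := gauss_mix_one_sided hX hgen T hT hnil m (fun i j => (R i j).comp (-Polynomial.X))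
    (q.comp (-Polynomial.X)) (by
      intro i
      rcases hR i with h | ⟨a, ha⟩
      · exact Or.inl h
      · refine Or.inr ⟨a, fun j => ?_⟩
        rw [ha j, Polynomial.mul_comp, Polynomial.C_comp]) f hf
  filter_upwards [h1, h2] with x ⟨L1, hL1⟩ ⟨L2, hL2⟩
  refine ⟨(L1 + L2) / 2, ?_⟩
  simp only [Polynomial.eval_comp, Polynomial.eval_neg, Polynomial.eval_X] at hL2
  exact Pool.Lib.Erg.two_sided (fun n : ℤ => ∏ j : Fin m,
    f j ((List.ofFn fun i => T i ^ (R i j).eval n).prod x)) L1 L2 hL1 hL2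

end Pool.Gauss4d
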