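import Pool.Agent.PolyConv.Assemble
import Pool.Agent.Lib.Weyl

set_option autoImplicit false

/-!
# Gauss4d: single function averages with a polynomial phase

PROOF of `phase_form`.  Newton expansion: if all `k`-fold differences of `θ` vanish then
`θ n = ∑_{l < k} (n.choose l) • δ_l`, `δ_l` the `l`-fold difference at `0` (induction on `k`:
`θ n = θ 0 + ∑_{i < n} (del θ) i`, `∑_{i < n} i.choose l = n.choose (l + 1)`,
`Finset.sum_range_choose...`/`Nat.sum_range_choose...`, `Nat.sum_Icc_choose`; or induct directly on the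
statement of the theorem, using that `n ↦ ∑_{i < n} i ^ l` is a polynomial in `n` with rational
coefficients, e.g. `Polynomial`/`Faulhaber` `sum_range_pow`).  Lift `δ_l` to real numbers and expand
`n.choose l` as a polynomial in `n` (`descPochhammer`), collecting the coefficients.

PROOF of `conv_phase`.  Let `α` be as in `phase_form`.  Space `X' = X × UnitAddCircle` with
`mu.prod volume` (the Haar probability on `UnitAddCircle`), `D' = max D k`, and for `l < D'`
`U'_l = (U_l if l < D, else 1) × (translation by α (l + 1), if l < k, else 0)`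
(`Equiv.prodCongr`, `Equiv.addRight`).  They commute and preserve the measure (`MeasurePreserving.prod`,
`measurePreserving_add_right`).  `act U' (fun l => n ^ (l + 1)) (x, y) =
(act U (fun l => n ^ (l + 1)) x, y + ∑_{l < k} α (l + 1) n ^ (l + 1)) = (.., y + θ n - α 0)`.
`conv_all` for `F (x, y) = f x * e (y)`: for a.e. `(x, y)` the averages of
`f (act U (..) x) * e (y + θ n - α 0)` converge; by Fubini (`Measure.ae_ae_of_ae_prod`) for a.e. `x` there is
such a `y`; divide by `e (y - α 0) ≠ 0`.
-/

open MeasureTheory Filter Topology Finset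

namespace Pool.Gauss4d

open Pool.PolyConv Pool.Lib.APoly

theorem phase_form {k : ℕ} {θ : ℕ → UnitAddCircle} (hθ : PD ⊥ k θ) :
    ∃ α : ℕ → ℝ, ∀ n : ℕ, θ n =
      ((∑ l ∈ range (k + 1), α l * (n : ℝ) ^ l : ℝ) : UnitAddCircle) := by
  sorry

theorem conv_phase {X : Type*} [MeasurableSpace X] {D : ℕ} (mu : Measure X)
    [IsProbabilityMeasure mu] (U : Fin D → Equiv.Perm X)
    (hU : ∀ i j, Commute (U i) (U j)) (hmp : ∀ j, MeasurePreserving (U j) mu mu) (f : X → ℂ)
    (hf : Measurable f) (B : ℝ) (hB : ∀ x, ‖f x‖ ≤ B) {k : ℕ} {θ : ℕ → UnitAddCircle}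
    (hθ : PD ⊥ k θ) :
    ∀ᵐ x ∂mu, ∃ L, Tendsto (Pool.Lib.Erg.avg fun n =>
      Pool.Lib.Weyl.e (θ n) * f (act U (fun j : Fin D => n ^ ((j : ℕ) + 1)) x)) atTop (𝓝 L) := by
  sorry

end Pool.Gauss4d
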