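import Pool.Agent.Pinsker.Reduce
import Pool.Agent.Pinsker.MaxPoly
import Pool.Agent.PolyMax.Factor

set_option autoImplicit false
set_option warn.classDefReducibility false

/-!
# Gauss4d: from a factor which contains the Pinsker factor to the whole system

`(Y, nu, W)` is a factor of `(X, mu, T)` via `rho`, every measurable set of zero entropy of `X` is a.e.
equal to a preimage of a measurable set of `Y`, and the averages converge a.e. on `Y`.  Then they converge
a.e. on `X`.

PROOF (compare the proof of `Pool.Pinsker.reduce`, most of which can be copied).  `m', s, A, Z` from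
`merge P`, `f'_j = ∏_{k ∈ A j} f_k`, `comm_char` for `P' i j = P i (s j)` and `f'` (the maximal inequality
from `maxProp_poly`): the averages of `∏_j f'_j(g_{s j}(n) x) - ∏_j e_j (g_{s j}(n) x)` tend to `0` a.e.,
`e_j = μ[f'_j | pinskerAlgebra mu T]`.
`exists_lift`: there is a bounded measurable `h_j : Y → ℂ` with `e_j = h_j ∘ rho` a.e.  For this: the
measurable sets `B` of `X` for which some measurable `C ⊆ Y` has `B =ᵐ[mu] rho ⁻¹' C` form a σ-algebra,
which contains the generators of `pinskerAlgebra mu T` by `hpin`, so it contains all of its sets.  Let `c` be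
the conditional expectation of `e_j` with respect to `MeasurableSpace.comap rho`: it is `h ∘ rho` with `h`
measurable (`Measurable.exists_eq_measurable_comp`/`StronglyMeasurable.factorsThrough`,
`MeasureTheory.StronglyMeasurable ... comap`), and `c = e_j` a.e., because `∫_B c = ∫_B e_j` for all
`B ∈ comap rho`, hence for all `B` in the Pinsker algebra, and `c` is a.e. equal to a function measurable for
the Pinsker algebra completed...  (Alternative which avoids this: approximate the bounded Pinsker measurable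
function `e_j` by simple functions (`MeasureTheory.StronglyMeasurable.approxBounded` or
`SimpleFunc.approxOn`), whose level sets are Pinsker sets and so a.e. preimages; so every simple function
`s_n` of the sequence is a.e. equal to `t_n ∘ rho`, `t_n` a simple function on `Y`; let
`h y = lim t_n y` where the limit exists (`measurableSet_exists_tendsto`), `0` elsewhere; truncate to
get a bounded function.)
Then for a.e. `x`, for all `n`, `e_j (g(n) x) = h_j (rho (g(n) x)) = h_j (W-orbit of rho x)`
(`Pool.PolyMax.pair_prod`), and `hconvY` for the functions `H_k = h_j` if `k = s j`, `1` otherwise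
(`Function.extend`) at `rho x` (for a.e. `x`, `hrho.quasiMeasurePreserving.ae`) gives the convergence.
The final computation is that of `reduce`.
-/

open MeasureTheory Filter Topology Finset
open scoped ENNReal

namespace Pool.Gauss4d

open Pool.Pinsker

universe u v

private lemma lift_simple {X : Type u} {m0 : MeasurableSpace X} {mu : Measure X}
    {Y : Type v} [MeasurableSpace Y] (rho : X → Y) (s : X → ℂ) (R : Finset ℂ) (hR : ∀ x, s x ∈ R)
    (hB : ∀ c, ∃ C, MeasurableSet C ∧ s ⁻¹' {c} =ᵐ[mu] rho ⁻¹' C) :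
    ∃ t : Y → ℂ, Measurable t ∧ s =ᵐ[mu] fun x => t (rho x) := by
  classical
  choose C hC hBC using hB
  refine ⟨fun y => ∑ c ∈ R, (C c).indicator (fun _ => c) y, ?_, ?_⟩
  · exact Finset.measurable_fun_sum _ fun c _ => measurable_const.indicator (hC c)
  · have h1 : ∀ᵐ x ∂mu, ∀ c ∈ R, (x ∈ s ⁻¹' {c} ↔ x ∈ rho ⁻¹' C c) := by
      refine (Finset.eventually_all R).2 fun c _ => ?_
      filter_upwards [hBC c] with x hx
      exact iff_of_eq hx
    filter_upwards [h1] with x hx
    have h2 : ∀ c ∈ R, (C c).indicator (fun _ => c) (rho x) = if c = s x then c else 0 := by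
      intro c hc
      rw [Set.indicator_apply]
      have h3 : rho x ∈ C c ↔ c = s x := by
        rw [← Set.mem_preimage, ← hx c hc]
        simp [eq_comm]
      simp only [h3]
    rw [Finset.sum_congr rfl h2, Finset.sum_ite_eq', if_pos (hR x)]

/-- Functions measurable for the Pinsker algebra are a.e. functions of `rho`. -/
theorem exists_lift {X : Type u} (m' : MeasurableSpace X) {m0 : MeasurableSpace X}
    {mu : Measure X} [IsProbabilityMeasure mu]
    {Y : Type v} [MeasurableSpace Y] {nu : Measure Y} (hm' : m' ≤ m0)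
    (rho : X → Y) (hrho : MeasurePreserving rho mu nu)
    (hB : ∀ B, MeasurableSet[m'] B → ∃ C, MeasurableSet C ∧ B =ᵐ[mu] rho ⁻¹' C)
    (e : X → ℂ) (he : StronglyMeasurable[m'] e) (b : ℝ) (heb : ∀ᵐ x ∂mu, ‖e x‖ ≤ b) :
    ∃ h : Y → ℂ, MemLp h ∞ nu ∧ e =ᵐ[mu] fun x => h (rho x) := by
  classical
  have hs : ∀ n, ∃ t : Y → ℂ, Measurable t ∧
      (fun x => he.approx n x) =ᵐ[mu] fun x => t (rho x) := by
    intro n
    exact lift_simple rho (fun x => he.approx n x) (@SimpleFunc.range X ℂ m' (he.approx n))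
      (fun x => @SimpleFunc.mem_range_self X ℂ m' (he.approx n) x)
      (fun c => hB _ (@SimpleFunc.measurableSet_fiber X ℂ m' (he.approx n) c))
  choose t ht hst using hs
  have hae : ∀ᵐ x ∂mu, ∀ n, he.approx n x = t n (rho x) := ae_all_iff.2 hst
  have hlim : ∀ᵐ x ∂mu, Tendsto (fun n => t n (rho x)) atTop (𝓝 (e x)) := by
    filter_upwards [hae] with x hx
    exact (he.tendsto_approx x).congr fun n => hx n
  have hY : ∀ᵐ y ∂nu, ∃ l, Tendsto (fun n => t n y) atTop (𝓝 l) := by
    rw [← hrho.map_eq, ae_map_iff hrho.measurable.aemeasurable (measurableSet_exists_tendsto ht)]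
    filter_upwards [hlim] with x hx
    exact ⟨_, hx⟩
  obtain ⟨h, hh, hhl⟩ := exists_stronglyMeasurable_limit_of_tendsto_ae
    (fun n => (ht n).aestronglyMeasurable) hY
  have hX : e =ᵐ[mu] fun x => h (rho x) := by
    filter_upwards [hlim, hrho.quasiMeasurePreserving.ae hhl] with x h1 h2
    exact tendsto_nhds_unique h1 h2
  refine ⟨h, memLp_top_of_bound hh.aestronglyMeasurable b ?_, hX⟩
  rw [← hrho.map_eq, ae_map_iff hrho.measurable.aemeasurable
    (measurableSet_le hh.norm.measurable measurable_const)]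
  filter_upwards [heb, hX] with x h1 h2
  rw [← h2]
  exact h1

theorem pinsker_ext {X : Type u} {m0 : MeasurableSpace X} (mu : Measure X) [IsProbabilityMeasure mu]
    (d m : ℕ) (T : Fin d → Equiv.Perm X) (hT : ∀ i, MeasurePreserving (T i) mu mu)
    (hT' : ∀ i, MeasurePreserving (T i).symm mu mu) (hc : ∀ i j, Commute (T i) (T j))
    {Y : Type v} [MeasurableSpace Y] (nu : Measure Y) (W : Fin d → Equiv.Perm Y)
    (hW : ∀ i, MeasurePreserving (W i) nu nu) (hW' : ∀ i, MeasurePreserving (W i).symm nu nu)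
    (rho : X → Y) (hrho : MeasurePreserving rho mu nu)
    (hint : ∀ i, ∀ᵐ x ∂mu, rho (T i x) = W i (rho x))
    (hpin : ∀ B, MeasurableSet B → ZeroEntropy mu T B → ∃ C, MeasurableSet C ∧ B =ᵐ[mu] rho ⁻¹' C)
    (P : Fin d → Fin m → Polynomial ℤ) (hP0 : ∀ i j, (P i j).eval 0 = 0)
    (hconvY : ∀ h : Fin m → Y → ℂ, (∀ j, MemLp (h j) ∞ nu) → ∀ᵐ y ∂nu, ∃ L : ℂ,
      Tendsto (fun N : ℕ => ((2 * N + 1 : ℕ) : ℂ)⁻¹ *
        ∑ n ∈ Finset.Icc (-(N : ℤ)) (N : ℤ), ∏ j : Fin m,
          h j ((List.ofFn fun i : Fin d => W i ^ (P i j).eval n).prod y)) atTop (𝓝 L))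
    (f : Fin m → X → ℂ) (hf : ∀ j, MemLp (f j) ∞ mu) :
    ∀ᵐ x ∂mu, ∃ L : ℂ, Tendsto (fun N : ℕ => ((2 * N + 1 : ℕ) : ℂ)⁻¹ *
      ∑ n ∈ Finset.Icc (-(N : ℤ)) (N : ℤ), ∏ j : Fin m,
        f j ((List.ofFn fun i : Fin d => T i ^ (P i j).eval n).prod x)) atTop (𝓝 L) := by
  classical
  have hT1 : ∀ i, Measurable ⇑(T i).symm := fun i => (hT' i).measurable
  obtain ⟨m', s, A, Z, hs, hne, hdist, hA, hZ, hprod⟩ := merge P
  have hPi : pinskerAlgebra mu T ≤ m0 := fun B hB => ((comm_sets T hT1 hT hc B).1 hB).1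
  set f' : Fin m' → X → ℂ := fun j x => ∏ k ∈ A j, f k x with hf'
  have hf'm : ∀ j, MemLp (f' j) ∞ mu := fun j => memLp_prod f hf (A j)
  have key := comm_char T hT1 hT hc (fun i j => P i (s j)) (fun i j => hP0 i (s j)) hne hdist
    (fun j => maxProp_poly mu T hT1 hT hc (fun i => P i (s j))) f' hf'm
  set e : Fin m' → X → ℂ := fun j => mu[f' j|pinskerAlgebra mu T] with he
  have hlift : ∀ j, ∃ h : Y → ℂ, MemLp h ∞ nu ∧ e j =ᵐ[mu] fun x => h (rho x) := by
    intro j
    have h1 := memLp_condExp_top _ hPi (f' j) (hf'm j)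
    refine exists_lift (pinskerAlgebra mu T) hPi rho hrho ?_ (e j) stronglyMeasurable_condExp
      (eLpNorm (e j) ∞ mu).toReal ?_
    · intro B hB
      have h2 := (comm_sets T hT1 hT hc B).1 hB
      exact hpin B h2.1 h2.2
    · have h2 := ae_le_eLpNormEssSup (f := e j) (μ := mu)
      filter_upwards [h2] with x hx
      rw [← eLpNorm_exponent_top] at hx
      have h3 := ENNReal.toReal_mono h1.eLpNorm_ne_top hx
      simpa using h3
  choose h hhL hh using hlift
  have hnu : IsProbabilityMeasure nu := by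
    rw [← hrho.map_eq]
    exact Measure.isProbabilityMeasure_map hrho.measurable.aemeasurable
  set H : Fin m → Y → ℂ := Function.extend s h (fun _ _ => 1) with hH
  have hHs : ∀ j, H (s j) = h j := fun j => hs.extend_apply _ _ j
  have hHo : ∀ k, k ∉ Set.range s → H k = fun _ => 1 := by
    intro k hk
    rw [hH, Function.extend_apply']
    rintro ⟨a, ha⟩
    exact hk ⟨a, ha⟩
  have hHL : ∀ k, MemLp (H k) ∞ nu := by
    intro k
    by_cases hk : k ∈ Set.range s
    · obtain ⟨j, rfl⟩ := hk
      rw [hHs]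
      exact hhL j
    · rw [hHo k hk]
      exact memLp_const 1
  have h3 := hrho.quasiMeasurePreserving.ae (hconvY H hHL)
  have hTm : ∀ i, T i ∈ Pool.PolyMax.mpS mu := fun i => ⟨hT i, hT' i⟩
  have h4 : ∀ᵐ x ∂mu, ∀ (j : Fin m') (n : ℤ),
      e j ((List.ofFn fun i : Fin d => T i ^ (P i (s j)).eval n).prod x) =
        h j ((List.ofFn fun i : Fin d => W i ^ (P i (s j)).eval n).prod (rho x)) := by
    rw [ae_all_iff]
    intro j
    rw [ae_all_iff]
    intro n
    have hp := Pool.PolyMax.pair_prod mu rho T W (fun i => ⟨hTm i, hint i⟩) (fun i => P i (s j)) n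
    have h5 := hp.1.1.quasiMeasurePreserving.ae (hh j)
    filter_upwards [h5, hp.2] with x hx hx'
    have hx1 : e j ((List.ofFn fun i : Fin d => T i ^ (P i (s j)).eval n).prod x) =
      h j (rho ((List.ofFn fun i : Fin d => T i ^ (P i (s j)).eval n).prod x)) := hx
    have hx2 : rho ((List.ofFn fun i : Fin d => T i ^ (P i (s j)).eval n).prod x) =
      (List.ofFn fun i : Fin d => W i ^ (P i (s j)).eval n).prod (rho x) := hx'
    rw [hx1, hx2]
  have hcast : ∀ N : ℕ, ((2 * N + 1 : ℕ) : ℂ)⁻¹ = (2 * (N : ℂ) + 1)⁻¹ := by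
    intro N
    push_cast
    rfl
  simp only [hcast] at h3 ⊢
  filter_upwards [key, h3, h4] with x hx1 hx2 hx4
  obtain ⟨L, hL⟩ := hx2
  refine ⟨(∏ k ∈ Z, f k x) * L, ?_⟩
  have hHprod : ∀ y : Fin m → Y, ∏ k, H k (y k) = ∏ j, h j (y (s j)) := by
    intro y
    rw [← Finset.prod_subset (Finset.subset_univ (Finset.univ.image s))
      (f := fun k => H k (y k))]
    · rw [Finset.prod_image (fun a _ b _ hab => hs hab)]
      apply Finset.prod_congr rfl
      intro j _
      rw [hHs]
    · intro k _ hk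
      rw [hHo k]
      rintro ⟨j, rfl⟩
      exact hk (Finset.mem_image_of_mem s (Finset.mem_univ j))
  have hL' : Tendsto (fun N : ℕ => (2 * (N : ℂ) + 1)⁻¹ * ∑ n ∈ Finset.Icc (-(N : ℤ)) N,
      ∏ j, e j ((List.ofFn fun i => T i ^ (P i (s j)).eval n).prod x)) atTop (𝓝 L) := by
    refine hL.congr fun N => ?_
    congr 1
    apply Finset.sum_congr rfl
    intro n _
    rw [hHprod (fun k => (List.ofFn fun i => W i ^ (P i k).eval n).prod (rho x))]
    apply Finset.prod_congr rfl
    intro j _
    rw [hx4]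
  have h4 : Tendsto (fun N : ℕ => (2 * (N : ℂ) + 1)⁻¹ * ∑ n ∈ Finset.Icc (-(N : ℤ)) N,
      ∏ j, f' j ((List.ofFn fun i => T i ^ (P i (s j)).eval n).prod x)) atTop (𝓝 L) := by
    have h5 := hx1.add hL'
    rw [zero_add] at h5
    refine h5.congr fun N => ?_
    rw [← mul_add, ← Finset.sum_add_distrib]
    congr 1
    apply Finset.sum_congr rfl
    intro n _
    simp only [he]
    ring
  have h6 := h4.const_mul (∏ k ∈ Z, f k x)
  refine h6.congr fun N => ?_
  rw [← mul_assoc, mul_comm (∏ k ∈ Z, f k x), mul_assoc, Finset.mul_sum]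
  congr 1
  apply Finset.sum_congr rfl
  intro n _
  rw [hprod (fun k => f k ((List.ofFn fun i => T i ^ (P i k).eval n).prod x))]
  congr 1
  · apply Finset.prod_congr rfl
    intro k hk
    congr 1
    have h7 : (List.ofFn fun i => T i ^ (P i k).eval n).prod = 1 := by
      apply List.prod_eq_one
      intro z hz
      rw [List.mem_ofFn] at hz
      obtain ⟨i, rfl⟩ := hz
      rw [hZ k hk i, Polynomial.eval_zero, zpow_zero]
    rw [h7]
    rfl
  · apply Finset.prod_congr rfl
    intro j _
    simp only [hf']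
    apply Finset.prod_congr rfl
    intro k hk
    have h8 : (fun i => T i ^ (P i k).eval n) = fun i => T i ^ (P i (s j)).eval n := by
      funext i
      rw [hA j k hk i]
    rw [h8]

end Pool.Gauss4d
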