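import Pool.Agent.Gauss4d.Phase
import Pool.Agent.Gauss4d.ProdSys

set_option autoImplicit false

/-!
# Gauss4d: single function averages on product spaces with a polynomial phase

PROOF.  The same as for `prod_conv` and `prod_conv_split` in `ProdSys.lean`, with `conv_phase` in place of
`conv_all`.
-/

open MeasureTheory Filter Topology Finset

namespace Pool.Gauss4d

open Pool.PolyMax Pool.PolyConv Pool.Lib.APoly

universe u

theorem prod_conv_phase {Ω : Type u} [MeasurableSpace Ω] (P : Measure Ω) [IsProbabilityMeasure P]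
    {ι : Type} [Fintype ι] (d : ℕ) (T : Fin d → Equiv.Perm Ω)
    (hT : ∀ i, MeasurePreserving (T i) P P) (hT' : ∀ i, MeasurePreserving (T i).symm P P)
    (hc : ∀ i j, Commute (T i) (T j)) (R : ι → Fin d → Polynomial ℤ) (f : (ι → Ω) → ℂ)
    (hf : Measurable f) (B : ℝ) (hB : ∀ x, ‖f x‖ ≤ B) {k : ℕ} {θ : ℕ → UnitAddCircle}
    (hθ : PD ⊥ k θ) :
    ∀ᵐ x ∂(Measure.pi fun _ : ι => P), ∃ L, Tendsto (Pool.Lib.Erg.avg fun n =>
      Pool.Lib.Weyl.e (θ n) * f (fun c => gel T (R c) (n : ℤ) (x c))) atTop (𝓝 L) := by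
  sorry

theorem prod_conv_split_phase {Ω : Type u} [MeasurableSpace Ω] (P : Measure Ω)
    [IsProbabilityMeasure P] (m d : ℕ) (T : Fin d → Equiv.Perm Ω)
    (hT : ∀ i, MeasurePreserving (T i) P P) (hT' : ∀ i, MeasurePreserving (T i).symm P P)
    (hc : ∀ i j, Commute (T i) (T j)) (R : Fin m → Fin d → Polynomial ℤ)
    (R' : Fin m × Fin m → Fin d → Polynomial ℤ)
    (f : (Fin m → Ω) × (Fin m × Fin m → Ω) → ℂ)
    (hf : Measurable f) (B : ℝ) (hB : ∀ x, ‖f x‖ ≤ B) {k : ℕ} {θ : ℕ → UnitAddCircle}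
    (hθ : PD ⊥ k θ) :
    ∀ᵐ x ∂((Measure.pi fun _ : Fin m => P).prod (Measure.pi fun _ : Fin m × Fin m => P)), ∃ L,
      Tendsto (Pool.Lib.Erg.avg fun n => Pool.Lib.Weyl.e (θ n) *
        f (fun c => gel T (R c) (n : ℤ) (x.1 c),
        fun c => gel T (R' c) (n : ℤ) (x.2 c))) atTop (𝓝 L) := by
  sorry

end Pool.Gauss4d
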