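import Pool.Agent.Gauss4d.Main

set_option autoImplicit false

/-!
# Gauss4d: general sequences of Gaussian automorphisms

`CP P k`: the sequence `k n` of permutations is a polynomial sequence in *some* commuting family of
measure preserving permutations.  If `g_1, ..., g_m` are sequences of Gaussian automorphisms such that all
`g_j` and all `g_i g_j⁻¹` are of this kind (the commuting families may depend on `j` and on `(i, j)`), then
the averages of `∏_j f_j (g_j(n) ω)` converge almost everywhere.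
-/

open MeasureTheory Filter Topology Finset
open scoped ENNReal InnerProductSpace

namespace Pool.Gauss4d

open Pool.PolyMax Pool.PolyConv

universe u v

/-- Polynomial sequences in a commuting family of measure preserving permutations. -/
def CP {Ω : Type u} [MeasurableSpace Ω] (P : Measure Ω) (k : ℕ → Equiv.Perm Ω) : Prop :=
  ∃ (d : ℕ) (T : Fin d → Equiv.Perm Ω) (R : Fin d → Polynomial ℤ),
    (∀ i, MeasurePreserving (T i) P P) ∧ (∀ i, MeasurePreserving (T i).symm P P) ∧
    (∀ i j, Commute (T i) (T j)) ∧ ∀ n : ℕ, k n = gel T R (n : ℤ)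

theorem prod_conv_cp {Ω : Type u} [MeasurableSpace Ω] (P : Measure Ω) [IsProbabilityMeasure P]
    {ι : Type} [Fintype ι] (k : ι → ℕ → Equiv.Perm Ω) (hk : ∀ c, CP P (k c)) (f : (ι → Ω) → ℂ)
    (hf : Measurable f) (B : ℝ) (hB : ∀ x, ‖f x‖ ≤ B) :
    ∀ᵐ x ∂(Measure.pi fun _ : ι => P), ∃ L, Tendsto (Pool.Lib.Erg.avg fun n =>
      f (fun c => k c n (x c))) atTop (𝓝 L) := by
  choose d T R hT hT' hc hkT using hk
  obtain ⟨D, hD⟩ : ∃ D : ℕ, ∀ c i, (R c i).natDegree ≤ D := by
    refine ⟨∑ c, ∑ i, (R c i).natDegree, fun c i => ?_⟩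
    refine le_trans (Finset.single_le_sum (f := fun i => (R c i).natDegree)
      (fun _ _ => Nat.zero_le _) (Finset.mem_univ i)) ?_
    exact Finset.single_le_sum (f := fun c => ∑ i, (R c i).natDegree)
      (fun _ _ => Nat.zero_le _) (Finset.mem_univ c)
  have hmem : ∀ c i, T c i ∈ mpS P := fun c i => ⟨hT c i, hT' c i⟩
  obtain ⟨U, hUdef⟩ : ∃ U : Fin D → Equiv.Perm (ι → Ω), U = fun l : Fin D =>
      psHom Ω ι (fun c => cperm (T c) (R c) ((l : ℕ) + 1)) := ⟨_, rfl⟩
  obtain ⟨V, hVdef⟩ : ∃ V : Equiv.Perm (ι → Ω), V = psHom Ω ι (fun c => cperm (T c) (R c) 0) :=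
    ⟨_, rfl⟩
  have hU : ∀ i j, Commute (U i) (U j) := by
    intro i j
    rw [hUdef]
    have h1 : Commute (fun c => cperm (T c) (R c) ((i : ℕ) + 1))
        (fun c => cperm (T c) (R c) ((j : ℕ) + 1)) := by
      rw [Pi.commute_iff]
      intro c
      exact cperm_commute (T c) (hc c) (R c) _ _
    exact h1.map (psHom Ω ι)
  have hmp : ∀ l, MeasurePreserving (U l) (Measure.pi fun _ : ι => P)
      (Measure.pi fun _ : ι => P) := by
    intro l
    rw [hUdef]
    exact measurePreserving_pi (fun _ : ι => P) (fun _ : ι => P)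
      (fun c => (cperm_mem P (T c) (hmem c) (R c) ((l : ℕ) + 1)).1)
  have hmpV : MeasurePreserving V (Measure.pi fun _ : ι => P) (Measure.pi fun _ : ι => P) := by
    rw [hVdef]
    exact measurePreserving_pi (fun _ : ι => P) (fun _ : ι => P)
      (fun c => (cperm_mem P (T c) (hmem c) (R c) 0).1)
  have key : ∀ (n : ℕ) (x : ι → Ω), (fun c => k c n (x c)) =
      V (act U (fun l : Fin D => n ^ ((l : ℕ) + 1)) x) := by
    intro n x
    funext c
    rw [hkT c n, gel_eq (T c) (hc c) (R c) D (hD c) n, hVdef, psHom_apply, hUdef, ps_act]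
    rfl
  have h := conv_all (Measure.pi fun _ : ι => P) U hU hmp (fun x => f (V x))
    (hf.comp hmpV.measurable) B (fun x => hB _)
  filter_upwards [h] with x hx
  obtain ⟨L, hL⟩ := hx
  refine ⟨L, ?_⟩
  simp only [key]
  exact hL

theorem prod_conv_split_cp {Ω : Type u} [MeasurableSpace Ω] (P : Measure Ω)
    [IsProbabilityMeasure P] (m : ℕ) (g : Fin m → ℕ → Equiv.Perm Ω)
    (g' : Fin m × Fin m → ℕ → Equiv.Perm Ω) (hg : ∀ j, CP P (g j)) (hg' : ∀ p, CP P (g' p))
    (f : (Fin m → Ω) × (Fin m × Fin m → Ω) → ℂ)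
    (hf : Measurable f) (B : ℝ) (hB : ∀ x, ‖f x‖ ≤ B) :
    ∀ᵐ x ∂((Measure.pi fun _ : Fin m => P).prod (Measure.pi fun _ : Fin m × Fin m => P)), ∃ L,
      Tendsto (Pool.Lib.Erg.avg fun n => f (fun c => g c n (x.1 c),
        fun c => g' c n (x.2 c))) atTop (𝓝 L) := by
  have hf2 : Measurable (fun y : (Fin m ⊕ (Fin m × Fin m)) → Ω =>
      f (fun c => y (Sum.inl c), fun c => y (Sum.inr c))) := by
    refine hf.comp (Measurable.prodMk ?_ ?_)
    · exact measurable_pi_iff.mpr fun c => measurable_pi_apply _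
    · exact measurable_pi_iff.mpr fun c => measurable_pi_apply _
  have h := prod_conv_cp P (ι := Fin m ⊕ (Fin m × Fin m)) (Sum.elim g g')
    (by rintro (c | c); exacts [hg c, hg' c])
    (fun y => f (fun c => y (Sum.inl c), fun c => y (Sum.inr c))) hf2 B (fun y => hB _)
  have hmp := measurePreserving_sumPiEquivProdPi_symm
    (X := fun _ : Fin m ⊕ (Fin m × Fin m) => Ω) (fun _ => P)
  have h2 := hmp.quasiMeasurePreserving.ae h
  filter_upwards [h2] with x hx
  exact hx

variable {Ω : Type u} [MeasurableSpace Ω] {P : Measure Ω} [IsProbabilityMeasure P] {H : Type v}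
  [NormedAddCommGroup H] [InnerProductSpace ℝ H] {X : H → Ω → ℝ}

theorem expo_conv_cp (hX : GField P X) (m : ℕ) (g : Fin m → ℕ → Equiv.Perm Ω)
    (hg : ∀ j, CP P (g j)) (hgi : ∀ j n, ∃ V : H ≃ₗᵢ[ℝ] H, Imp P X (g j n) V)
    (hpair : ∀ i j, CP P fun n => g i n * (g j n)⁻¹) (h : Fin m → H) :
    ∀ᵐ ω ∂P, ∃ L, Tendsto (Pool.Lib.Erg.avg fun n => ∏ j, ex (X (h j) (g j n ω))) atTop
      (𝓝 L) := by
  classical
  rcases Nat.eq_zero_or_pos m with rfl | hm
  · refine Filter.Eventually.of_forall fun ω => ⟨1, ?_⟩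
    refine tendsto_const_nhds.congr' ?_
    filter_upwards [eventually_ge_atTop 1] with N hN
    have hN0 : (N : ℂ) ≠ 0 := by
      have : N ≠ 0 := by omega
      exact_mod_cast this
    simp [Pool.Lib.Erg.avg, hN0]
  choose V hV using hgi
  set v : Fin m → ℕ → H := fun j n => V j n (h j) with hv
  set w : Fin m × Fin m → ℕ → H := fun p n => (V p.2 n)⁻¹ (V p.1 n (h p.1)) with hw
  set g' : Fin m × Fin m → ℕ → Equiv.Perm Ω := fun p n => g p.1 n * (g p.2 n)⁻¹ with hg'
  have hk : ∀ (p : Fin m × Fin m) (n : ℕ), ∀ᵐ ω ∂P,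
      X (h p.1) (g' p n ω) = X (w p n) ω := by
    intro p n
    exact ((hV p.1 n).mul (hV p.2 n).inv).imp (h p.1)
  have hvn : ∀ j n, ‖v j n‖ = ‖h j‖ := fun j n => (V j n).norm_map (h j)
  have hwn : ∀ p n, ‖w p n‖ = ‖h p.1‖ := fun p n => by
    rw [hw]
    simp only [LinearIsometryEquiv.norm_map]
  have hin : ∀ (i j : Fin m) n, ⟪w (i, j) n, h j⟫_ℝ = ⟪v i n, v j n⟫_ℝ := by
    intro i j n
    have h1 := (V j n).inner_map_map (w (i, j) n) (h j)
    rw [← h1]
    have h2 : V j n (w (i, j) n) = v i n := (V j n).apply_symm_apply _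
    rw [h2]
  obtain ⟨κ, hκ, hint⟩ := pair_int hX m h v hvn w hwn hin
  set F : Finset (Fin m × Fin m) := univ.filter (fun p : Fin m × Fin m => p.1 < p.2) with hF
  have hsplit := prod_conv_split_cp P m g g' hg (fun p => hpair p.1 p.2)
    (fun y => ex (Real.sqrt m * ∑ j, X (h j) (y.1 j)) * ex (∑ p ∈ F, X (h p.1) (y.2 p)))
    (by
      refine Measurable.mul ?_ ?_
      · refine measurable_ex.comp (Measurable.const_mul (Finset.measurable_fun_sum _ fun j _ => ?_) _)
        exact (hX.meas _).comp ((measurable_pi_apply j).comp measurable_fst)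
      · refine measurable_ex.comp (Finset.measurable_fun_sum _ fun p _ => ?_)
        exact (hX.meas _).comp ((measurable_pi_apply p).comp measurable_snd))
    1 (fun y => by rw [norm_mul, norm_ex, norm_ex, one_mul])
  have hcore := core hX (Measure.pi fun _ : Fin m × Fin m => P) m hm v (fun j => ‖h j‖) hvn
    (fun n z => ex (∑ p ∈ F, X (w p n) (z p)))
    (fun n => measurable_ex.comp (Finset.measurable_fun_sum _ fun p _ =>
      (hX.meas _).comp (measurable_pi_apply p)))
    (fun n z => (norm_ex _).le)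
    (fun z => ex (∑ p ∈ F, X (h p.2) (z p)))
    (measurable_ex.comp (Finset.measurable_fun_sum _ fun p _ =>
      (hX.meas _).comp (measurable_pi_apply p)))
    (fun z => (norm_ex _).le) κ hκ hint
    (by
      have h1 : ∀ᵐ x ∂((Measure.pi fun _ : Fin m => P).prod
          (Measure.pi fun _ : Fin m × Fin m => P)), ∀ (n : ℕ) (j : Fin m),
          X (h j) (g j n (x.1 j)) = X (v j n) (x.1 j) := by
        rw [ae_all_iff]
        intro n
        rw [ae_all_iff]
        intro j
        have h2 := (measurePreserving_eval (fun _ : Fin m => P) j).quasiMeasurePreserving.ae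
          ((hV j n).imp (h j))
        exact Measure.quasiMeasurePreserving_fst.ae h2
      have h2 : ∀ᵐ x ∂((Measure.pi fun _ : Fin m => P).prod
          (Measure.pi fun _ : Fin m × Fin m => P)), ∀ (n : ℕ) (p : Fin m × Fin m),
          X (h p.1) (g' p n (x.2 p)) = X (w p n) (x.2 p) := by
        rw [ae_all_iff]
        intro n
        rw [ae_all_iff]
        intro p
        have h2 := (measurePreserving_eval (fun _ : Fin m × Fin m => P)
          p).quasiMeasurePreserving.ae (hk p n)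
        exact Measure.quasiMeasurePreserving_snd.ae h2
      filter_upwards [hsplit, h1, h2] with x hx e1 e2
      obtain ⟨L, hL⟩ := hx
      refine ⟨L, ?_⟩
      have e3 : (fun n : ℕ => ex (seqA X v x.1 n) * ex (∑ p ∈ F, X (w p n) (x.2 p))) =
          fun n : ℕ => ex (Real.sqrt m * ∑ j, X (h j) (g j n (x.1 j))) *
            ex (∑ p ∈ F, X (h p.1) (g' p n (x.2 p))) := by
        funext n
        unfold seqA
        simp only [e1 n, e2 n]
      rw [e3]
      exact hL)
  have h3 : ∀ᵐ ω ∂P, ∀ (n : ℕ) (j : Fin m), X (h j) (g j n ω) = X (v j n) ω := by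
    rw [ae_all_iff]
    intro n
    rw [ae_all_iff]
    intro j
    exact (hV j n).imp (h j)
  have h4 : ∀ᵐ ω ∂P, ∀ n : ℕ, X (∑ j, v j n) ω = ∑ j, X (v j n) ω := by
    rw [ae_all_iff]
    intro n
    exact hX.sum Finset.univ fun j => v j n
  filter_upwards [hcore, h3, h4] with ω hω e3 e4
  obtain ⟨L, hL⟩ := hω
  refine ⟨L, ?_⟩
  have e5 : (fun n : ℕ => ∏ j, ex (X (h j) (g j n ω))) =
      fun n : ℕ => ex (X (∑ j, v j n) ω) := by
    funext n
    rw [e4 n, ex_sum]
    refine Finset.prod_congr rfl fun j _ => ?_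
    rw [e3 n j]
  rw [e5]
  exact hL

theorem gauss_expo_cp (hX : GField P X) (m : ℕ) (g : Fin m → ℕ → Equiv.Perm Ω)
    (hg : ∀ j, CP P (g j)) (hgi : ∀ j n, ∃ V : H ≃ₗᵢ[ℝ] H, Imp P X (g j n) V)
    (hpair : ∀ i j, CP P fun n => g i n * (g j n)⁻¹) (φ : Fin m → Ω → ℂ)
    (hφ : ∀ j, IsExpo X (φ j)) :
    ∀ᵐ ω ∂P, ∃ L, Tendsto (Pool.Lib.Erg.avg fun n => ∏ j, φ j (g j n ω)) atTop (𝓝 L) := by
  classical
  choose k c h hφ using hφ
  have hall : ∀ᵐ ω ∂P, ∀ p : (∀ j, Fin (k j)), ∃ L, Tendsto (Pool.Lib.Erg.avg fun n =>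
      ∏ j, ex (X (h j (p j)) (g j n ω))) atTop (𝓝 L) := by
    rw [ae_all_iff]
    intro p
    exact expo_conv_cp hX m g hg hgi hpair fun j => h j (p j)
  filter_upwards [hall] with ω hω
  choose L hL using hω
  refine ⟨∑ p : (∀ j, Fin (k j)), (∏ j, c j (p j)) * L p, ?_⟩
  have e : (Pool.Lib.Erg.avg fun n => ∏ j, φ j (g j n ω)) =
      fun N => ∑ p : (∀ j, Fin (k j)), (∏ j, c j (p j)) * Pool.Lib.Erg.avg (fun n =>
        ∏ j, ex (X (h j (p j)) (g j n ω))) N := by
    funext N
    have e1 : (fun n : ℕ => ∏ j, φ j (g j n ω)) = fun n : ℕ =>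
        ∑ p : (∀ j, Fin (k j)), (∏ j, c j (p j)) * ∏ j, ex (X (h j (p j)) (g j n ω)) := by
      funext n
      have e2 : ∀ j, φ j (g j n ω) =
          ∑ i : Fin (k j), c j i * ex (X (h j i) (g j n ω)) := fun j => hφ j _
      simp_rw [e2]
      rw [Finset.prod_univ_sum, Fintype.piFinset_univ]
      apply Finset.sum_congr rfl
      intro p _
      rw [Finset.prod_mul_distrib]
    rw [e1, avg_fsum]
    apply Finset.sum_congr rfl
    intro p _
    rw [avg_cmul]
  rw [e]
  apply tendsto_finsetSum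
  intro p _
  exact (hL p).const_mul _

theorem gauss_cp (hX : GField P X)
    (hgen : ∀ A, MeasurableSet A → ∃ B,
      MeasurableSet[⨆ h, MeasurableSpace.comap (X h) inferInstance] B ∧ A =ᵐ[P] B)
    (m : ℕ) (g : Fin m → ℕ → Equiv.Perm Ω)
    (hg : ∀ j, CP P (g j)) (hgi : ∀ j n, ∃ V : H ≃ₗᵢ[ℝ] H, Imp P X (g j n) V)
    (hpair : ∀ i j, CP P fun n => g i n * (g j n)⁻¹) (f : Fin m → Ω → ℂ)
    (hf : ∀ j, MemLp (f j) ∞ P) :
    ∀ᵐ ω ∂P, ∃ L, Tendsto (Pool.Lib.Erg.avg fun n => ∏ j, f j (g j n ω)) atTop (𝓝 L) := by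
  refine multi_closureW (mu := P) (fun j n => ⇑(g j n)) ?_ ?_ {φ | IsExpo X φ} ?_ ?_ ?_ f hf
  · intro j n
    obtain ⟨V, hV⟩ := hgi j n
    exact hV.mp
  · intro j
    obtain ⟨d, T, R, hT, hT', hc, hk⟩ := hg j
    obtain ⟨C, hC⟩ := one_sided.{u} (Finset.univ.sup fun i => (R i).natDegree)
    refine ⟨C, fun v hv => ?_⟩
    simp only [hk]
    exact hC P d T hT hT' hc R (fun i => Finset.le_sup (f := fun i => (R i).natDegree)
      (Finset.mem_univ i)) v hv
  · intro φ hφ
    obtain ⟨C, hC⟩ := IsExpo.bdd hφ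
    exact memLp_top_of_bound (IsExpo.measurable hX hφ).aestronglyMeasurable C
      (Eventually.of_forall hC)
  · intro g hg ep hep
    exact expo_dense hX hgen g hg ep hep
  · intro φ hφ
    exact gauss_expo_cp hX m g hg hgi hpair φ hφ

end Pool.Gauss4d
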