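import Pool.Agent.Lib.AffineMeas

set_option autoImplicit false

/-!
# Gauss4d: sparse characters with bounded weights

PROOF.  Word for word the proof of `Pool.Lib.AffMeas.sparse_conv` (file `Pool/Agent/Lib/AffineMeas.lean`)
with the functions `x ↦ w n * e (γ n x + c n)`.
-/

open MeasureTheory Filter Topology Finset
open scoped ENNReal NNReal ComplexConjugate

namespace Pool.Gauss4d

open Pool.Lib.Erg Pool.Lib.Weyl Pool.Lib.AffMeas

universe u

theorem sparse_conv_w {K : Type u} [AddCommGroup K] [TopologicalSpace K] [IsTopologicalAddGroup K]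
    [CompactSpace K] [T2Space K] [MeasurableSpace K] [BorelSpace K] (μ : Measure K)
    [μ.IsAddHaarMeasure] [IsProbabilityMeasure μ] (γ : ℕ → Ch K)
    (c : ℕ → UnitAddCircle) (s : ℕ)
    (hs : ∀ (z : Ch K) (L : ℕ) (S : Finset ℕ), (∀ n ∈ S, n < L ∧ γ n = z) →
        (S.card : ℝ) ≤ 3 * (L : ℝ) ^ (1 - (1 / 2 : ℝ) ^ s)) (w : ℕ → ℂ) (hw : ∀ n, ‖w n‖ ≤ 1) :
    ∀ᵐ x ∂μ, Tendsto (avg fun n => w n * e (γ n x + c n)) atTop (𝓝 0) := by
  sorry

end Pool.Gauss4d
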